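import Mathlib
import Pool.Agent.H807R2.Dav1

/-!
# Polynomial phases over the primes: interface of the project MP_e70ed2_nt (helper486)

`h` is a polynomial with integer coefficients, `e(x) = exp(2 π i x)`, `Λ` the von Mangoldt function and
`Λ_W(n) = W / φ(W)` for `n` coprime to `W`, and `0` otherwise.
-/

set_option autoImplicit false

namespace Pool.Agent.R486.PD

open Finset Polynomial
open Pool.Agent.H807R2.Dav (ee)

/-- `∑_{n ≤ N} Λ(n) e(θ h(n))` -/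
noncomputable def SLam (h : ℤ[X]) (N : ℕ) (θ : ℝ) : ℂ :=
  ∑ n ∈ Icc 1 N, ((ArithmeticFunction.vonMangoldt n : ℝ) : ℂ) * ee (θ * ((h.eval (n : ℤ) : ℤ) : ℝ))

/-- `Λ_W` -/
noncomputable def lamW (W n : ℕ) : ℝ := if n.Coprime W then (W : ℝ) / Nat.totient W else 0

/-- `∑_{n ≤ N} Λ_W(n) e(θ h(n))` -/
noncomputable def SMod (h : ℤ[X]) (W N : ℕ) (θ : ℝ) : ℂ :=
  ∑ n ∈ Icc 1 N, ((lamW W n : ℝ) : ℂ) * ee (θ * ((h.eval (n : ℤ) : ℤ) : ℝ))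

/-- `θ` has a rational approximation with denominator at most `Q` and error `Q / N ^ d`. -/
def Near (d N : ℕ) (Q θ : ℝ) : Prop :=
  ∃ q : ℕ, 1 ≤ q ∧ (q : ℝ) ≤ Q ∧ ∃ a : ℤ, |q * θ - a| ≤ Q / (N : ℝ) ^ d

/-- T1: the minor arcs. -/
def MinorArcs : Prop := ∀ h : ℤ[X], 1 ≤ h.natDegree → ∃ C N₀ : ℕ, ∀ N : ℕ, N₀ ≤ N → ∀ θ : ℝ,
  N / Real.log N ≤ ‖SLam h N θ‖ → Near h.natDegree N (Real.log N ^ C) θ

/-- T2: the major arcs. -/
def MajorArcs : Prop := ∀ h : ℤ[X], 1 ≤ h.natDegree → ∀ ε : ℝ, 0 < ε → ∃ z : ℕ, ∀ W : ℕ, 0 < W →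
  (∀ p : ℕ, p ≤ z → p.Prime → p ∣ W) → ∀ C : ℕ, ∃ N₀ : ℕ, ∀ N : ℕ, N₀ ≤ N → ∀ θ : ℝ,
    Near h.natDegree N (Real.log N ^ C) θ → ‖SLam h N θ - SMod h W N θ‖ ≤ ε * N

/-- T2': the minor arcs of the model. -/
def ModelMinor : Prop := ∀ h : ℤ[X], 1 ≤ h.natDegree → ∀ ε : ℝ, 0 < ε → ∀ W : ℕ, 0 < W →
  ∃ C N₀ : ℕ, ∀ N : ℕ, N₀ ≤ N → ∀ θ : ℝ, ε * N ≤ ‖SMod h W N θ‖ → Near h.natDegree N C θ

/-- Fourier uniformity of `Λ - Λ_W` along `h`. -/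
def PrimeUniform : Prop := ∀ h : ℤ[X], 1 ≤ h.natDegree → ∀ ε : ℝ, 0 < ε → ∃ z : ℕ, ∀ W : ℕ, 0 < W →
  (∀ p : ℕ, p ≤ z → p.Prime → p ∣ W) → ∃ N₀ : ℕ, ∀ N : ℕ, N₀ ≤ N → ∀ θ : ℝ,
    ‖SLam h N θ - SMod h W N θ‖ ≤ ε * N

lemma Near.mono {d N : ℕ} {Q Q' θ : ℝ} (h : Near d N Q θ) (hQ : Q ≤ Q') : Near d N Q' θ := by
  obtain ⟨q, h1, h2, a, h3⟩ := h
  exact ⟨q, h1, h2.trans hQ, a, h3.trans (div_le_div_of_nonneg_right hQ (by positivity))⟩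

theorem primeUniform_of (h1 : MinorArcs) (h2 : MajorArcs) (h3 : ModelMinor) : PrimeUniform := by
  intro h hd ε hε
  obtain ⟨z, hz⟩ := h2 h hd ε hε
  refine ⟨z, fun W hW hpW => ?_⟩
  obtain ⟨C1, N1, hm⟩ := h1 h hd
  obtain ⟨C2, N2, hmm⟩ := h3 h hd (ε / 2) (by positivity) W hW
  obtain ⟨N3, hM⟩ := hz W hW hpW (C1 + 1)
  have hlog := Real.tendsto_log_atTop.comp tendsto_natCast_atTop_atTop
  obtain ⟨N4, hN4⟩ := (hlog.eventually_ge_atTop (max (max 1 (C2 : ℝ)) (2 / ε))).exists_forall_of_atTop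
  refine ⟨max (max N1 N2) (max (max N3 N4) 1), fun N hN θ => ?_⟩
  have a1 : N1 ≤ N := by omega
  have a2 : N2 ≤ N := by omega
  have a3 : N3 ≤ N := by omega
  have a4 : N4 ≤ N := by omega
  have a5 : 1 ≤ N := by omega
  have hl := hN4 N a4
  simp only [Function.comp] at hl
  have hl1 : 1 ≤ Real.log N := le_trans (le_trans (le_max_left _ _) (le_max_left _ _)) hl
  have hl2 : (C2 : ℝ) ≤ Real.log N := le_trans (le_trans (le_max_right _ _) (le_max_left _ _)) hl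
  have hl3 : 2 / ε ≤ Real.log N := le_trans (le_max_right _ _) hl
  by_cases hn : Near h.natDegree N (Real.log N ^ (C1 + 1)) θ
  · exact hM N a3 θ hn
  have hN0 : (0 : ℝ) < N := by exact_mod_cast a5
  have b1 : ‖SLam h N θ‖ ≤ N / Real.log N := by
    by_contra hc
    push Not at hc
    exact hn ((hm N a1 θ hc.le).mono (pow_le_pow_right₀ hl1 (by omega)))
  have b2 : ‖SMod h W N θ‖ ≤ ε / 2 * N := by
    by_contra hc
    push Not at hc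
    refine hn ((hmm N a2 θ hc.le).mono (hl2.trans ?_))
    calc Real.log N = Real.log N ^ 1 := (pow_one _).symm
      _ ≤ Real.log N ^ (C1 + 1) := pow_le_pow_right₀ hl1 (by omega)
  have b3 : (N : ℝ) / Real.log N ≤ ε / 2 * N := by
    rw [div_le_iff₀ (by linarith)]
    have : 1 ≤ ε / 2 * Real.log N := by
      rw [div_le_iff₀ hε] at hl3
      linarith
    nlinarith
  calc ‖SLam h N θ - SMod h W N θ‖ ≤ ‖SLam h N θ‖ + ‖SMod h W N θ‖ := norm_sub_le _ _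
    _ ≤ ε * N := by linarith

end Pool.Agent.R486.PD
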