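import Mathlib
import Pool.Agent.R486.PD.Defs

/-!
# Ergodic and combinatorial part of MP_e70ed2_nt: interface (helper486)

See `notes2.md` for the proofs.
-/

set_option autoImplicit false

namespace Pool.Agent.R486.PD

open Finset Polynomial Filter
open scoped Topology RealInnerProductSpace
open Pool.Agent.H807R2.Dav (ee)

/-- averages of `T ^ (M k) f`, `k < K` -/
noncomputable def avV {V : Type} [SeminormedAddCommGroup V] [InnerProductSpace ℝ V]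
    (T : V ≃ₗᵢ[ℝ] V) (M K : ℕ) (f : V) : V :=
  (K : ℝ)⁻¹ • ∑ k ∈ range K, (T ^ ((M : ℤ) * k)) f

/-- P1: the abstract ergodic theorem. -/
def ErgAbs : Prop := ∀ (V : Type) [SeminormedAddCommGroup V] [InnerProductSpace ℝ V]
  (T : V ≃ₗᵢ[ℝ] V) (f : V) (η : ℝ), 0 < η → ∃ m : ℕ, 1 ≤ m ∧ ∀ M : ℕ, 1 ≤ M → m ∣ M →
    ∃ K₀ : ℕ, 1 ≤ K₀ ∧ ∀ K : ℕ, K₀ ≤ K →
      (∀ K' : ℕ, K₀ ≤ K' → ∀ i : ℕ, ‖(T ^ ((m : ℤ) * i)) (avV T M K f) - avV T m K' f‖ ≤ η) ∧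
      (∀ h : ℤ[X], 1 ≤ h.natDegree → ∀ q : ℕ, 1 ≤ q → M ∣ q → ∀ s j : ℤ,
        (M : ℤ) ∣ h.eval s - j → ∀ᶠ N : ℕ in atTop,
          ⟪(T ^ j) (avV T M K f), avV T M K f⟫ - η ≤
            (∑ k ∈ range N, ⟪(T ^ (h.eval (s + q * k))) f, f⟫) / N)

/-- bounded functions on `ℤ` -/
def Bdd (f : ℤ → ℝ) : Prop := ∃ C : ℝ, ∀ x, |f x| ≤ C

/-- shift invariant means on the bounded functions on `ℤ` -/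
structure IsMean (L : (ℤ → ℝ) → ℝ) : Prop where
  add : ∀ f g : ℤ → ℝ, Bdd f → Bdd g → L (fun x => f x + g x) = L f + L g
  smul : ∀ (c : ℝ) (f : ℤ → ℝ), Bdd f → L (fun x => c * f x) = c * L f
  mono : ∀ f g : ℤ → ℝ, Bdd f → Bdd g → (∀ x, f x ≤ g x) → L f ≤ L g
  one : L (fun _ => 1) = 1
  shift : ∀ f : ℤ → ℝ, Bdd f → ∀ t : ℤ, L (fun x => f (x + t)) = L f

/-- average along an arithmetic progression -/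
noncomputable def av (M K : ℕ) (f : ℤ → ℝ) (x : ℤ) : ℝ := (∑ k ∈ range K, f (x + (M : ℤ) * k)) / K

/-- the correlations of `f` -/
noncomputable def cor (L : (ℤ → ℝ) → ℝ) (f : ℤ → ℝ) (j : ℤ) : ℝ := L (fun x => f (x + j) * f x)

/-- P2: the ergodic theorem for a mean (to be deduced from `ErgAbs`). -/
def ErgL : Prop := ∀ (L : (ℤ → ℝ) → ℝ), IsMean L → ∀ f : ℤ → ℝ, (∀ x, 0 ≤ f x ∧ f x ≤ 1) →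
  ∀ η : ℝ, 0 < η → ∃ m : ℕ, 1 ≤ m ∧ ∀ M : ℕ, 1 ≤ M → m ∣ M →
    ∃ K₀ : ℕ, 1 ≤ K₀ ∧ ∀ K : ℕ, K₀ ≤ K →
      (∀ K' : ℕ, K₀ ≤ K' → ∀ i : ℕ, L (fun x => |av M K f (x + (m : ℤ) * i) - av m K' f x|) ≤ η) ∧
      (∀ h : ℤ[X], 1 ≤ h.natDegree → ∀ q : ℕ, 1 ≤ q → M ∣ q → ∀ s j : ℤ,
        (M : ℤ) ∣ h.eval s - j → ∀ᶠ N : ℕ in atTop,
          cor L (av M K f) j - η ≤ (∑ k ∈ range N, cor L f (h.eval (s + q * k))) / N)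

/-- positive definiteness of the correlations, along a polynomial -/
def PosDef (L : (ℤ → ℝ) → ℝ) : Prop := ∀ f : ℤ → ℝ, (∀ x, 0 ≤ f x ∧ f x ≤ 1) →
  ∀ (h : ℤ[X]) (N : ℕ) (w : ℕ → ℝ) (E : ℝ),
    (∀ θ : ℝ, ‖∑ n ∈ Icc 1 N, ((w n : ℝ) : ℂ) * ee (θ * ((h.eval (n : ℤ) : ℤ) : ℝ))‖ ≤ E) →
    |∑ n ∈ Icc 1 N, w n * cor L f (h.eval (n : ℤ))| ≤ E

open Classical in
/-- indicator function of a set of natural numbers, on `ℤ` -/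
noncomputable def indZ (A : Set ℕ) (x : ℤ) : ℝ := if ∃ a ∈ A, (a : ℤ) = x then 1 else 0

open Classical in
/-- the upper density of a set of natural numbers -/
noncomputable def upperDensity (A : Set ℕ) : ℝ :=
  limsup (fun N : ℕ => (#((Icc 1 N).filter (fun n => n ∈ A)) : ℝ) / N) atTop

/-- P3: means realizing the upper density. -/
def ExistsMean : Prop := ∀ A : Set ℕ, ∃ L : (ℤ → ℝ) → ℝ, IsMean L ∧ PosDef L ∧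
  L (indZ A) = upperDensity A

/-- P4: from the primes to all the integers coprime to `M`. -/
def PrimeCorr : Prop := ∀ (h : ℤ[X]), 1 ≤ h.natDegree → ∀ c : ℤ → ℝ, (∀ j, 0 ≤ c j ∧ c j ≤ 1) →
  (∀ (N : ℕ) (w : ℕ → ℝ) (E : ℝ),
    (∀ θ : ℝ, ‖∑ n ∈ Icc 1 N, ((w n : ℝ) : ℂ) * ee (θ * ((h.eval (n : ℤ) : ℤ) : ℝ))‖ ≤ E) →
    |∑ n ∈ Icc 1 N, w n * c (h.eval (n : ℤ))| ≤ E) →
  (∀ p : ℕ, p.Prime → h.eval (p : ℤ) ≠ 0 → c (h.eval (p : ℤ)) = 0) →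
  ∀ (M b : ℕ), 1 ≤ M → b.Coprime M → ∀ κ : ℝ,
    (∀ W : ℕ, 1 ≤ W → M ∣ W → ∀ s : ℕ, s ≡ b [MOD M] → ∀ᶠ N : ℕ in atTop,
      κ ≤ (∑ k ∈ range N, c (h.eval ((s : ℤ) + W * k))) / N) →
    κ ≤ 0

/-- P5: the combinatorial part. -/
def Combi : Prop := ∀ (L : (ℤ → ℝ) → ℝ), IsMean L → ∀ f : ℤ → ℝ, (∀ x, 0 ≤ f x ∧ f x ≤ 1) →
  ∀ (h : ℤ[X]) (U : ℕ → ℤ → Prop),
  (∀ m M : ℕ, 1 ≤ m → 1 ≤ M → m ∣ M → ∀ r, U m r → ∃ r', U M r' ∧ (m : ℤ) ∣ r' - r) →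
  (∀ η : ℝ, 0 < η → ∃ m : ℕ, 1 ≤ m ∧ ∀ M : ℕ, 1 ≤ M → m ∣ M →
    ∃ K₀ : ℕ, 1 ≤ K₀ ∧ ∀ K : ℕ, K₀ ≤ K →
      (∀ K' : ℕ, K₀ ≤ K' → ∀ i : ℕ, L (fun x => |av M K f (x + (m : ℤ) * i) - av m K' f x|) ≤ η) ∧
      (∀ r, U M r → cor L (av M K f) (h.eval r) ≤ η)) →
  ∀ τ : ℝ, 0 < τ → ∃ m : ℕ, 1 ≤ m ∧ ∃ K₀ : ℕ, 1 ≤ K₀ ∧ ∀ K : ℕ, K₀ ≤ K → ∃ (B : Finset (ZMod m)) (x : ℤ),
    (∀ r, U m r → ∀ b ∈ B, ∀ b' ∈ B, b - b' ≠ ((h.eval r : ℤ) : ZMod m)) ∧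
    L f - τ ≤ (∑ n ∈ (Ico x (x + m * K)).filter (fun n : ℤ => (n : ZMod m) ∈ B), f n) / (m * K)

end Pool.Agent.R486.PD
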