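import Mathlib
import Pool.Agent.R486.PD.Iface

/-!
# The combinatorial part of MP_e70ed2_nt (helper717)

`theorem combi : Combi`.
-/

set_option autoImplicit false

namespace Pool.Agent.R486.PD

open Finset Polynomial Filter

namespace CombiAux

lemma bdd_const (c : ℝ) : Bdd (fun _ => c) := ⟨|c|, fun _ => le_rfl⟩

lemma bdd_unit {f : ℤ → ℝ} (hf : ∀ x, 0 ≤ f x ∧ f x ≤ 1) : Bdd f :=
  ⟨1, fun x => by rw [abs_of_nonneg (hf x).1]; exact (hf x).2⟩

lemma bdd_add {f g : ℤ → ℝ} (hf : Bdd f) (hg : Bdd g) : Bdd (fun x => f x + g x) := by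
  obtain ⟨C, hC⟩ := hf
  obtain ⟨D, hD⟩ := hg
  exact ⟨C + D, fun x => (abs_add_le _ _).trans (add_le_add (hC x) (hD x))⟩

lemma bdd_smul (c : ℝ) {f : ℤ → ℝ} (hf : Bdd f) : Bdd (fun x => c * f x) := by
  obtain ⟨C, hC⟩ := hf
  exact ⟨|c| * C, fun x => by
    rw [abs_mul]; exact mul_le_mul_of_nonneg_left (hC x) (abs_nonneg _)⟩

lemma bdd_abs {f : ℤ → ℝ} (hf : Bdd f) : Bdd (fun x => |f x|) := by
  obtain ⟨C, hC⟩ := hf
  exact ⟨C, fun x => by rw [abs_abs]; exact hC x⟩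

lemma bdd_mul {f g : ℤ → ℝ} (hf : Bdd f) (hg : Bdd g) : Bdd (fun x => f x * g x) := by
  obtain ⟨C, hC⟩ := hf
  obtain ⟨D, hD⟩ := hg
  exact ⟨C * D, fun x => by
    rw [abs_mul]
    exact mul_le_mul (hC x) (hD x) (abs_nonneg _) ((abs_nonneg _).trans (hC x))⟩

lemma bdd_sub {f g : ℤ → ℝ} (hf : Bdd f) (hg : Bdd g) : Bdd (fun x => f x - g x) := by
  obtain ⟨C, hC⟩ := hf
  obtain ⟨D, hD⟩ := hg
  exact ⟨C + D, fun x => (abs_sub _ _).trans (add_le_add (hC x) (hD x))⟩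

lemma bdd_shift {f : ℤ → ℝ} (hf : Bdd f) (t : ℤ) : Bdd (fun x => f (x + t)) := by
  obtain ⟨C, hC⟩ := hf
  exact ⟨C, fun x => hC _⟩

lemma bdd_sum {ι : Type*} (s : Finset ι) {F : ι → ℤ → ℝ} (hF : ∀ i, Bdd (F i)) :
    Bdd (fun x => ∑ i ∈ s, F i x) := by
  classical
  induction s using Finset.induction_on with
  | empty => simpa using bdd_const 0
  | insert a s ha ih =>
    have : (fun x => ∑ i ∈ insert a s, F i x) = fun x => F a x + ∑ i ∈ s, F i x := by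
      funext x
      rw [Finset.sum_insert ha]
    rw [this]
    exact bdd_add (hF a) ih

variable {L : (ℤ → ℝ) → ℝ}

lemma L_zero (hL : IsMean L) : L (fun _ => 0) = 0 := by
  have := hL.smul 0 (fun _ => 1) (bdd_const 1)
  simpa using this

lemma L_const (hL : IsMean L) (c : ℝ) : L (fun _ => c) = c := by
  have := hL.smul c (fun _ => 1) (bdd_const 1)
  simpa [hL.one] using this

lemma L_sub (hL : IsMean L) {f g : ℤ → ℝ} (hf : Bdd f) (hg : Bdd g) :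
    L (fun x => f x - g x) = L f - L g := by
  have h1 := hL.add f (fun x => (-1) * g x) hf (bdd_smul _ hg)
  have h2 := hL.smul (-1) g hg
  have h3 : (fun x => f x - g x) = fun x => f x + (-1) * g x := by
    funext x; ring
  rw [h3, h1, h2]; ring

lemma L_sum (hL : IsMean L) {ι : Type*} (s : Finset ι) {F : ι → ℤ → ℝ} (hF : ∀ i, Bdd (F i)) :
    L (fun x => ∑ i ∈ s, F i x) = ∑ i ∈ s, L (F i) := by
  classical
  induction s using Finset.induction_on with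
  | empty => simpa using L_zero hL
  | insert a s ha ih =>
    have : (fun x => ∑ i ∈ insert a s, F i x) = fun x => F a x + ∑ i ∈ s, F i x := by
      funext x
      rw [Finset.sum_insert ha]
    rw [this, hL.add _ _ (hF a) (bdd_sum s hF), ih, Finset.sum_insert ha]

lemma av_unit {f : ℤ → ℝ} (hf : ∀ x, 0 ≤ f x ∧ f x ≤ 1) (M K : ℕ) (x : ℤ) :
    0 ≤ av M K f x ∧ av M K f x ≤ 1 := by
  unfold av
  constructor
  · exact div_nonneg (Finset.sum_nonneg fun k _ => (hf _).1) (Nat.cast_nonneg _)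
  · apply div_le_one_of_le₀ _ (Nat.cast_nonneg _)
    calc ∑ k ∈ range K, f (x + (M : ℤ) * k) ≤ ∑ k ∈ range K, (1 : ℝ) :=
          Finset.sum_le_sum fun k _ => (hf _).2
      _ = K := by simp

lemma L_av (hL : IsMean L) {f : ℤ → ℝ} (hf : Bdd f) (M K : ℕ) (hK : 1 ≤ K) :
    L (av M K f) = L f := by
  have h1 : av M K f = fun x => ((K : ℝ)⁻¹) * ∑ k ∈ range K, f (x + (M : ℤ) * k) := by
    funext x
    unfold av
    rw [div_eq_mul_inv, mul_comm]
  have hb : ∀ k : ℕ, Bdd (fun x => f (x + (M : ℤ) * k)) := fun k => bdd_shift hf _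
  rw [h1, hL.smul _ _ (bdd_sum _ hb), L_sum hL _ hb]
  have h2 : ∀ k ∈ range K, L (fun x => f (x + (M : ℤ) * k)) = L f := fun k _ => hL.shift f hf _
  rw [Finset.sum_congr rfl h2, Finset.sum_const, card_range, nsmul_eq_mul, ← mul_assoc,
    inv_mul_cancel₀ (by positivity), one_mul]

lemma sum_shift {φ : ℤ → ℝ} (hφ : ∀ x, 0 ≤ φ x ∧ φ x ≤ 1) (I : ℕ) (c : ℤ) :
    |∑ i ∈ range I, φ (i + c) - ∑ i ∈ range I, φ i| ≤ |(c : ℝ)| := by
  have step : ∀ c : ℤ, |∑ i ∈ range I, φ (i + (c + 1)) - ∑ i ∈ range I, φ (i + c)| ≤ 1 := by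
    intro c
    have h1 := Finset.sum_range_succ (fun i : ℕ => φ (i + c)) I
    have h2 := Finset.sum_range_succ' (fun i : ℕ => φ (i + c)) I
    have h3 : ∑ i ∈ range I, φ (i + (c + 1)) = ∑ i ∈ range I, φ (((i + 1 : ℕ) : ℤ) + c) := by
      apply Finset.sum_congr rfl
      intro i _
      congr 1
      push_cast
      ring
    rw [h3]
    have h4 : ∑ i ∈ range I, φ (((i + 1 : ℕ) : ℤ) + c) - ∑ i ∈ range I, φ (i + c) =
        φ (I + c) - φ (((0 : ℕ) : ℤ) + c) := by linarith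
    rw [h4, abs_le]
    have a1 := hφ (I + c)
    have a2 := hφ (((0 : ℕ) : ℤ) + c)
    constructor <;> linarith [a1.1, a1.2, a2.1, a2.2]
  have key : ∀ n : ℕ, ∀ c : ℤ, |∑ i ∈ range I, φ (i + (c + n)) - ∑ i ∈ range I, φ (i + c)| ≤ n := by
    intro n
    induction n with
    | zero => intro c; simp
    | succ n ih =>
      intro c
      have h1 := step (c + n)
      have h2 := ih c
      have h3 : ∑ i ∈ range I, φ (i + (c + ((n + 1 : ℕ) : ℤ))) =
          ∑ i ∈ range I, φ (i + (c + n + 1)) := by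
        apply Finset.sum_congr rfl
        intro i _
        congr 1
        push_cast
        ring
      rw [h3]
      rw [abs_le] at h1 h2 ⊢
      push_cast
      constructor <;> linarith [h1.1, h1.2, h2.1, h2.2]
  obtain ⟨n, rfl | rfl⟩ := Int.eq_nat_or_neg c
  · have := key n 0
    simpa using this
  · have := key n (-n)
    rw [abs_sub_comm] at this
    simpa using this

lemma mass {f : ℤ → ℝ} (hf : ∀ x, 0 ≤ f x ∧ f x ≤ 1) (m K : ℕ) (hm : 1 ≤ m) (hK : 1 ≤ K) (x : ℤ)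
    (B0 : Finset ℕ) (hB0 : B0 ⊆ range m) (B : Finset (ZMod m))
    (hB : ∀ j ∈ B0, ((x + (j : ℤ) : ℤ) : ZMod m) ∈ B) :
    (∑ j ∈ B0, av m K f (x + j)) / m ≤
      (∑ n ∈ (Ico x (x + m * K)).filter (fun n : ℤ => (n : ZMod m) ∈ B), f n) / (m * K) := by
  have hm' : (0 : ℝ) < m := by exact_mod_cast hm
  have hK' : (0 : ℝ) < K := by exact_mod_cast hK
  have h1 : ∑ j ∈ B0, av m K f (x + j) =
      (∑ p ∈ B0 ×ˢ range K, f (x + (p.1 : ℤ) + (m : ℤ) * p.2)) / K := by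
    unfold av
    rw [← Finset.sum_div, Finset.sum_product]
  have h2 : ∑ p ∈ B0 ×ˢ range K, f (x + (p.1 : ℤ) + (m : ℤ) * p.2) ≤
      ∑ n ∈ (Ico x (x + m * K)).filter (fun n : ℤ => (n : ZMod m) ∈ B), f n := by
    have hinj : Set.InjOn (fun p : ℕ × ℕ => x + (p.1 : ℤ) + (m : ℤ) * p.2)
        (B0 ×ˢ range K : Finset (ℕ × ℕ)) := by
      rintro ⟨j, k⟩ h ⟨j', k'⟩ h' e
      simp only [coe_product, Set.mem_prod, mem_coe, mem_range] at h h' e
      have hj := mem_range.1 (hB0 h.1)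
      have hj' := mem_range.1 (hB0 h'.1)
      have e2 : j + m * k = j' + m * k' := by
        have : (j : ℤ) + (m : ℤ) * k = j' + (m : ℤ) * k' := by linarith
        exact_mod_cast this
      have e3 : j = j' := by
        have := congrArg (fun t => t % m) e2
        simpa [Nat.add_mul_mod_self_left, Nat.mod_eq_of_lt hj, Nat.mod_eq_of_lt hj'] using this
      subst e3
      have e4 : k = k' := by
        have : m * k = m * k' := by omega
        exact Nat.eq_of_mul_eq_mul_left (by omega) this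
      rw [e4]
    rw [← Finset.sum_image (f := f) hinj]
    apply Finset.sum_le_sum_of_subset_of_nonneg
    · intro n hn
      obtain ⟨⟨j, k⟩, hp, rfl⟩ := Finset.mem_image.1 hn
      rw [Finset.mem_product] at hp
      have hj := mem_range.1 (hB0 hp.1)
      have hk := mem_range.1 hp.2
      simp only at hj hk
      rw [Finset.mem_filter, Finset.mem_Ico]
      refine ⟨⟨?_, ?_⟩, ?_⟩
      · simp only
        have : (0 : ℤ) ≤ (j : ℤ) + (m : ℤ) * k := by positivity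
        linarith
      · have h3 : j + m * k < m * K := by
          have : m * (k + 1) ≤ m * K := Nat.mul_le_mul_left _ hk
          have e : m * (k + 1) = m * k + m := by ring
          omega
        have h4 : (j : ℤ) + (m : ℤ) * k < (m : ℤ) * K := by exact_mod_cast h3
        simp only
        linarith
      · have := hB j hp.1
        simpa using this
    · intro n _ _
      exact (hf n).1
  rw [h1, div_div, mul_comm (K : ℝ)]
  exact div_le_div_of_nonneg_right h2 (by positivity)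

lemma corr_lower {g : ℤ → ℝ} (hg : ∀ x, 0 ≤ g x ∧ g x ≤ 1) (m I : ℕ) (hI : 1 ≤ I) (y y' c : ℤ)
    (a0 b0 : ℝ) (ha0 : 0 ≤ a0 ∧ a0 ≤ 1) (hb0 : 0 ≤ b0 ∧ b0 ≤ 1) :
    a0 * b0 - (I : ℝ)⁻¹ * (∑ i ∈ range I, |g (y + (m : ℤ) * i) - a0|) - |(c : ℝ)| * (I : ℝ)⁻¹ -
        (I : ℝ)⁻¹ * (∑ i ∈ range I, |g (y' + (m : ℤ) * i) - b0|) ≤
      (I : ℝ)⁻¹ * (∑ i ∈ range I, g (y + (m : ℤ) * (i + c)) * g (y' + (m : ℤ) * i)) := by
  have hI' : (0 : ℝ) < I := by exact_mod_cast hI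
  have h1 : ∑ i ∈ range I, |g (y + (m : ℤ) * (i + c)) - a0| ≤
      ∑ i ∈ range I, |g (y + (m : ℤ) * i) - a0| + |(c : ℝ)| := by
    have := sum_shift (φ := fun t => |g (y + (m : ℤ) * t) - a0|) (fun t => ⟨abs_nonneg _, by
      have := hg (y + (m : ℤ) * t)
      rw [abs_le]
      constructor <;> linarith [this.1, this.2, ha0.1, ha0.2]⟩) I c
    have := (abs_le.1 this).2
    linarith
  have h2 : ∑ i ∈ range I, (a0 * b0 - |g (y + (m : ℤ) * (i + c)) - a0| -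
      |g (y' + (m : ℤ) * i) - b0|) ≤
      ∑ i ∈ range I, g (y + (m : ℤ) * (i + c)) * g (y' + (m : ℤ) * i) := by
    apply Finset.sum_le_sum
    intro i _
    set a := g (y + (m : ℤ) * (i + c)) with ha
    set b := g (y' + (m : ℤ) * i) with hb
    have a1 := hg (y + (m : ℤ) * (i + c))
    have b1 := hg (y' + (m : ℤ) * i)
    rw [← ha] at a1
    rw [← hb] at b1
    have e : a * b - a0 * b0 = a * (b - b0) + b0 * (a - a0) := by ring
    have e1 : -|b - b0| ≤ a * (b - b0) := by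
      have := neg_abs_le (b - b0)
      have h := abs_nonneg (b - b0)
      nlinarith [a1.1, a1.2]
    have e2 : -|a - a0| ≤ b0 * (a - a0) := by
      have := neg_abs_le (a - a0)
      have h := abs_nonneg (a - a0)
      nlinarith [hb0.1, hb0.2]
    linarith
  rw [Finset.sum_sub_distrib, Finset.sum_sub_distrib, Finset.sum_const, card_range,
    nsmul_eq_mul] at h2
  have h3 : a0 * b0 = (I : ℝ)⁻¹ * (I * (a0 * b0)) := by field_simp
  rw [h3, mul_comm |(c : ℝ)|, ← mul_sub, ← mul_sub, ← mul_sub]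
  apply mul_le_mul_of_nonneg_left _ (by positivity)
  linarith

end CombiAux

open CombiAux in
theorem combi : Combi := by
  intro L hL f hf h U hU hyp τ hτ
  classical
  have bf : Bdd f := bdd_unit hf
  have hLf0 : 0 ≤ L f := by
    have := hL.mono (fun _ => 0) f (bdd_const 0) bf (fun x => (hf x).1)
    rwa [L_zero hL] at this
  have hLf1 : L f ≤ 1 := by
    have := hL.mono f (fun _ => 1) bf (bdd_const 1) (fun x => (hf x).2)
    rwa [hL.one] at this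
  by_cases hcase : L f ≤ τ
  · refine ⟨1, le_rfl, 1, le_rfl, fun K _ => ⟨∅, 0, fun r _ b hb =>
      absurd hb (Finset.notMem_empty b), ?_⟩⟩
    simp
    linarith
  push Not at hcase
  have hτ1 : τ < 1 := hcase.trans_le hLf1
  obtain ⟨τ1, hτ1e⟩ : ∃ τ1 : ℝ, τ1 = τ / 8 := ⟨_, rfl⟩
  obtain ⟨τ2, hτ2e⟩ : ∃ τ2 : ℝ, τ2 = τ1 ^ 2 / 6 := ⟨_, rfl⟩
  have hτ1p : 0 < τ1 := by rw [hτ1e]; positivity
  have hτ2p : 0 < τ2 := by rw [hτ2e]; positivity
  obtain ⟨m, hm, H1⟩ := hyp (τ * τ2 / 8) (by positivity)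
  have hm' : (0 : ℝ) < m := by exact_mod_cast hm
  obtain ⟨m2, hm2, H2⟩ := hyp (τ * τ1 ^ 2 / (40 * m ^ 2)) (by positivity)
  obtain ⟨M, hM⟩ : ∃ M : ℕ, M = m * m2 := ⟨_, rfl⟩
  have hM1 : 1 ≤ M := by rw [hM]; exact Nat.mul_pos hm hm2
  obtain ⟨K01, hK01, H1'⟩ := H1 M hM1 (by rw [hM]; exact Nat.dvd_mul_right _ _)
  obtain ⟨K02, hK02, H2'⟩ := H2 M hM1 (by rw [hM]; exact Nat.dvd_mul_left _ _)
  obtain ⟨K1, hK1⟩ : ∃ K1 : ℕ, K1 = max K01 K02 := ⟨_, rfl⟩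
  obtain ⟨g, hg⟩ : ∃ g : ℤ → ℝ, g = av M K1 f := ⟨_, rfl⟩
  have hg01 : ∀ x, 0 ≤ g x ∧ g x ≤ 1 := by
    intro x
    rw [hg]
    exact av_unit hf _ _ _
  have bg : Bdd g := bdd_unit hg01
  have : NeZero m := ⟨by omega⟩
  obtain ⟨P, hP⟩ : ∃ P : Finset (ZMod m), ∀ ρ, ρ ∈ P ↔ ∃ r' : ℤ, U M r' ∧ (r' : ZMod m) = ρ :=
    ⟨univ.filter (fun ρ => ∃ r' : ℤ, U M r' ∧ (r' : ZMod m) = ρ), fun ρ => by simp⟩
  have hrr : ∀ ρ : ZMod m, ∃ r' : ℤ, ρ ∈ P → U M r' ∧ (r' : ZMod m) = ρ := by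
    intro ρ
    by_cases hρ : ρ ∈ P
    · obtain ⟨r', hr'⟩ := (hP ρ).1 hρ
      exact ⟨r', fun _ => hr'⟩
    · exact ⟨0, fun h => absurd h hρ⟩
  choose rr hrr using hrr
  obtain ⟨I, hI1, hI⟩ : ∃ I : ℕ, 1 ≤ I ∧ ∀ ρ : ZMod m,
      1 + |((h.eval (rr ρ) : ℤ) : ℝ)| ≤ τ2 * I := by
    refine ⟨⌈(∑ ρ : ZMod m, (1 + |((h.eval (rr ρ) : ℤ) : ℝ)|)) / τ2⌉₊ + 1, by omega, fun ρ => ?_⟩
    have h1 : 1 + |((h.eval (rr ρ) : ℤ) : ℝ)| ≤
        ∑ ρ : ZMod m, (1 + |((h.eval (rr ρ) : ℤ) : ℝ)|) :=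
      Finset.single_le_sum (f := fun ρ : ZMod m => 1 + |((h.eval (rr ρ) : ℤ) : ℝ)|)
        (fun i _ => by positivity) (Finset.mem_univ ρ)
    have h2 := Nat.le_ceil ((∑ ρ : ZMod m, (1 + |((h.eval (rr ρ) : ℤ) : ℝ)|)) / τ2)
    rw [div_le_iff₀ hτ2p] at h2
    push_cast
    nlinarith
  have hI' : (0 : ℝ) < I := by exact_mod_cast hI1
  refine ⟨m, hm, K01, hK01, fun K hK => ?_⟩
  have hKpos : 1 ≤ K := hK01.trans hK
  obtain ⟨g0, hg0⟩ : ∃ g0 : ℤ → ℝ, g0 = av m K f := ⟨_, rfl⟩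
  have hg001 : ∀ x, 0 ≤ g0 x ∧ g0 x ≤ 1 := by
    intro x
    rw [hg0]
    exact av_unit hf _ _ _
  have bg0 : Bdd g0 := bdd_unit hg001
  -- the three averages
  obtain ⟨D, hD⟩ : ∃ D : ℤ → ℝ, D = fun x => (I : ℝ)⁻¹ * ∑ i ∈ range I,
    |g (x + (m : ℤ) * i) - g0 x| := ⟨_, rfl⟩
  have bDi : ∀ i : ℕ, Bdd (fun x => |g (x + (m : ℤ) * i) - g0 x|) := fun i =>
    bdd_abs (bdd_sub (bdd_shift bg _) bg0)
  have bD : Bdd D := by
    rw [hD]
    exact bdd_smul _ (bdd_sum _ bDi)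
  have hD0 : ∀ x, 0 ≤ D x := by
    intro x
    rw [hD]
    positivity
  have LD : L D ≤ τ * τ2 / 8 := by
    rw [hD, hL.smul _ _ (bdd_sum _ bDi), L_sum hL _ bDi, inv_mul_le_iff₀ hI']
    calc ∑ i ∈ range I, L (fun x => |g (x + (m : ℤ) * i) - g0 x|)
        ≤ ∑ i ∈ range I, (τ * τ2 / 8) := by
          apply Finset.sum_le_sum
          intro i _
          rw [hg, hg0]
          exact (H1' K1 (by rw [hK1]; exact le_max_left _ _)).1 K hK i
      _ = I * (τ * τ2 / 8) := by simp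
  obtain ⟨E, hE⟩ : ∃ E : ZMod m → ℤ → ℝ, E = fun ρ x => (I : ℝ)⁻¹ * ∑ i ∈ range I,
    g (x + (m : ℤ) * i + h.eval (rr ρ)) * g (x + (m : ℤ) * i) := ⟨_, rfl⟩
  have bEi : ∀ (ρ : ZMod m) (i : ℕ),
      Bdd (fun x => g (x + (m : ℤ) * i + h.eval (rr ρ)) * g (x + (m : ℤ) * i)) := by
    intro ρ i
    exact bdd_shift (f := fun y => g (y + h.eval (rr ρ)) * g y) (bdd_mul (bdd_shift bg _) bg) _
  have bE : ∀ ρ, Bdd (E ρ) := by
    intro ρ
    rw [hE]
    exact bdd_smul _ (bdd_sum _ (bEi ρ))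
  have hE0 : ∀ ρ x, 0 ≤ E ρ x := by
    intro ρ x
    rw [hE]
    apply mul_nonneg (by positivity)
    apply Finset.sum_nonneg
    intro i _
    exact mul_nonneg (hg01 _).1 (hg01 _).1
  have LE : ∀ ρ ∈ P, L (E ρ) ≤ τ * τ1 ^ 2 / (40 * m ^ 2) := by
    intro ρ hρ
    rw [hE, hL.smul _ _ (bdd_sum _ (bEi ρ)), L_sum hL _ (bEi ρ), inv_mul_le_iff₀ hI']
    calc ∑ i ∈ range I, L (fun x => g (x + (m : ℤ) * i + h.eval (rr ρ)) * g (x + (m : ℤ) * i))
        ≤ ∑ i ∈ range I, (τ * τ1 ^ 2 / (40 * m ^ 2)) := by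
          apply Finset.sum_le_sum
          intro i _
          rw [hL.shift (fun y => g (y + h.eval (rr ρ)) * g y) (bdd_mul (bdd_shift bg _) bg)
            ((m : ℤ) * i), hg]
          exact (H2' K1 (by rw [hK1]; exact le_max_right _ _)).2 _ (hrr ρ hρ).1
      _ = I * (τ * τ1 ^ 2 / (40 * m ^ 2)) := by simp
  obtain ⟨F3, hF3⟩ : ∃ F3 : ℤ → ℝ, F3 = fun x => ∑ j ∈ range m, ∑ ρ ∈ P, E ρ (x + (j : ℤ)) :=
    ⟨_, rfl⟩
  have bF3j : ∀ j : ℕ, Bdd (fun x => ∑ ρ ∈ P, E ρ (x + (j : ℤ))) := fun j =>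
    bdd_sum _ (fun ρ => bdd_shift (bE ρ) _)
  have bF3 : Bdd F3 := by
    rw [hF3]
    exact bdd_sum _ bF3j
  have LF3 : L F3 ≤ τ * τ1 ^ 2 / 40 := by
    rw [hF3, L_sum hL _ bF3j]
    calc ∑ j ∈ range m, L (fun x => ∑ ρ ∈ P, E ρ (x + (j : ℤ)))
        ≤ ∑ j ∈ range m, (m * (τ * τ1 ^ 2 / (40 * m ^ 2))) := by
          apply Finset.sum_le_sum
          intro j _
          rw [L_sum hL _ (fun ρ => bdd_shift (bE ρ) _)]
          calc ∑ ρ ∈ P, L (fun x => E ρ (x + (j : ℤ))) ≤ ∑ ρ ∈ P, (τ * τ1 ^ 2 / (40 * m ^ 2)) := by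
                apply Finset.sum_le_sum
                intro ρ hρ
                rw [hL.shift _ (bE ρ)]
                exact LE ρ hρ
            _ = (P.card : ℝ) * (τ * τ1 ^ 2 / (40 * m ^ 2)) := by simp
            _ ≤ m * (τ * τ1 ^ 2 / (40 * m ^ 2)) := by
                apply mul_le_mul_of_nonneg_right _ (by positivity)
                have := Finset.card_le_univ P
                rw [ZMod.card] at this
                exact_mod_cast this
      _ = τ * τ1 ^ 2 / 40 := by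
          rw [Finset.sum_const, card_range, nsmul_eq_mul]
          field_simp
  have LF1 : L (av 1 m g0) = L f := by
    rw [L_av hL bg0 1 m hm, hg0, L_av hL bf m K hKpos]
  have LF2 : L (av 1 m D) ≤ τ * τ2 / 8 := by
    rw [L_av hL bD 1 m hm]
    exact LD
  have bF1 : Bdd (av 1 m g0) := bdd_unit (fun x => av_unit hg001 _ _ _)
  have bF2 : Bdd (av 1 m D) := by
    have h1 : av 1 m D = fun x => ((m : ℝ)⁻¹) * ∑ k ∈ range m, D (x + ((1 : ℕ) : ℤ) * k) := by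
      funext x
      unfold av
      rw [div_eq_mul_inv, mul_comm]
    rw [h1]
    exact bdd_smul _ (bdd_sum _ (fun k => bdd_shift bD _))
  -- choice of the point x
  obtain ⟨x, hx⟩ : ∃ x : ℤ, L f - τ / 2 ≤
      (av 1 m g0 x - τ2⁻¹ * av 1 m D x) - (5 / τ1 ^ 2) * F3 x := by
    by_contra hno
    push Not at hno
    have h1 := hL.mono (fun x => (av 1 m g0 x - τ2⁻¹ * av 1 m D x) - (5 / τ1 ^ 2) * F3 x)
      (fun _ => L f - τ / 2) (bdd_sub (bdd_sub bF1 (bdd_smul _ bF2)) (bdd_smul _ bF3))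
      (bdd_const _) (fun x => (hno x).le)
    rw [L_const hL, L_sub hL (bdd_sub bF1 (bdd_smul _ bF2)) (bdd_smul _ bF3),
      L_sub hL bF1 (bdd_smul _ bF2), hL.smul _ _ bF2, hL.smul _ _ bF3] at h1
    have e1 : τ2⁻¹ * L (av 1 m D) ≤ τ / 8 := by
      rw [inv_mul_le_iff₀ hτ2p]
      linarith
    have e2 : 5 / τ1 ^ 2 * L F3 ≤ τ / 8 := by
      rw [div_mul_eq_mul_div, div_le_iff₀ (by positivity)]
      linarith
    have e3 : L (fun x => av 1 m g0 x) = L f := LF1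
    have e4 : L (fun x => av 1 m D x) = L (av 1 m D) := rfl
    have e5 : L (fun x => F3 x) = L F3 := rfl
    rw [e3, e4, e5] at h1
    linarith
  have hF10 : 0 ≤ av 1 m g0 x ∧ av 1 m g0 x ≤ 1 := av_unit hg001 _ _ _
  have hF20 : 0 ≤ av 1 m D x := by
    unfold av
    exact div_nonneg (Finset.sum_nonneg fun _ _ => hD0 _) (Nat.cast_nonneg _)
  have hF30 : 0 ≤ F3 x := by
    rw [hF3]
    exact Finset.sum_nonneg fun _ _ => Finset.sum_nonneg fun _ _ => hE0 _ _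
  obtain ⟨B0, hB0⟩ : ∃ B0 : Finset ℕ, B0 = (range m).filter
    (fun j : ℕ => τ1 ≤ g0 (x + (j : ℤ)) ∧ D (x + (j : ℤ)) ≤ τ2) := ⟨_, rfl⟩
  refine ⟨B0.image (fun j : ℕ => ((x + (j : ℤ) : ℤ) : ZMod m)), x, ?_, ?_⟩
  · -- avoidance
    intro r hr b hb b' hb' heq
    obtain ⟨j, hj, rfl⟩ := Finset.mem_image.1 hb
    obtain ⟨j', hj', rfl⟩ := Finset.mem_image.1 hb'
    rw [hB0, Finset.mem_filter, Finset.mem_range] at hj hj'
    obtain ⟨r'', hr'', hd⟩ := hU m M hm hM1 (by rw [hM]; exact Nat.dvd_mul_right _ _) r hr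
    have hρ : ((r : ℤ) : ZMod m) ∈ P := by
      rw [hP]
      refine ⟨r'', hr'', ?_⟩
      have := (ZMod.intCast_zmod_eq_zero_iff_dvd (r'' - r) m).2 hd
      push_cast at this
      exact sub_eq_zero.1 this
    obtain ⟨-, hrr2⟩ := hrr _ hρ
    set ρ : ZMod m := ((r : ℤ) : ZMod m) with hρe
    have hd1 : (m : ℤ) ∣ rr ρ - r := by
      rw [← ZMod.intCast_zmod_eq_zero_iff_dvd]
      push_cast
      rw [hrr2, hρe, sub_self]
    have hd2 : (m : ℤ) ∣ h.eval (rr ρ) - h.eval r := hd1.trans (Polynomial.sub_dvd_eval_sub _ _ _)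
    have hd3 : (m : ℤ) ∣ (j' : ℤ) + h.eval (rr ρ) - j := by
      have h5 : (m : ℤ) ∣ (x + (j : ℤ)) - (x + (j' : ℤ)) - h.eval r := by
        rw [← ZMod.intCast_zmod_eq_zero_iff_dvd]
        push_cast at heq ⊢
        rw [sub_eq_zero]
        exact heq
      have h6 := dvd_sub hd2 h5
      have e : h.eval (rr ρ) - h.eval r - ((x + (j : ℤ)) - (x + (j' : ℤ)) - h.eval r) =
        (j' : ℤ) + h.eval (rr ρ) - j := by ring
      rwa [e] at h6
    obtain ⟨c, hc⟩ := hd3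
    have hcabs : |(c : ℝ)| ≤ 1 + |((h.eval (rr ρ) : ℤ) : ℝ)| := by
      have h7 : ((j' : ℝ) + ((h.eval (rr ρ) : ℤ) : ℝ) - j) = (m : ℝ) * c := by exact_mod_cast hc
      have h8 : (m : ℝ) * |(c : ℝ)| = |(j' : ℝ) + ((h.eval (rr ρ) : ℤ) : ℝ) - j| := by
        rw [h7, abs_mul, abs_of_pos hm']
      have hjm : (j : ℝ) ≤ m := by exact_mod_cast hj.1.le
      have hjm' : (j' : ℝ) ≤ m := by exact_mod_cast hj'.1.le
      have hj0 : (0 : ℝ) ≤ j := Nat.cast_nonneg _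
      have hj0' : (0 : ℝ) ≤ j' := Nat.cast_nonneg _
      have hm1 : (1 : ℝ) ≤ m := by exact_mod_cast hm
      have h9 : (m : ℝ) * |(c : ℝ)| ≤ m + |((h.eval (rr ρ) : ℤ) : ℝ)| := by
        rw [h8, abs_le]
        have t1 := neg_abs_le ((h.eval (rr ρ) : ℤ) : ℝ)
        have t2 := le_abs_self ((h.eval (rr ρ) : ℤ) : ℝ)
        constructor <;> linarith
      have h10 : |((h.eval (rr ρ) : ℤ) : ℝ)| ≤ m * |((h.eval (rr ρ) : ℤ) : ℝ)| := by
        have := abs_nonneg ((h.eval (rr ρ) : ℤ) : ℝ)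
        nlinarith
      have h11 : (m : ℝ) * |(c : ℝ)| ≤ m * (1 + |((h.eval (rr ρ) : ℤ) : ℝ)|) := by linarith
      exact le_of_mul_le_mul_left h11 hm'
    have hlow := corr_lower hg01 m I hI1 (x + (j : ℤ)) (x + (j' : ℤ)) c (g0 (x + (j : ℤ)))
      (g0 (x + (j' : ℤ))) (hg001 _) (hg001 _)
    have hEeq : E ρ (x + (j' : ℤ)) = (I : ℝ)⁻¹ * (∑ i ∈ range I,
        g (x + (j : ℤ) + (m : ℤ) * (i + c)) * g (x + (j' : ℤ) + (m : ℤ) * i)) := by
      simp only [hE]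
      congr 1
      apply Finset.sum_congr rfl
      intro i _
      congr 2
      rw [mul_add, ← hc]
      ring
    rw [← hEeq] at hlow
    have hDj : (I : ℝ)⁻¹ * (∑ i ∈ range I, |g (x + (j : ℤ) + (m : ℤ) * i) - g0 (x + (j : ℤ))|) ≤
        τ2 := by
      have := hj.2.2
      rwa [hD] at this
    have hDj' : (I : ℝ)⁻¹ * (∑ i ∈ range I,
        |g (x + (j' : ℤ) + (m : ℤ) * i) - g0 (x + (j' : ℤ))|) ≤ τ2 := by
      have := hj'.2.2
      rwa [hD] at this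
    have hcI : |(c : ℝ)| * (I : ℝ)⁻¹ ≤ τ2 := by
      rw [← div_eq_mul_inv, div_le_iff₀ hI']
      exact hcabs.trans (hI ρ)
    have hprod : τ1 ^ 2 ≤ g0 (x + (j : ℤ)) * g0 (x + (j' : ℤ)) := by
      rw [sq]
      exact mul_le_mul hj.2.1 hj'.2.1 hτ1p.le (hg001 _).1
    have hElow : τ1 ^ 2 / 2 ≤ E ρ (x + (j' : ℤ)) := by
      have : 3 * τ2 = τ1 ^ 2 / 2 := by rw [hτ2e]; ring
      linarith
    have hF3low : E ρ (x + (j' : ℤ)) ≤ F3 x := by
      rw [hF3]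
      calc E ρ (x + (j' : ℤ)) ≤ ∑ ρ ∈ P, E ρ (x + (j' : ℤ)) :=
            Finset.single_le_sum (f := fun ρ => E ρ (x + (j' : ℤ))) (fun i _ => hE0 _ _) hρ
        _ ≤ _ := Finset.single_le_sum (f := fun j' : ℕ => ∑ ρ ∈ P, E ρ (x + (j' : ℤ)))
            (fun i _ => Finset.sum_nonneg fun _ _ => hE0 _ _) (Finset.mem_range.2 hj'.1)
    have hC3 : 5 / 2 ≤ 5 / τ1 ^ 2 * F3 x := by
      rw [div_mul_eq_mul_div, le_div_iff₀ (by positivity)]
      linarith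
    have : 0 ≤ τ2⁻¹ * av 1 m D x := by positivity
    linarith [hF10.2]
  · -- mass
    have hmass := mass hf m K hm hKpos x B0 (by rw [hB0]; exact Finset.filter_subset _ _)
      (B0.image (fun j : ℕ => ((x + (j : ℤ) : ℤ) : ZMod m)))
      (fun j hj => Finset.mem_image_of_mem _ hj)
    refine le_trans ?_ hmass
    rw [← hg0]
    have h1 : ∑ j ∈ range m, (g0 (x + (j : ℤ)) - τ1 - τ2⁻¹ * D (x + (j : ℤ))) ≤
        ∑ j ∈ B0, g0 (x + (j : ℤ)) := by
      rw [hB0, Finset.sum_filter]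
      apply Finset.sum_le_sum
      intro j _
      have hDp : 0 ≤ τ2⁻¹ * D (x + (j : ℤ)) := mul_nonneg (by positivity) (hD0 _)
      split_ifs with hif
      · linarith
      · rw [not_and_or, not_le, not_le] at hif
        rcases hif with hif | hif
        · linarith
        · have : 1 ≤ τ2⁻¹ * D (x + (j : ℤ)) := by
            rw [le_inv_mul_iff₀ hτ2p]
            linarith
          linarith [(hg001 (x + (j : ℤ))).2]
    have h2 : (∑ j ∈ range m, (g0 (x + (j : ℤ)) - τ1 - τ2⁻¹ * D (x + (j : ℤ)))) / m =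
        av 1 m g0 x - τ1 - τ2⁻¹ * av 1 m D x := by
      unfold av
      rw [Finset.sum_sub_distrib, Finset.sum_sub_distrib, Finset.sum_const, card_range,
        nsmul_eq_mul, ← Finset.mul_sum]
      simp only [Nat.cast_one, one_mul]
      field_simp
    have h3 : (∑ j ∈ range m, (g0 (x + (j : ℤ)) - τ1 - τ2⁻¹ * D (x + (j : ℤ)))) / m ≤
        (∑ j ∈ B0, g0 (x + (j : ℤ))) / m := div_le_div_of_nonneg_right h1 hm'.le
    rw [h2] at h3
    have : 0 ≤ 5 / τ1 ^ 2 * F3 x := by positivity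
    linarith

end Pool.Agent.R486.PD
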