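import Mathlib
import Pool.Agent.R486.PD.Iface

/-! Definitions of the final statement of MP_e70ed2_nt, window lemma, easy direction. -/

set_option autoImplicit false

namespace Pool.Agent.R486.PD

open Finset Polynomial Filter
open scoped Topology

/-- the densities of the sets of positive integers with no nonzero difference in `X` -/
def densSet (X : Set ℤ) : Set ℝ :=
  {δ | ∃ A : Set ℕ, (∀ a ∈ A, 1 ≤ a) ∧ (∀ a ∈ A, ∀ b ∈ A, (a : ℤ) - b ∈ X → (a : ℤ) - b = 0) ∧
    δ = upperDensity A}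

/-- `μ(X)` -/
noncomputable def mu (X : Set ℤ) : ℝ := sSup (densSet X)

/-- `X_m`, the residues modulo `m` of the nonzero elements of `X` -/
def resid (X : Set ℤ) (m : ℕ) : Set (ZMod m) := {y | ∃ x ∈ X, x ≠ 0 ∧ (x : ZMod m) = y}

/-- `d_X(m)` -/
noncomputable def dX (X : Set ℤ) (m : ℕ) : ℕ :=
  sSup {k | ∃ A : Finset (ZMod m), (∀ a ∈ A, ∀ b ∈ A, a - b ∉ resid X m) ∧ k = #A}

lemma dX_bdd (X : Set ℤ) (m : ℕ) [NeZero m] :
    BddAbove {k | ∃ A : Finset (ZMod m), (∀ a ∈ A, ∀ b ∈ A, a - b ∉ resid X m) ∧ k = #A} := by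
  refine ⟨m, ?_⟩
  rintro k ⟨A, _, rfl⟩
  calc #A ≤ #(Finset.univ : Finset (ZMod m)) := card_le_card (subset_univ _)
    _ = m := by rw [card_univ, ZMod.card]

lemma le_dX {X : Set ℤ} {m : ℕ} [NeZero m] {A : Finset (ZMod m)}
    (hA : ∀ a ∈ A, ∀ b ∈ A, a - b ∉ resid X m) : #A ≤ dX X m :=
  le_csSup (dX_bdd X m) ⟨A, hA, rfl⟩

lemma exists_dX (X : Set ℤ) (m : ℕ) [NeZero m] :
    ∃ A : Finset (ZMod m), (∀ a ∈ A, ∀ b ∈ A, a - b ∉ resid X m) ∧ #A = dX X m := by
  have h := Nat.sSup_mem (s := {k | ∃ A : Finset (ZMod m), (∀ a ∈ A, ∀ b ∈ A, a - b ∉ resid X m) ∧ k = #A})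
    ⟨0, ∅, by simp, by simp⟩ (dX_bdd X m)
  obtain ⟨A, hA, h2⟩ := h
  exact ⟨A, hA, h2.symm⟩

lemma dX_le (X : Set ℤ) (m : ℕ) [NeZero m] : dX X m ≤ m := by
  obtain ⟨A, _, h2⟩ := exists_dX X m
  rw [← h2]
  calc #A ≤ #(Finset.univ : Finset (ZMod m)) := card_le_card (subset_univ _)
    _ = m := by rw [card_univ, ZMod.card]

lemma dXr_le_one (X : Set ℤ) (m : ℕ+) : (dX X m : ℝ) / m ≤ 1 := by
  have hm : (0 : ℝ) < (m : ℕ) := by exact_mod_cast m.pos
  have : NeZero (m : ℕ) := ⟨m.pos.ne'⟩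
  rw [div_le_one hm]
  exact_mod_cast dX_le X m

lemma dXr_bdd (X : Set ℤ) : BddAbove (Set.range fun m : ℕ+ => (dX X m : ℝ) / m) := by
  refine ⟨1, ?_⟩
  rintro _ ⟨m, rfl⟩
  exact dXr_le_one X m

open Classical in
/-- the window lemma -/
lemma window (A : Set ℕ) (X : Set ℤ) (hA : ∀ a ∈ A, ∀ b ∈ A, (a : ℤ) - b ∈ X → (a : ℤ) - b = 0)
    (m K : ℕ) (hm : 1 ≤ m) (hK : 1 ≤ K) (x : ℤ) (B : Finset (ZMod m)) (D : ℕ)
    (hX : ∀ y ∈ X, y ≠ 0 → |y| ≤ D ∨ ∀ b ∈ B, ∀ b' ∈ B, b - b' ≠ (y : ZMod m)) :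
    (∑ n ∈ (Ico x (x + m * K)).filter (fun n : ℤ => (n : ZMod m) ∈ B), indZ A n) - D ≤ dX X (m * K) := by
  have hQ : 0 < m * K := Nat.mul_pos hm hK
  have : NeZero (m * K) := ⟨hQ.ne'⟩
  set S : Finset ℤ := ((Ico x (x + m * K)).filter (fun n : ℤ => (n : ZMod m) ∈ B)).filter
    (fun n => ∃ a ∈ A, (a : ℤ) = n) with hS
  have h1 : (∑ n ∈ (Ico x (x + m * K)).filter (fun n : ℤ => (n : ZMod m) ∈ B), indZ A n) = #S := by
    unfold indZ
    rw [← sum_filter, sum_const, nsmul_eq_mul, mul_one]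
  rw [h1]
  set S' : Finset ℤ := S.filter (fun n => n < x + m * K - D) with hS'
  have h2 : #S ≤ #S' + D := by
    have h3 : S ⊆ S' ∪ Ico (x + m * K - D) (x + m * K) := by
      intro n hn
      rw [mem_union, hS', mem_filter, mem_Ico]
      by_cases h : n < x + m * K - D
      · exact Or.inl ⟨hn, h⟩
      · right
        rw [hS, mem_filter, mem_filter, mem_Ico] at hn
        exact ⟨by omega, hn.1.1.2⟩
    calc #S ≤ #(S' ∪ Ico (x + m * K - D) (x + m * K)) := card_le_card h3
      _ ≤ #S' + #(Ico (x + m * K - D) (x + m * K)) := card_union_le _ _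
      _ = #S' + D := by
        congr 1
        rw [Int.card_Ico]
        have : x + (m : ℤ) * K - (x + m * K - D) = D := by ring
        rw [this, Int.toNat_natCast]
  have hmem : ∀ n ∈ S', x ≤ n ∧ n < x + m * K - D ∧ (n : ZMod m) ∈ B ∧ ∃ a ∈ A, (a : ℤ) = n := by
    intro n hn
    rw [hS', mem_filter, hS, mem_filter, mem_filter, mem_Ico] at hn
    exact ⟨hn.1.1.1.1, hn.2, hn.1.1.2, hn.1.2⟩
  have key : ∀ n ∈ S', ∀ n' ∈ S', ∀ y : ℤ, |y| ≤ D → ((n - n' : ℤ) : ZMod (m * K)) = (y : ZMod (m * K)) → n - n' = y := by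
    intro n hn n' hn' y hy h
    obtain ⟨a1, a2, _, _⟩ := hmem n hn
    obtain ⟨b1, b2, _, _⟩ := hmem n' hn'
    rw [ZMod.intCast_eq_intCast_iff_dvd_sub] at h
    obtain ⟨t, ht⟩ := h
    have habs := abs_le.1 hy
    have ht0 : t = 0 := by
      by_contra hne
      push_cast at ht
      have hQ' : (0 : ℤ) < m * K := by exact_mod_cast hQ
      rcases lt_or_gt_of_ne hne with h | h
      · have : (m : ℤ) * K * t ≤ m * K * (-1) := mul_le_mul_of_nonneg_left (by omega) hQ'.le
        have e1 : (m : ℤ) * K * (-1) = -(m * K) := by ring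
        rw [e1] at this
        omega
      · have : (m : ℤ) * K * 1 ≤ m * K * t := mul_le_mul_of_nonneg_left (by omega) hQ'.le
        rw [mul_one] at this
        omega
    rw [ht0, mul_zero] at ht
    omega
  have hinj : Set.InjOn (fun n : ℤ => (n : ZMod (m * K))) S' := by
    intro n hn n' hn' h
    have h3 : ((n - n' : ℤ) : ZMod (m * K)) = ((0 : ℤ) : ZMod (m * K)) := by
      push_cast
      simp only at h
      rw [h, sub_self]
    have := key n hn n' hn' 0 (by simp) h3
    omega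
  have h4 : #(S'.image (fun n : ℤ => (n : ZMod (m * K)))) = #S' := card_image_of_injOn hinj
  have h5 : #S' ≤ dX X (m * K) := by
    rw [← h4]
    apply le_dX
    intro a ha b hb hab
    rw [mem_image] at ha hb
    obtain ⟨n, hn, rfl⟩ := ha
    obtain ⟨n', hn', rfl⟩ := hb
    obtain ⟨y, hyX, hy0, hy⟩ := hab
    rw [← Int.cast_sub] at hy
    rcases hX y hyX hy0 with h | h
    · have h6 := key n hn n' hn' y h hy.symm
      obtain ⟨_, _, _, a1, ha1, ha2⟩ := hmem n hn
      obtain ⟨_, _, _, b1, hb1, hb2⟩ := hmem n' hn'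
      have h7 := hA a1 ha1 b1 hb1 (by rw [ha2, hb2, h6]; exact hyX)
      rw [ha2, hb2, h6] at h7
      exact hy0 h7
    · obtain ⟨_, _, c1, _⟩ := hmem n hn
      obtain ⟨_, _, c2, _⟩ := hmem n' hn'
      apply h _ c1 _ c2
      have h8 : (((m * K : ℕ) : ℤ)) ∣ (n - n') - y := by
        rw [← ZMod.intCast_eq_intCast_iff_dvd_sub]
        exact hy
      have h9 : ((m : ℕ) : ℤ) ∣ (n - n') - y := dvd_trans (by push_cast; exact dvd_mul_right _ _) h8
      rw [← ZMod.intCast_eq_intCast_iff_dvd_sub] at h9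
      rw [← Int.cast_sub]
      exact h9.symm
  have h6 : (#S : ℝ) ≤ #S' + D := by exact_mod_cast h2
  have h7 : (#S' : ℝ) ≤ dX X (m * K) := by exact_mod_cast h5
  linarith

/-! upper density -/

lemma ud_nonneg (A : Set ℕ) (N : ℕ) [DecidablePred (· ∈ A)] :
    0 ≤ (#((Icc 1 N).filter (fun n => n ∈ A)) : ℝ) / N := by positivity

lemma ud_le_one (A : Set ℕ) (N : ℕ) [DecidablePred (· ∈ A)] :
    (#((Icc 1 N).filter (fun n => n ∈ A)) : ℝ) / N ≤ 1 := by
  have h1 : #((Icc 1 N).filter (fun n => n ∈ A)) ≤ N := by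
    calc _ ≤ #(Icc 1 N) := card_filter_le _ _
      _ = N := by rw [Nat.card_Icc]; omega
  exact div_le_one_of_le₀ (by exact_mod_cast h1) (by positivity)

lemma upperDensity_le_one (A : Set ℕ) : upperDensity A ≤ 1 := by
  classical
  unfold upperDensity
  apply limsup_le_of_le
  · refine IsBoundedUnder.isCoboundedUnder_le ?_
    exact ⟨0, eventually_map.2 (Eventually.of_forall fun N => by positivity)⟩
  · exact Eventually.of_forall fun N => ud_le_one A N

lemma le_upperDensity (A : Set ℕ) (c : ℝ) [DecidablePred (· ∈ A)]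
    (h : ∃ᶠ N : ℕ in atTop, c ≤ (#((Icc 1 N).filter (fun n => n ∈ A)) : ℝ) / N) : c ≤ upperDensity A := by
  unfold upperDensity
  refine le_limsup_of_frequently_le (h.mono fun N hN => ?_) ?_
  · simpa only using hN.trans (le_of_eq (by congr))
  · refine ⟨1, eventually_map.2 (Eventually.of_forall fun N => ?_)⟩
    exact (le_of_eq (by congr)).trans (ud_le_one A N)

lemma upperDensity_nonneg (A : Set ℕ) : 0 ≤ upperDensity A := by
  classical
  exact le_upperDensity A 0 (Frequently.of_forall fun N => ud_nonneg A N)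

lemma exists_of_lt_upperDensity (A : Set ℕ) (c : ℝ) [DecidablePred (· ∈ A)] (h : c < upperDensity A) :
    ∃ᶠ N : ℕ in atTop, c < (#((Icc 1 N).filter (fun n => n ∈ A)) : ℝ) / N := by
  unfold upperDensity at h
  have h2 := frequently_lt_of_lt_limsup (by
    refine IsBoundedUnder.isCoboundedUnder_le ?_
    exact ⟨0, eventually_map.2 (Eventually.of_forall fun N => by positivity)⟩) h
  refine h2.mono fun N hN => lt_of_lt_of_le hN (le_of_eq (by congr))

lemma densSet_bdd (X : Set ℤ) : BddAbove (densSet X) := by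
  refine ⟨1, ?_⟩
  rintro _ ⟨A, _, _, rfl⟩
  exact upperDensity_le_one A

lemma densSet_nonempty (X : Set ℤ) : (densSet X).Nonempty :=
  ⟨upperDensity ∅, ∅, by simp, by simp, rfl⟩

lemma easy (X : Set ℤ) (m : ℕ+) : (dX X m : ℝ) / m ≤ mu X := by
  classical
  have hm : 0 < (m : ℕ) := m.pos
  generalize (m : ℕ) = n at hm ⊢
  have : NeZero n := ⟨hm.ne'⟩
  obtain ⟨S, hS, hc⟩ := exists_dX X n
  set A : Set ℕ := {a | 1 ≤ a ∧ (a : ZMod n) ∈ S} with hA
  have hmem : upperDensity A ∈ densSet X := by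
    refine ⟨A, fun a ha => ha.1, ?_, rfl⟩
    intro a ha b hb hab
    by_contra hne
    apply hS _ ha.2 _ hb.2
    exact ⟨(a : ℤ) - b, hab, hne, by push_cast; rfl⟩
  refine le_trans ?_ (le_csSup (densSet_bdd X) hmem)
  apply le_upperDensity
  rw [frequently_atTop]
  intro N0
  refine ⟨n * (N0 + 1), by nlinarith, ?_⟩
  have hper : Function.Periodic (fun a : ℕ => (a : ZMod n) ∈ S) n := by
    intro a
    simp
  have hcount : ∀ t : ℕ, #((Icc 1 (n * t)).filter (fun a : ℕ => (a : ZMod n) ∈ S)) = t * #S := by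
    intro t
    induction t with
    | zero => simp
    | succ t ih =>
      have h1 : Icc 1 (n * (t + 1)) = Icc 1 (n * t) ∪ Ico (n * t + 1) (n * t + 1 + n) := by
        ext a
        simp only [mem_union, mem_Icc, mem_Ico]
        constructor
        · intro h
          by_cases h' : a ≤ n * t
          · exact Or.inl ⟨h.1, h'⟩
          · right
            have : n * (t + 1) = n * t + n := by ring
            omega
        · have : n * (t + 1) = n * t + n := by ring
          rintro (h | h)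
          · exact ⟨h.1, by omega⟩
          · exact ⟨by omega, by omega⟩
      rw [h1, filter_union, card_union_of_disjoint, ih, Nat.filter_Ico_card_eq_of_periodic _ _ _ hper]
      · have h2 : n.count (fun a : ℕ => (a : ZMod n) ∈ S) = #S := by
          rw [Nat.count_eq_card_filter_range]
          apply card_bij (fun (a : ℕ) _ => (a : ZMod n))
          · intro a ha
            exact (mem_filter.1 ha).2
          · intro a ha b hb hab
            rw [mem_filter, mem_range] at ha hb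
            rw [ZMod.natCast_eq_natCast_iff] at hab
            exact Nat.ModEq.eq_of_lt_of_lt hab ha.1 hb.1
          · intro b hb
            refine ⟨b.val, ?_, ZMod.natCast_zmod_val b⟩
            rw [mem_filter, mem_range]
            exact ⟨ZMod.val_lt b, by rw [ZMod.natCast_zmod_val]; exact hb⟩
        rw [h2]
        ring
      · rw [disjoint_left]
        intro a ha hb
        rw [mem_filter, mem_Icc] at ha
        rw [mem_filter, mem_Ico] at hb
        omega
  have h3 : (Icc 1 (n * (N0 + 1))).filter (fun a => a ∈ A) =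
      (Icc 1 (n * (N0 + 1))).filter (fun a : ℕ => (a : ZMod n) ∈ S) := by
    apply filter_congr
    intro a ha
    rw [mem_Icc] at ha
    simp only [hA, Set.mem_ofPred_eq]
    exact ⟨fun h => h.2, fun h => ⟨ha.1, h⟩⟩
  rw [h3, hcount, ← hc]
  push_cast
  have hn0 : (0 : ℝ) < n := by exact_mod_cast hm
  rw [le_div_iff₀ (by positivity)]
  have : (#S : ℝ) / n * (n * (N0 + 1)) = (N0 + 1) * #S := by
    field_simp
  rw [this]


end Pool.Agent.R486.PD
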