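import Pool.Agent.R486.PD.Iface

/-!
# P1 of the project MP_e70ed2_nt: the abstract ergodic theorem (helper842)
-/

set_option autoImplicit false

namespace Pool.Agent.R486.PD

open Finset Polynomial Filter
open scoped Topology RealInnerProductSpace

namespace ErgA

section vdc

variable {H : Type*} [SeminormedAddCommGroup H] [InnerProductSpace ℝ H]

omit [InnerProductSpace ℝ H] in
lemma sum_shift_le (u : ℕ → H) (B : ℝ) (hu : ∀ n, ‖u n‖ ≤ B) (N l : ℕ) :
    ‖∑ n ∈ range N, u (n + l) - ∑ n ∈ range N, u n‖ ≤ 2 * l * B := by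
  induction l with
  | zero => simp
  | succ l ih =>
    have h1 : ∑ n ∈ range N, u (n + (l + 1)) - ∑ n ∈ range N, u (n + l) = u (N + l) - u l := by
      have h2 := Finset.sum_range_sub (fun n => u (n + l)) N
      simp only [zero_add] at h2
      rw [← h2, ← Finset.sum_sub_distrib]
      refine Finset.sum_congr rfl fun n _ => ?_
      rw [show n + (l + 1) = n + 1 + l by ring]
    have h3 : ∑ n ∈ range N, u (n + (l + 1)) - ∑ n ∈ range N, u n =
        (u (N + l) - u l) + (∑ n ∈ range N, u (n + l) - ∑ n ∈ range N, u n) := by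
      rw [← h1]; abel
    rw [h3]
    refine (norm_add_le _ _).trans ?_
    have h4 : ‖u (N + l) - u l‖ ≤ B + B :=
      (norm_sub_le _ _).trans (add_le_add (hu _) (hu _))
    push_cast
    linarith

/-- van der Corput's inequality, in the limit. -/
theorem vdc (u : ℕ → H) (B : ℝ) (hu : ∀ n, ‖u n‖ ≤ B)
    (h : ∀ l l' : ℕ, l ≠ l' →
      Tendsto (fun N : ℕ => (∑ n ∈ range N, ⟪u (n + l), u (n + l')⟫) / (N : ℝ)) atTop (𝓝 0)) :
    Tendsto (fun N : ℕ => ‖(N : ℝ)⁻¹ • ∑ n ∈ range N, u n‖) atTop (𝓝 0) := by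
  have hB : 0 ≤ B := (norm_nonneg _).trans (hu 0)
  rw [Metric.tendsto_nhds]
  intro ε hε
  obtain ⟨L, hL⟩ := exists_nat_gt (4 * (B ^ 2 + 1) / ε ^ 2)
  have hL0 : 0 < (L : ℝ) := lt_of_le_of_lt (by positivity) hL
  have hLe : (L : ℝ) * B ^ 2 + 1 ≤ (L * ε / 2) ^ 2 := by
    rw [div_lt_iff₀ (by positivity)] at hL
    have h1 : (1 : ℝ) ≤ L := by exact_mod_cast (Nat.cast_pos.1 hL0)
    nlinarith [mul_le_mul_of_nonneg_left hL.le hL0.le]
  have key : Tendsto (fun N : ℕ => ∑ l ∈ range L, ∑ l' ∈ range L,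
      (if l = l' then 0 else (∑ n ∈ range N, ⟪u (n + l), u (n + l')⟫) / (N : ℝ))) atTop (𝓝 0) := by
    have h1 := tendsto_finsetSum (range L) (f := fun (l : ℕ) (N : ℕ) => ∑ l' ∈ range L,
      (if l = l' then 0 else (∑ n ∈ range N, ⟪u (n + l), u (n + l')⟫) / (N : ℝ)))
      (a := fun _ => (0 : ℝ)) (x := atTop) (fun l _ => by
        have h2 := tendsto_finsetSum (range L) (f := fun (l' : ℕ) (N : ℕ) =>
          (if l = l' then 0 else (∑ n ∈ range N, ⟪u (n + l), u (n + l')⟫) / (N : ℝ)))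
          (a := fun _ => (0 : ℝ)) (x := atTop) (fun l' _ => by
            by_cases hll : l = l'
            · simp only [if_pos hll]; exact tendsto_const_nhds
            · simp only [if_neg hll]; exact h l l' hll)
        simpa using h2)
    simpa using h1
  have h3 : Tendsto (fun N : ℕ => (2 * L * B) / (N : ℝ)) atTop (𝓝 0) :=
    tendsto_const_div_atTop_nhds_zero_nat _
  filter_upwards [key.eventually (gt_mem_nhds (show (0 : ℝ) < 1 from one_pos)),
    eventually_gt_atTop 0, h3.eventually (gt_mem_nhds (show (0 : ℝ) < ε / 2 by positivity))]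
    with N hN1 hN0 hN2
  have hN : (0 : ℝ) < N := by exact_mod_cast hN0
  rw [dist_zero_right, norm_norm, norm_smul, norm_inv, RCLike.norm_natCast]
  set v : ℕ → H := fun n => ∑ l ∈ range L, u (n + l) with hv
  have e1 : (∑ n ∈ range N, ‖v n‖ ^ 2) / (N : ℝ) ≤ L * B ^ 2 + 1 := by
    have h4 : ∀ n, ‖v n‖ ^ 2 = ∑ l ∈ range L, ∑ l' ∈ range L, ⟪u (n + l), u (n + l')⟫ := by
      intro n
      rw [← real_inner_self_eq_norm_sq, hv]
      simp only [sum_inner, inner_sum]
      exact Finset.sum_comm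
    have h5 : (∑ n ∈ range N, ‖v n‖ ^ 2) / (N : ℝ) = ∑ l ∈ range L, ∑ l' ∈ range L,
        (∑ n ∈ range N, ⟪u (n + l), u (n + l')⟫) / (N : ℝ) := by
      simp only [h4]
      rw [Finset.sum_comm, Finset.sum_div]
      refine Finset.sum_congr rfl fun l _ => ?_
      rw [Finset.sum_comm, Finset.sum_div]
    have h6 : (∑ n ∈ range N, ‖v n‖ ^ 2) / (N : ℝ) ≤ ∑ l ∈ range L, ∑ l' ∈ range L,
        ((if l = l' then B ^ 2 else 0) +
          (if l = l' then 0 else (∑ n ∈ range N, ⟪u (n + l), u (n + l')⟫) / (N : ℝ))) := by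
      rw [h5]
      refine Finset.sum_le_sum fun l _ => Finset.sum_le_sum fun l' _ => ?_
      by_cases hll : l = l'
      · subst hll
        rw [if_pos rfl, if_pos rfl, add_zero, div_le_iff₀ hN]
        calc ∑ n ∈ range N, ⟪u (n + l), u (n + l)⟫ ≤ ∑ n ∈ range N, B ^ 2 := by
              refine Finset.sum_le_sum fun n _ => ?_
              rw [real_inner_self_eq_norm_sq]
              exact pow_le_pow_left₀ (norm_nonneg _) (hu _) 2
          _ = B ^ 2 * N := by rw [Finset.sum_const, Finset.card_range, nsmul_eq_mul, mul_comm]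
      · rw [if_neg hll, if_neg hll, zero_add]
    refine h6.trans ?_
    simp only [Finset.sum_add_distrib]
    have h7 : ∑ l ∈ range L, ∑ l' ∈ range L, (if l = l' then B ^ 2 else 0) = L * B ^ 2 := by
      have : ∀ l ∈ range L, ∑ l' ∈ range L, (if l = l' then B ^ 2 else 0) = B ^ 2 := by
        intro l hl
        rw [Finset.sum_ite_eq, if_pos hl]
      rw [Finset.sum_congr rfl this, Finset.sum_const, Finset.card_range, nsmul_eq_mul]
    rw [h7]
    linarith
  have e2 : (∑ n ∈ range N, ‖v n‖) ^ 2 ≤ N * ∑ n ∈ range N, ‖v n‖ ^ 2 := by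
    have := sq_sum_le_card_mul_sum_sq (s := range N) (f := fun n => ‖v n‖)
    rwa [Finset.card_range] at this
  have e3 : L * ‖∑ n ∈ range N, u n‖ ≤ ∑ n ∈ range N, ‖v n‖ + L * (2 * L * B) := by
    have h4 : (L : ℝ) • ∑ n ∈ range N, u n = ∑ n ∈ range N, v n -
        ∑ l ∈ range L, (∑ n ∈ range N, u (n + l) - ∑ n ∈ range N, u n) := by
      rw [hv, Finset.sum_comm, Finset.sum_sub_distrib, sub_sub_cancel, Finset.sum_const,
        Finset.card_range, Nat.cast_smul_eq_nsmul]
    have h5 : L * ‖∑ n ∈ range N, u n‖ = ‖(L : ℝ) • ∑ n ∈ range N, u n‖ := by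
      rw [norm_smul, RCLike.norm_natCast]
    rw [h5, h4]
    refine (norm_sub_le _ _).trans (add_le_add (norm_sum_le _ _) ?_)
    refine (norm_sum_le _ _).trans ?_
    calc ∑ l ∈ range L, ‖∑ n ∈ range N, u (n + l) - ∑ n ∈ range N, u n‖
        ≤ ∑ l ∈ range L, 2 * L * B := by
          refine Finset.sum_le_sum fun l hl => (sum_shift_le u B hu N l).trans ?_
          have : (l : ℝ) ≤ L := by exact_mod_cast (Finset.mem_range.1 hl).le
          gcongr
      _ = L * (2 * L * B) := by rw [Finset.sum_const, Finset.card_range, nsmul_eq_mul]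
  set A : ℝ := (∑ n ∈ range N, ‖v n‖) / N with hA
  have hA0 : 0 ≤ A := by positivity
  have hA1 : A ^ 2 ≤ L * B ^ 2 + 1 := by
    rw [hA, div_pow]
    refine le_trans ?_ e1
    rw [div_le_div_iff₀ (by positivity) hN]
    nlinarith
  have hA2 : A ≤ L * ε / 2 := abs_le_of_sq_le_sq' (hA1.trans hLe) (by positivity) |>.2
  have hA3 : ∑ n ∈ range N, ‖v n‖ = A * N := by rw [hA]; field_simp
  rw [hA3] at e3
  rw [div_lt_iff₀ hN] at hN2
  rw [inv_mul_lt_iff₀ hN]
  nlinarith

end vdc

section zp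

variable {H : Type} [SeminormedAddCommGroup H] [InnerProductSpace ℝ H] (T : H ≃ₗᵢ[ℝ] H)

lemma zadd (a b : ℤ) (x : H) : (T ^ (a + b)) x = (T ^ a) ((T ^ b) x) := by
  rw [zpow_add]; rfl

lemma zinner (a b : ℤ) (x y : H) : ⟪(T ^ a) x, (T ^ b) y⟫ = ⟪(T ^ (a - b)) x, y⟫ := by
  have : (T ^ a) x = (T ^ b) ((T ^ (a - b)) x) := by
    rw [← zadd]; congr 2; ring
  rw [this, LinearIsometryEquiv.inner_map_map]

lemma zfix {q : ℤ} {v : H} (h : (T ^ q) v = v) (c : ℤ) : (T ^ (q * c)) v = v := by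
  have h1 : ∀ c : ℕ, (T ^ (q * (c : ℤ))) v = v := by
    intro c
    induction c with
    | zero => simp
    | succ c ih =>
      have : q * ((c + 1 : ℕ) : ℤ) = q * c + q := by push_cast; ring
      rw [this, zadd, h, ih]
  obtain ⟨n, rfl | rfl⟩ := c.eq_nat_or_neg
  · exact h1 n
  · have h2 := h1 n
    conv_lhs => rw [← h2]
    rw [← zadd]
    have : q * -(n : ℤ) + q * n = 0 := by ring
    rw [this]
    simp

lemma zfix_dvd {q n : ℤ} {v : H} (h : (T ^ q) v = v) (hn : q ∣ n) : (T ^ n) v = v := by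
  obtain ⟨c, rfl⟩ := hn
  exact zfix T h c

/-- Averages along polynomials tend to zero as soon as the averages along multiples of each `q` do. -/
theorem poly_avg (r : H)
    (hr : ∀ q : ℕ, 1 ≤ q → Tendsto (fun K : ℕ => ‖avV T q K r‖) atTop (𝓝 0)) :
    ∀ d : ℕ, ∀ P : ℤ[X], P.natDegree = d → 1 ≤ d →
      Tendsto (fun N : ℕ => ‖(N : ℝ)⁻¹ • ∑ k ∈ range N, (T ^ (P.eval (k : ℤ))) r‖) atTop (𝓝 0) := by
  intro d
  induction d using Nat.strong_induction_on with
  | _ d ih =>
  intro P hP hd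
  by_cases hd1 : d = 1
  · obtain ⟨a, b, hab⟩ := exists_eq_X_add_C_of_natDegree_le_one (show P.natDegree ≤ 1 by omega)
    have ha : a ≠ 0 := by
      rintro rfl
      rw [hab] at hP
      simp at hP
      omega
    have hev : ∀ k : ℕ, P.eval (k : ℤ) = a * k + b := by intro k; rw [hab]; simp
    obtain ⟨q, hq⟩ : ∃ q : ℕ, a = q ∨ a = -q := a.eq_nat_or_neg
    have hq1 : 1 ≤ q := by
      rcases Nat.eq_zero_or_pos q with h0 | h0
      · exfalso; apply ha; rcases hq with h | h <;> simp [h, h0]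
      · exact h0
    refine (hr q hq1).congr fun N => ?_
    rcases hq with hq | hq
    · have : (N : ℝ)⁻¹ • ∑ k ∈ range N, (T ^ (P.eval (k : ℤ))) r = (T ^ b) (avV T q N r) := by
        rw [avV, map_smul, map_sum]
        congr 1
        refine Finset.sum_congr rfl fun k _ => ?_
        rw [hev, hq, ← zadd]
        congr 2
        ring
      rw [this, LinearIsometryEquiv.norm_map]
    · have : (N : ℝ)⁻¹ • ∑ k ∈ range N, (T ^ (P.eval (k : ℤ))) r =
          (T ^ (b - q * (N - 1))) (avV T q N r) := by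
        rw [avV, map_smul, map_sum]
        congr 1
        rw [← Finset.sum_range_reflect]
        refine Finset.sum_congr rfl fun k hk => ?_
        rw [Finset.mem_range] at hk
        rw [hev, hq, ← zadd]
        congr 2
        rw [Nat.cast_sub (by omega), Nat.cast_sub (by omega)]
        push_cast
        ring
      rw [this, LinearIsometryEquiv.norm_map]
  · refine vdc (fun n => (T ^ (P.eval (n : ℤ))) r) ‖r‖ (fun n => by
      rw [LinearIsometryEquiv.norm_map]) ?_
    intro l l' hll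
    set Q : ℤ[X] := taylor (l : ℤ) P - taylor (l' : ℤ) P with hQ
    have hQe : ∀ x : ℤ, Q.eval x = P.eval (x + l) - P.eval (x + l') := by
      intro x; rw [hQ, eval_sub, taylor_eval, taylor_eval]
    have hP0 : P ≠ 0 := by rintro rfl; simp at hP; omega
    have hQlt : Q.natDegree < d := by
      by_cases hQ0 : Q = 0
      · rw [hQ0]; simp; omega
      · rw [← hP, ← natDegree_taylor P (l : ℤ)]
        refine natDegree_lt_natDegree hQ0 ?_
        refine degree_sub_lt_left ?_ ?_ ?_
        · rw [degree_taylor, degree_taylor]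
        · intro h0
          apply hP0
          exact (taylor_injective _) (by rw [h0, map_zero])
        · rw [leadingCoeff_taylor, leadingCoeff_taylor]
    have hQ1 : 1 ≤ Q.natDegree := by
      by_contra hcon
      have h0 : Q.natDegree = 0 := by omega
      have h1 : ∀ x : ℤ, (derivative P).eval (x + l) = (derivative P).eval (x + l') := by
        intro x
        have h2 : derivative Q = 0 := derivative_of_natDegree_zero h0
        have h3 : (derivative Q).eval x = 0 := by rw [h2, eval_zero]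
        rw [hQ, derivative_sub, eval_sub] at h3
        have h4 : ∀ c : ℤ, (derivative (taylor c P)).eval x = (derivative P).eval (x + c) := by
          intro c
          rw [taylor_apply, derivative_comp]
          simp
        rw [h4, h4] at h3
        linarith
      set t : ℤ := (l : ℤ) - l' with ht
      have ht0 : t ≠ 0 := by
        rw [ht]; intro h; apply hll; omega
      have h2 : ∀ x : ℤ, (derivative P).eval (x + t) = (derivative P).eval x := by
        intro x
        have := h1 (x - l')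
        rw [sub_add_cancel] at this
        rw [← this]
        congr 1
        rw [ht]; ring
      have h3 : ∀ k : ℕ, (derivative P).eval (k * t) = (derivative P).eval 0 := by
        intro k
        induction k with
        | zero => simp
        | succ k ihk =>
          have : ((k + 1 : ℕ) : ℤ) * t = k * t + t := by push_cast; ring
          rw [this, h2, ihk]
      have h4 : derivative P = C ((derivative P).eval 0) := by
        refine eq_of_infinite_eval_eq _ _ ?_
        refine (Set.infinite_range_of_injective (f := fun k : ℕ => (k : ℤ) * t) ?_).mono ?_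
        · intro k k' hk
          have := mul_right_cancel₀ ht0 hk
          exact_mod_cast this
        · rintro _ ⟨k, rfl⟩
          show eval _ _ = eval _ _
          rw [h3, eval_C]
      have h5 : (derivative P).natDegree = 0 := by rw [h4, natDegree_C]
      rw [natDegree_derivative, hP] at h5
      omega
    have h6 := ih Q.natDegree hQlt Q rfl hQ1
    have h7 : ∀ N : ℕ, (∑ n ∈ range N, ⟪(T ^ (P.eval ((n + l : ℕ) : ℤ))) r,
        (T ^ (P.eval ((n + l' : ℕ) : ℤ))) r⟫) / (N : ℝ) =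
        ⟪(N : ℝ)⁻¹ • ∑ k ∈ range N, (T ^ (Q.eval (k : ℤ))) r, r⟫ := by
      intro N
      rw [real_inner_smul_left, sum_inner, div_eq_inv_mul]
      congr 1
      refine Finset.sum_congr rfl fun n _ => ?_
      rw [zinner, hQe]
      push_cast
      rfl
    simp only [h7]
    refine squeeze_zero_norm (a := fun N : ℕ =>
      ‖(N : ℝ)⁻¹ • ∑ k ∈ range N, (T ^ (Q.eval (k : ℤ))) r‖ * ‖r‖)
      (fun N => norm_inner_le_norm _ _) ?_
    simpa using h6.mul_const ‖r‖

end zp

section avlin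

variable {H : Type} [SeminormedAddCommGroup H] [InnerProductSpace ℝ H] (T : H ≃ₗᵢ[ℝ] H)

lemma avV_add (M K : ℕ) (x y : H) : avV T M K (x + y) = avV T M K x + avV T M K y := by
  simp only [avV, map_add, Finset.sum_add_distrib, smul_add]

lemma avV_norm (M K : ℕ) (x : H) : ‖avV T M K x‖ ≤ ‖x‖ := by
  rw [avV, norm_smul, norm_inv, RCLike.norm_natCast]
  rcases Nat.eq_zero_or_pos K with h | h
  · subst h; simp
  · have hK : (0 : ℝ) < K := by exact_mod_cast h
    rw [inv_mul_le_iff₀ hK]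
    refine (norm_sum_le _ _).trans ?_
    simp only [LinearIsometryEquiv.norm_map]
    rw [Finset.sum_const, Finset.card_range, nsmul_eq_mul]

lemma avV_fix {m : ℕ} {v : H} (hv : (T ^ (m : ℤ)) v = v) {M K : ℕ} (hM : m ∣ M) (hK : 1 ≤ K) :
    avV T M K v = v := by
  have hK' : (K : ℝ) ≠ 0 := by positivity
  have h1 : ∀ k ∈ range K, (T ^ ((M : ℤ) * k)) v = v := fun k _ =>
    zfix_dvd T hv ((Int.natCast_dvd_natCast.2 hM).mul_right _)
  rw [avV, Finset.sum_congr rfl h1, Finset.sum_const, Finset.card_range, ← Nat.cast_smul_eq_nsmul ℝ,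
    smul_smul, inv_mul_cancel₀ hK', one_smul]

lemma inner_close (x y : H) (n : ℤ) (δ C : ℝ) (h1 : ‖x - y‖ ≤ δ) (h2 : ‖x‖ + ‖y‖ ≤ C) :
    |⟪(T ^ n) x, x⟫ - ⟪(T ^ n) y, y⟫| ≤ δ * C := by
  have h3 : ⟪(T ^ n) x, x⟫ - ⟪(T ^ n) y, y⟫ = ⟪(T ^ n) (x - y), x⟫ + ⟪(T ^ n) y, x - y⟫ := by
    rw [map_sub, inner_sub_left, inner_sub_right]; ring
  rw [h3]
  refine (abs_add_le _ _).trans ?_
  have h4 := abs_real_inner_le_norm ((T ^ n) (x - y)) x
  have h5 := abs_real_inner_le_norm ((T ^ n) y) (x - y)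
  rw [LinearIsometryEquiv.norm_map] at h4 h5
  have h6 := norm_nonneg (x - y)
  have h7 := norm_nonneg x
  have h8 := norm_nonneg y
  nlinarith

end avlin

section complete

variable {H : Type} [NormedAddCommGroup H] [InnerProductSpace ℝ H] (T : H ≃ₗᵢ[ℝ] H)

lemma avV_perp [CompleteSpace H] (q : ℕ) (r : H)
    (hr : ∀ v, (T ^ (q : ℤ)) v = v → ⟪v, r⟫ = 0) :
    Tendsto (fun K : ℕ => ‖avV T q K r‖) atTop (𝓝 0) := by
  set A : H →L[ℝ] H := ((T ^ (q : ℤ)).toContinuousLinearEquiv : H →L[ℝ] H) with hA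
  have hAx : ∀ x, A x = (T ^ (q : ℤ)) x := fun x => rfl
  have hA1 : ‖A‖ ≤ 1 := A.opNorm_le_bound zero_le_one
    (fun x => by rw [hAx, LinearIsometryEquiv.norm_map, one_mul])
  have h1 := A.tendsto_birkhoffAverage_orthogonalProjection hA1 r
  have h2 : (A.eqLocus (1 : H →L[ℝ] H)).orthogonalProjectionOnto r = 0 := by
    rw [Submodule.orthogonalProjectionOnto_eq_zero_iff, Submodule.mem_orthogonal]
    intro u hu
    refine hr u ?_
    have : A u = (1 : H →L[ℝ] H) u := hu
    rwa [hAx] at this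
  rw [h2] at h1
  have h3 : ∀ k : ℕ, A^[k] r = (T ^ ((q : ℤ) * k)) r := by
    intro k
    induction k with
    | zero => simp
    | succ k ih =>
      rw [Function.iterate_succ_apply', ih, hAx, ← zadd]
      congr 2
      push_cast; ring
  have h4 : ∀ K, birkhoffAverage ℝ A _root_.id K r = avV T q K r := by
    intro K
    rw [birkhoffAverage, birkhoffSum, avV]
    congr 1
    exact Finset.sum_congr rfl fun k _ => h3 k
  have h5 := h1.norm
  simp only [h4, Submodule.coe_zero, norm_zero] at h5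
  exact h5

/-- vectors fixed by some `T ^ q` -/
def G : Submodule ℝ H where
  carrier := {x | ∃ q : ℕ, 1 ≤ q ∧ (T ^ (q : ℤ)) x = x}
  zero_mem' := ⟨1, le_rfl, map_zero _⟩
  add_mem' := by
    rintro x y ⟨q, hq, hx⟩ ⟨q', hq', hy⟩
    refine ⟨q * q', Nat.mul_pos hq hq', ?_⟩
    rw [map_add, zfix_dvd T hx ⟨q', by push_cast; ring⟩, zfix_dvd T hy ⟨q, by push_cast; ring⟩]
  smul_mem' := by
    rintro c x ⟨q, hq, hx⟩
    exact ⟨q, hq, by rw [map_smul, hx]⟩

lemma mem_G {x : H} : x ∈ G T ↔ ∃ q : ℕ, 1 ≤ q ∧ (T ^ (q : ℤ)) x = x := Iff.rfl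

lemma G_inv (n : ℤ) {x : H} (hx : x ∈ G T) : (T ^ n) x ∈ G T := by
  obtain ⟨q, hq, hx⟩ := (mem_G T).1 hx
  refine (mem_G T).2 ⟨q, hq, ?_⟩
  rw [← zadd, add_comm, zadd, hx]

lemma cG_inv (n : ℤ) {x : H} (hx : x ∈ (G T).topologicalClosure) :
    (T ^ n) x ∈ (G T).topologicalClosure :=
  map_mem_closure (T ^ n).continuous hx fun _ hy => G_inv T n hy

theorem main_complete [CompleteSpace H] (f : H) (η : ℝ) (hη : 0 < η) :
    ∃ m : ℕ, 1 ≤ m ∧ ∀ M : ℕ, 1 ≤ M → m ∣ M →
    ∃ K₀ : ℕ, 1 ≤ K₀ ∧ ∀ K : ℕ, K₀ ≤ K →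
      (∀ K' : ℕ, K₀ ≤ K' → ∀ i : ℕ, ‖(T ^ ((m : ℤ) * i)) (avV T M K f) - avV T m K' f‖ ≤ η) ∧
      (∀ h : ℤ[X], 1 ≤ h.natDegree → ∀ q : ℕ, 1 ≤ q → M ∣ q → ∀ s j : ℤ,
        (M : ℤ) ∣ h.eval s - j → ∀ᶠ N : ℕ in atTop,
          ⟪(T ^ j) (avV T M K f), avV T M K f⟫ - η ≤
            (∑ k ∈ range N, ⟪(T ^ (h.eval (s + q * k))) f, f⟫) / N) := by
  obtain ⟨p, hp, r, hr, hf⟩ := (G T).topologicalClosure.exists_add_mem_mem_orthogonal f
  obtain ⟨δ, hδ0, hδ1, hδ2⟩ : ∃ δ : ℝ, 0 < δ ∧ δ ≤ 1 ∧ δ * (2 * ‖f‖ + 1) ≤ η / 8 := by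
    refine ⟨min 1 (η / (8 * (2 * ‖f‖ + 1))), by positivity, min_le_left _ _, ?_⟩
    have h1 : min 1 (η / (8 * (2 * ‖f‖ + 1))) ≤ η / (8 * (2 * ‖f‖ + 1)) := min_le_right _ _
    have h2 : (0 : ℝ) < 2 * ‖f‖ + 1 := by positivity
    calc min 1 (η / (8 * (2 * ‖f‖ + 1))) * (2 * ‖f‖ + 1)
        ≤ η / (8 * (2 * ‖f‖ + 1)) * (2 * ‖f‖ + 1) := by gcongr
      _ = η / 8 := by field_simp
  have hδ3 : δ ≤ η / 8 := by
    have := norm_nonneg f
    nlinarith
  -- orthogonality
  have hperp : ∀ u ∈ (G T).topologicalClosure, ⟪u, r⟫ = 0 := (Submodule.mem_orthogonal _ _).1 hr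
  have hpf : ‖p‖ ≤ ‖f‖ := by
    have h1 : ‖f‖ * ‖f‖ = ‖p‖ * ‖p‖ + ‖r‖ * ‖r‖ := by
      rw [hf]
      exact norm_add_sq_eq_norm_sq_add_norm_sq_real (hperp p hp)
    have := norm_nonneg f
    have := norm_nonneg r
    by_contra hcon
    push Not at hcon
    nlinarith [norm_nonneg p]
  -- approximation
  obtain ⟨v, hv, hpv⟩ : ∃ v ∈ G T, ‖p - v‖ ≤ δ := by
    obtain ⟨v, hv, h1⟩ := Metric.mem_closure_iff.1 hp δ hδ0
    exact ⟨v, hv, by rw [← dist_eq_norm]; exact h1.le⟩
  have hvf : ‖v‖ ≤ ‖f‖ + 1 := by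
    have h1 : ‖v‖ ≤ ‖p‖ + ‖p - v‖ := by
      have := norm_sub_norm_le v p
      rw [norm_sub_rev] at this
      linarith
    linarith
  obtain ⟨m, hm, hmv⟩ := (mem_G T).1 hv
  refine ⟨m, hm, fun M hM hmM => ?_⟩
  have hr0 : ∀ q : ℕ, 1 ≤ q → Tendsto (fun K : ℕ => ‖avV T q K r‖) atTop (𝓝 0) := fun q hq =>
    avV_perp T q r fun u hu => hperp u (subset_closure ⟨q, hq, hu⟩)
  obtain ⟨K1, hK1⟩ := ((hr0 M hM).eventually (ge_mem_nhds hδ0)).exists_forall_of_atTop
  obtain ⟨K2, hK2⟩ := ((hr0 m hm).eventually (ge_mem_nhds hδ0)).exists_forall_of_atTop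
  have hclose : ∀ q K : ℕ, m ∣ q → 1 ≤ K → ‖avV T q K r‖ ≤ δ → ‖avV T q K f - v‖ ≤ 2 * δ := by
    intro q K hq hK h1
    have h2 : avV T q K f - v = avV T q K (p - v) + avV T q K r := by
      have h3 : f = (p - v) + r + v := by rw [hf]; abel
      conv_lhs => rw [h3, avV_add, avV_add, avV_fix T hmv hq hK]
      abel
    rw [h2]
    have h3 := norm_add_le (avV T q K (p - v)) (avV T q K r)
    have h4 := avV_norm T q K (p - v)
    linarith
  refine ⟨max (max K1 K2) 1, le_max_right _ _, fun K hK => ⟨fun K' hK' i => ?_, ?_⟩⟩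
  · have h1 := hclose M K hmM (by omega) (hK1 K (by omega))
    have h2 := hclose m K' (dvd_refl _) (by omega) (hK2 K' (by omega))
    have h3 : (T ^ ((m : ℤ) * i)) (avV T M K f) - avV T m K' f =
        (T ^ ((m : ℤ) * i)) (avV T M K f - v) - (avV T m K' f - v) := by
      rw [map_sub, zfix T hmv]; abel
    rw [h3]
    refine (norm_sub_le _ _).trans ?_
    rw [LinearIsometryEquiv.norm_map]
    linarith
  · intro h hh q hq hMq s j hj
    set g := avV T M K f with hg
    have hgv : ‖g - v‖ ≤ 2 * δ := hclose M K hmM (by omega) (hK1 K (by omega))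
    set P : ℤ[X] := h.comp (C s + C (q : ℤ) * X) with hP
    have hPe : ∀ k : ℕ, P.eval (k : ℤ) = h.eval (s + q * k) := by
      intro k; rw [hP, eval_comp]; simp
    have hlin : (C s + C (q : ℤ) * X).natDegree = 1 := by
      rw [add_comm]
      exact natDegree_linear (by exact_mod_cast (by omega : q ≠ 0))
    have hPd : 1 ≤ P.natDegree := by rw [hP, natDegree_comp, hlin, mul_one]; exact hh
    have h1 := poly_avg T r hr0 P.natDegree P rfl hPd
    have h2 : Tendsto (fun N : ℕ => (∑ k ∈ range N, ⟪(T ^ (P.eval (k : ℤ))) r, r⟫) / (N : ℝ))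
        atTop (𝓝 0) := by
      have h3 : ∀ N : ℕ, (∑ k ∈ range N, ⟪(T ^ (P.eval (k : ℤ))) r, r⟫) / (N : ℝ) =
          ⟪(N : ℝ)⁻¹ • ∑ k ∈ range N, (T ^ (P.eval (k : ℤ))) r, r⟫ := by
        intro N
        rw [real_inner_smul_left, sum_inner, div_eq_inv_mul]
      simp only [h3]
      refine squeeze_zero_norm (a := fun N : ℕ =>
        ‖(N : ℝ)⁻¹ • ∑ k ∈ range N, (T ^ (P.eval (k : ℤ))) r‖ * ‖r‖)
        (fun N => norm_inner_le_norm _ _) ?_
      simpa using h1.mul_const ‖r‖
    filter_upwards [h2.eventually (lt_mem_nhds (show -(η / 2) < 0 by linarith)),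
      eventually_gt_atTop 0] with N hN1 hN0
    have hN : (0 : ℝ) < N := by exact_mod_cast hN0
    have hterm : ∀ k ∈ range N, ⟪(T ^ j) g, g⟫ - η / 2 + ⟪(T ^ (P.eval (k : ℤ))) r, r⟫ ≤
        ⟪(T ^ (h.eval (s + q * k))) f, f⟫ := by
      intro k _
      rw [← hPe]
      set n := P.eval (k : ℤ) with hn
      have c1 : ⟪(T ^ n) f, f⟫ = ⟪(T ^ n) p, p⟫ + ⟪(T ^ n) r, r⟫ := by
        have c2 : ⟪(T ^ n) p, r⟫ = 0 := hperp _ (cG_inv T n hp)
        have c3 : ⟪(T ^ n) r, p⟫ = 0 := by
          have : ⟪(T ^ n) r, p⟫ = ⟪p, (T ^ n) r⟫ := real_inner_comm _ _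
          rw [this]
          have c4 : ⟪(T ^ (0 : ℤ)) p, (T ^ n) r⟫ = ⟪(T ^ (0 - n)) p, r⟫ := zinner T 0 n p r
          rw [zpow_zero] at c4
          have c5 : (1 : H ≃ₗᵢ[ℝ] H) p = p := rfl
          rw [c5] at c4
          rw [c4]
          exact hperp _ (cG_inv T _ hp)
        rw [hf, map_add, inner_add_left, inner_add_right, inner_add_right, c2, c3]
        ring
      have c2 := inner_close T p v n δ (2 * ‖f‖ + 1) hpv (by linarith)
      have c3 : (T ^ n) v = (T ^ j) v := by
        have c4 : (M : ℤ) ∣ n - j := by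
          have c5 : (q : ℤ) * k ∣ n - h.eval s := by
            have := h.sub_dvd_eval_sub (s + q * k) s
            rw [add_sub_cancel_left] at this
            rw [hn, hPe]
            exact this
          have c6 : (M : ℤ) ∣ n - h.eval s :=
            ((Int.natCast_dvd_natCast.2 hMq).mul_right _).trans c5
          have := dvd_add c6 hj
          rwa [sub_add_sub_cancel] at this
        have c5 : n = j + (n - j) := by ring
        rw [c5, zadd, zfix_dvd T hmv ((Int.natCast_dvd_natCast.2 hmM).trans c4)]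
      have c4 := inner_close T g v j (2 * δ) (2 * ‖f‖ + 1) hgv (by
        have := avV_norm T M K f
        rw [← hg] at this
        linarith)
      rw [c1]
      rw [c3] at c2
      have c5 := (abs_le.1 c2).1
      have c6 := (abs_le.1 c4).2
      nlinarith
    have hsum := Finset.sum_le_sum hterm
    rw [Finset.sum_add_distrib, Finset.sum_const, Finset.card_range, nsmul_eq_mul] at hsum
    have hd := div_le_div_of_nonneg_right hsum hN.le
    rw [add_div, mul_div_cancel_left₀ _ hN.ne'] at hd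
    linarith

end complete

section compl

open UniformSpace

variable {V : Type} [SeminormedAddCommGroup V] [InnerProductSpace ℝ V] (T : V ≃ₗᵢ[ℝ] V)

lemma compl_norm (x : Completion V) :
    ‖((T.toContinuousLinearEquiv : V →L[ℝ] V).completion) x‖ = ‖x‖ := by
  induction x using Completion.induction_on with
  | hp => exact isClosed_eq (by fun_prop) (by fun_prop)
  | ih a =>
    rw [ContinuousLinearMap.completion_apply_coe, Completion.norm_coe, Completion.norm_coe]
    exact T.norm_map a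

lemma compl_comp (S : V ≃ₗᵢ[ℝ] V) (h : ∀ a, T (S a) = a) (x : Completion V) :
    ((T.toContinuousLinearEquiv : V →L[ℝ] V).completion)
      (((S.toContinuousLinearEquiv : V →L[ℝ] V).completion) x) = x := by
  induction x using Completion.induction_on with
  | hp => exact isClosed_eq (by fun_prop) (by fun_prop)
  | ih a =>
    rw [ContinuousLinearMap.completion_apply_coe, ContinuousLinearMap.completion_apply_coe]
    congr 1
    exact h a

/-- the extension of `T` to the completion -/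
noncomputable def That : Completion V ≃ₗᵢ[ℝ] Completion V where
  toFun := ((T.toContinuousLinearEquiv : V →L[ℝ] V).completion)
  invFun := ((T.symm.toContinuousLinearEquiv : V →L[ℝ] V).completion)
  map_add' x y := map_add _ x y
  map_smul' c x := map_smul _ c x
  left_inv x := compl_comp T.symm T (fun a => T.symm_apply_apply a) x
  right_inv x := compl_comp T T.symm (fun a => T.apply_symm_apply a) x
  norm_map' x := compl_norm T x

lemma That_coe (a : V) : That T (a : Completion V) = ((T a : V) : Completion V) :=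
  ContinuousLinearMap.completion_apply_coe _ a

lemma That_zpow (n : ℤ) (a : V) : ((That T) ^ n) (a : Completion V) = (((T ^ n) a : V) : Completion V) := by
  have h1 : ∀ (n : ℕ) (a : V),
      ((That T) ^ (n : ℤ)) (a : Completion V) = (((T ^ (n : ℤ)) a : V) : Completion V) := by
    intro n
    induction n with
    | zero => intro a; simp
    | succ n ih =>
      intro a
      have h2 : ((n + 1 : ℕ) : ℤ) = (n : ℤ) + 1 := by push_cast; ring
      rw [h2, zadd, zadd, zpow_one, zpow_one, That_coe, ih]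
  obtain ⟨k, rfl | rfl⟩ := n.eq_nat_or_neg
  · exact h1 k a
  · apply ((That T) ^ (k : ℤ)).injective
    rw [h1, ← zadd, ← zadd, add_neg_cancel, zpow_zero, zpow_zero]
    rfl

lemma That_av (M K : ℕ) (a : V) :
    avV (That T) M K (a : Completion V) = ((avV T M K a : V) : Completion V) := by
  have h1 : ∀ x : V, (x : Completion V) = Completion.toComplₗᵢ (𝕜 := ℝ) x := fun x => rfl
  rw [avV, avV, h1 ((K : ℝ)⁻¹ • _), map_smul, map_sum]
  congr 1
  refine Finset.sum_congr rfl fun k _ => ?_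
  rw [That_zpow]
  rfl

end compl

end ErgA

open UniformSpace in
theorem ergAbs : ErgAbs := by
  intro V _ _ T f η hη
  obtain ⟨m, hm, hmain⟩ := ErgA.main_complete (ErgA.That T) (f : Completion V) η hη
  refine ⟨m, hm, fun M hM hmM => ?_⟩
  obtain ⟨K₀, hK₀, h1⟩ := hmain M hM hmM
  refine ⟨K₀, hK₀, fun K hK => ⟨fun K' hK' i => ?_, fun h hh q hq hMq s j hj => ?_⟩⟩
  · have h2 := (h1 K hK).1 K' hK' i
    rw [ErgA.That_av, ErgA.That_av, ErgA.That_zpow, ← Completion.coe_sub, Completion.norm_coe] at h2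
    exact h2
  · have h2 := (h1 K hK).2 h hh q hq hMq s j hj
    simp only [ErgA.That_av, ErgA.That_zpow, Completion.inner_coe] at h2
    exact h2

end Pool.Agent.R486.PD
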