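import Mathlib
import Pool.Agent.R486.PD.Iface

/-!
# P2: the ergodic theorem for a mean, from the abstract one (helper546)
-/

set_option autoImplicit false

namespace Pool.Agent.R486.PD

open Finset Polynomial Filter
open scoped Topology RealInnerProductSpace

/-- the space of bounded functions on the integers -/
def bddS : Submodule ℝ (ℤ → ℝ) where
  carrier := {f | Bdd f}
  add_mem' := by
    rintro f g ⟨C, hC⟩ ⟨D, hD⟩
    exact ⟨C + D, fun x => (abs_add_le _ _).trans (add_le_add (hC x) (hD x))⟩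
  zero_mem' := ⟨0, fun x => by simp⟩
  smul_mem' := by
    rintro c f ⟨C, hC⟩
    refine ⟨|c| * C, fun x => ?_⟩
    rw [Pi.smul_apply, smul_eq_mul, abs_mul]
    exact mul_le_mul_of_nonneg_left (hC x) (abs_nonneg c)

theorem Bdd.mul {f g : ℤ → ℝ} (hf : Bdd f) (hg : Bdd g) : Bdd (fun x => f x * g x) := by
  obtain ⟨C, hC⟩ := hf
  obtain ⟨D, hD⟩ := hg
  refine ⟨C * D, fun x => ?_⟩
  rw [abs_mul]
  exact mul_le_mul (hC x) (hD x) (abs_nonneg _) ((abs_nonneg _).trans (hC x))

/-- type synonym carrying the seminorm of `L` -/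
def BF (L : (ℤ → ℝ) → ℝ) (_ : IsMean L) : Type := bddS

section
variable (L : (ℤ → ℝ) → ℝ) (hL : IsMean L)

instance instACG : AddCommGroup (BF L hL) := inferInstanceAs (AddCommGroup bddS)
instance instMod : Module ℝ (BF L hL) := inferInstanceAs (Module ℝ bddS)

variable {L hL} in
/-- the underlying function -/
def vl (f : BF L hL) : ℤ → ℝ := Subtype.val (p := fun g => g ∈ bddS) f

variable {L hL} in
theorem vl_bdd (f : BF L hL) : Bdd (vl f) := Subtype.prop (p := fun g => g ∈ bddS) f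

variable {L hL} in
theorem vl_ext {f g : BF L hL} (h : ∀ x, vl f x = vl g x) : f = g :=
  Subtype.ext (p := fun g => g ∈ bddS) (funext h)

variable {L hL} in
theorem vl_add (f g : BF L hL) (x : ℤ) : vl (f + g) x = vl f x + vl g x := rfl

variable {L hL} in
theorem vl_smul (c : ℝ) (f : BF L hL) (x : ℤ) : vl (c • f) x = c * vl f x := rfl

/-- the semi inner product -/
@[instance_reducible]
noncomputable def coreBF : PreInnerProductSpace.Core ℝ (BF L hL) where
  inner f g := L (fun x => vl f x * vl g x)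
  conj_inner_symm f g := by
    simp only [conj_trivial]
    congr 1
    funext x
    exact mul_comm _ _
  re_inner_nonneg f := by
    simp only [RCLike.re_to_real]
    have h0 : L (fun _ => (0 : ℝ)) = 0 := by
      have := hL.smul 0 (fun _ => 1) ⟨1, fun x => by simp⟩
      simpa using this
    rw [← h0]
    exact hL.mono _ _ ⟨0, fun x => by simp⟩ ((vl_bdd f).mul (vl_bdd f)) (fun x => mul_self_nonneg _)
  add_left f g h := by
    simp only [vl_add]
    rw [← hL.add _ _ ((vl_bdd f).mul (vl_bdd h)) ((vl_bdd g).mul (vl_bdd h))]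
    congr 1
    funext x
    ring
  smul_left f g r := by
    simp only [vl_smul, conj_trivial]
    rw [← hL.smul _ _ ((vl_bdd f).mul (vl_bdd g))]
    congr 1
    funext x
    ring

noncomputable instance instSN : SeminormedAddCommGroup (BF L hL) :=
  @InnerProductSpace.Core.toSeminormedAddCommGroup ℝ (BF L hL) _ _ _ (coreBF L hL)

noncomputable instance instIP : InnerProductSpace ℝ (BF L hL) :=
  InnerProductSpace.ofCore (coreBF L hL)

theorem inner_def (f g : BF L hL) : ⟪f, g⟫ = L (fun x => vl f x * vl g x) := rfl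

theorem normsq_def (f : BF L hL) : ‖f‖ ^ 2 = L (fun x => vl f x * vl f x) := by
  rw [← real_inner_self_eq_norm_sq, inner_def]

theorem abs_le_norm (f : BF L hL) (η : ℝ) (hη : 0 < η) (h : ‖f‖ ≤ η) : L (fun x => |vl f x|) ≤ η := by
  have h2 : L (fun x => vl f x * vl f x) ≤ η ^ 2 := by
    have := pow_le_pow_left₀ (norm_nonneg _) h 2
    rwa [normsq_def] at this
  have hb : Bdd (fun x => vl f x * vl f x) := (vl_bdd f).mul (vl_bdd f)
  have hb1 : Bdd (fun _ : ℤ => (1 : ℝ)) := ⟨1, fun x => by simp⟩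
  have hb2 : Bdd (fun x => (2 * η)⁻¹ * (vl f x * vl f x)) := (bddS.smul_mem (2 * η)⁻¹ hb : _)
  have hb3 : Bdd (fun _ : ℤ => (η / 2) * (1 : ℝ)) := (bddS.smul_mem (η / 2) hb1 : _)
  have hb4 : Bdd (fun x => |vl f x|) := by
    obtain ⟨C, hC⟩ := vl_bdd f
    exact ⟨C, fun x => by rw [abs_abs]; exact hC x⟩
  have h3 : L (fun x => |vl f x|) ≤ L (fun x => (2 * η)⁻¹ * (vl f x * vl f x) + (η / 2) * 1) := by
    refine hL.mono _ _ hb4 (bddS.add_mem hb2 hb3 : _) (fun x => ?_)
    have e : vl f x * vl f x = |vl f x| ^ 2 := by rw [sq_abs]; ring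
    rw [e]
    have : 0 ≤ (2 * η)⁻¹ * (|vl f x| - η) ^ 2 := by positivity
    have e2 : (2 * η)⁻¹ * |vl f x| ^ 2 + η / 2 * 1 = |vl f x| + (2 * η)⁻¹ * (|vl f x| - η) ^ 2 := by
      field_simp
      ring
    rw [e2]
    linarith
  rw [hL.add _ _ hb2 hb3, hL.smul _ _ hb, hL.smul _ _ hb1, hL.one] at h3
  have h4 : (2 * η)⁻¹ * L (fun x => vl f x * vl f x) ≤ (2 * η)⁻¹ * η ^ 2 :=
    mul_le_mul_of_nonneg_left h2 (by positivity)
  have h5 : (2 * η)⁻¹ * η ^ 2 = η / 2 := by
    field_simp
  linarith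

/-- the shift -/
def shF (t : ℤ) (f : BF L hL) : BF L hL :=
  Subtype.mk (p := fun g => g ∈ bddS) (fun x => vl f (x + t)) (by
    obtain ⟨C, hC⟩ := vl_bdd f
    exact ⟨C, fun x => hC _⟩)

theorem vl_shF (t : ℤ) (f : BF L hL) (x : ℤ) : vl (shF L hL t f) x = vl f (x + t) := rfl

/-- the shift, as a linear isometric equivalence -/
noncomputable def shT (t : ℤ) : BF L hL ≃ₗᵢ[ℝ] BF L hL where
  toFun := shF L hL t
  invFun := shF L hL (-t)
  left_inv f := by
    apply vl_ext
    intro x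
    rw [vl_shF, vl_shF]
    congr 1
    ring
  right_inv f := by
    apply vl_ext
    intro x
    rw [vl_shF, vl_shF]
    congr 1
    ring
  map_add' f g := rfl
  map_smul' c f := rfl
  norm_map' f := by
    have h : ‖shF L hL t f‖ ^ 2 = ‖f‖ ^ 2 := by
      rw [normsq_def, normsq_def]
      exact hL.shift (fun x => vl f x * vl f x) ((vl_bdd f).mul (vl_bdd f)) t
    exact (sq_eq_sq₀ (norm_nonneg _) (norm_nonneg _)).1 h

theorem shT_apply (t : ℤ) (f : BF L hL) (x : ℤ) : vl ((shT L hL t) f) x = vl f (x + t) := rfl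

theorem shT_pow (j : ℕ) (f : BF L hL) (x : ℤ) : vl (((shT L hL 1) ^ j) f) x = vl f (x + j) := by
  induction j generalizing f x with
  | zero => simp
  | succ j ih =>
    rw [pow_succ]
    have e : ((shT L hL 1) ^ j * shT L hL 1) f = ((shT L hL 1) ^ j) ((shT L hL 1) f) := rfl
    rw [e, ih, shT_apply]
    congr 1
    push_cast
    ring

theorem shT_zpow (j : ℤ) (f : BF L hL) (x : ℤ) : vl (((shT L hL 1) ^ j) f) x = vl f (x + j) := by
  obtain ⟨n, rfl | rfl⟩ := j.eq_nat_or_neg
  · rw [zpow_natCast, shT_pow]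
  · have h : ((shT L hL 1) ^ (-(n : ℤ))) f = shT L hL (-(n : ℤ)) f := by
      apply ((shT L hL 1) ^ n).injective
      have e1 : ((shT L hL 1) ^ n) (((shT L hL 1) ^ (-(n : ℤ))) f) = f := by
        have : ((shT L hL 1) ^ n) * ((shT L hL 1) ^ (-(n : ℤ))) = 1 := by
          rw [zpow_neg, zpow_natCast, mul_inv_cancel]
        have h2 := congrArg (fun S : BF L hL ≃ₗᵢ[ℝ] BF L hL => S f) this
        exact h2
      rw [e1]
      apply vl_ext
      intro x
      rw [shT_pow, shT_apply]
      congr 1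
      ring
    rw [h, shT_apply]

theorem coe_sum_apply {ι : Type} (s : Finset ι) (F : ι → BF L hL) (x : ℤ) :
    vl (∑ i ∈ s, F i) x = ∑ i ∈ s, vl (F i) x := by
  classical
  induction s using Finset.induction_on with
  | empty => simp; rfl
  | insert a s ha ih =>
    rw [Finset.sum_insert ha, Finset.sum_insert ha, ← ih, vl_add]

theorem avV_apply (M K : ℕ) (f : BF L hL) (x : ℤ) :
    vl (avV (shT L hL 1) M K f) x = av M K (vl f) x := by
  unfold avV av
  have e : vl ((K : ℝ)⁻¹ • ∑ k ∈ range K, ((shT L hL 1) ^ ((M : ℤ) * k)) f) x =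
      (K : ℝ)⁻¹ * vl (∑ k ∈ range K, ((shT L hL 1) ^ ((M : ℤ) * k)) f) x := rfl
  rw [e, coe_sum_apply, div_eq_inv_mul]
  congr 1
  refine Finset.sum_congr rfl fun k _ => ?_
  rw [shT_zpow]

end

/-- P2: the ergodic theorem for a mean. -/
theorem ergL (h : ErgAbs) : ErgL := by
  intro L hL f hf η hη
  let F : BF L hL := Subtype.mk (p := fun g => g ∈ bddS) f
    ⟨1, fun x => by rw [abs_of_nonneg (hf x).1]; exact (hf x).2⟩
  have hF : vl F = f := rfl
  obtain ⟨m, hm1, hm⟩ := h (BF L hL) (shT L hL 1) F η hη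
  refine ⟨m, hm1, fun M hM1 hmM => ?_⟩
  obtain ⟨K₀, hK₀, hK⟩ := hm M hM1 hmM
  refine ⟨K₀, hK₀, fun K hKK => ?_⟩
  obtain ⟨hA, hB⟩ := hK K hKK
  constructor
  · intro K' hK' i
    have h1 := abs_le_norm L hL _ η hη (hA K' hK' i)
    refine le_trans (le_of_eq ?_) h1
    congr 1
    funext x
    have e : vl ((((shT L hL 1) ^ ((m : ℤ) * i)) (avV (shT L hL 1) M K F) -
        avV (shT L hL 1) m K' F)) x =
        vl (((shT L hL 1) ^ ((m : ℤ) * i)) (avV (shT L hL 1) M K F)) x -
          vl (avV (shT L hL 1) m K' F) x := rfl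
    rw [e, shT_zpow, avV_apply, avV_apply, hF]
  · intro g hg q hq hMq s j hj
    have h1 := hB g hg q hq hMq s j hj
    filter_upwards [h1] with N hN
    have e1 : ⟪((shT L hL 1) ^ j) (avV (shT L hL 1) M K F), avV (shT L hL 1) M K F⟫ =
        cor L (av M K f) j := by
      rw [inner_def]
      unfold cor
      congr 1
      funext x
      rw [shT_zpow, avV_apply, avV_apply, hF]
    have e2 : ∀ t : ℤ, ⟪((shT L hL 1) ^ t) F, F⟫ = cor L f t := by
      intro t
      rw [inner_def]
      unfold cor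
      congr 1
      funext x
      rw [shT_zpow, hF]
    rw [e1] at hN
    simp only [e2] at hN
    exact hN

end Pool.Agent.R486.PD
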