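import Mathlib
import Pool.Agent.R486.PD.Dens

/-! Final assembly for MP_e70ed2_nt. -/

set_option autoImplicit false

namespace Pool.Agent.R486.PD

open Finset Polynomial Filter
open scoped Topology

lemma indZ_nonneg (A : Set ℕ) (x : ℤ) : 0 ≤ indZ A x := by
  unfold indZ; split_ifs <;> norm_num

lemma indZ_le_one (A : Set ℕ) (x : ℤ) : indZ A x ≤ 1 := by
  unfold indZ; split_ifs <;> norm_num

/-- the right hand side -/
noncomputable def rhs (X : Set ℤ) : ℝ := ⨆ m : ℕ+, (dX X m : ℝ) / m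

lemma le_rhs (X : Set ℤ) (m : ℕ) (hm : 1 ≤ m) : (dX X m : ℝ) / m ≤ rhs X :=
  le_ciSup (dXr_bdd X) (⟨m, hm⟩ : ℕ+)

lemma mu_ge (X : Set ℤ) : rhs X ≤ mu X := ciSup_le fun m => easy X m

lemma mu_le (X : Set ℤ) (c : ℝ)
    (h : ∀ A : Set ℕ, (∀ a ∈ A, ∀ b ∈ A, (a : ℤ) - b ∈ X → (a : ℤ) - b = 0) → upperDensity A ≤ c) :
    mu X ≤ c := by
  apply csSup_le (densSet_nonempty X)
  rintro _ ⟨A, _, hA, rfl⟩
  exact h A hA

/-- from windows to moduli -/
lemma windows_to_rhs (X : Set ℤ) (c : ℝ) (m D : ℕ) (hm : 1 ≤ m)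
    (h : ∃ᶠ K : ℕ in atTop, c - (D : ℝ) / (m * K) ≤ (dX X (m * K) : ℝ) / (m * K)) : c ≤ rhs X := by
  apply le_of_forall_pos_le_add
  intro ε hε
  have h1 : ∀ᶠ K : ℕ in atTop, (D : ℝ) / (m * K) ≤ ε := by
    have h2 := (tendsto_natCast_atTop_atTop (R := ℝ)).eventually_ge_atTop (D / ε)
    filter_upwards [h2, eventually_ge_atTop 1] with K hK hK1
    have hmr : (1 : ℝ) ≤ m := by exact_mod_cast hm
    have hKr : (1 : ℝ) ≤ K := by exact_mod_cast hK1
    rw [div_le_iff₀ (by positivity)]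
    rw [div_le_iff₀ hε] at hK
    nlinarith [mul_le_mul_of_nonneg_left hmr (by positivity : (0 : ℝ) ≤ K * ε)]
  obtain ⟨K, hK, hK1, hK2⟩ := (h.and_eventually (h1.and (eventually_ge_atTop 1))).exists
  have h3 := le_rhs X (m * K) (Nat.mul_pos hm hK2)
  push_cast at h3
  linarith

/-- constant polynomials, and any finite forbidden set -/
lemma finite_case (X : Set ℤ) (D : ℕ) (hD : ∀ y ∈ X, |y| ≤ D) : mu X = rhs X := by
  classical
  apply le_antisymm _ (mu_ge X)
  apply mu_le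
  intro A hA
  apply le_of_forall_lt
  intro c hc
  refine lt_of_lt_of_le hc ?_
  apply le_of_forall_lt_imp_le_of_dense
  intro c hc
  apply windows_to_rhs X c 1 D le_rfl
  have h1 := exists_of_lt_upperDensity A c hc
  refine (h1.and_eventually (eventually_ge_atTop 1)).mono ?_
  rintro N ⟨hN, hN1⟩
  have hw := window A X hA 1 N le_rfl hN1 1 Finset.univ D (fun y hy _ => Or.inl (hD y hy))
  have h2 : (∑ n ∈ (Ico (1 : ℤ) (1 + (1 : ℕ) * N)).filter (fun n : ℤ => (n : ZMod 1) ∈ (Finset.univ : Finset (ZMod 1))), indZ A n)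
      = #((Icc 1 N).filter (fun n => n ∈ A)) := by
    unfold indZ
    rw [← sum_filter, sum_const, nsmul_eq_mul, mul_one]
    congr 1
    symm
    apply card_bij (fun (a : ℕ) _ => (a : ℤ))
    · intro a ha
      simp only [mem_filter, mem_Icc] at ha
      simp only [mem_filter, mem_Ico, mem_univ]
      refine ⟨⟨⟨by omega, by push_cast; omega⟩, trivial⟩, a, ha.2, rfl⟩
    · intro a _ b _ hab
      exact_mod_cast hab
    · intro b hb
      simp only [mem_filter, mem_Ico, mem_univ] at hb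
      obtain ⟨⟨⟨h3, h4⟩, _⟩, a, ha, rfl⟩ := hb
      refine ⟨a, ?_, rfl⟩
      simp only [mem_filter, mem_Icc]
      push_cast at h4
      exact ⟨⟨by omega, by omega⟩, ha⟩
  rw [h2] at hw
  have hN0 : (0 : ℝ) < N := by exact_mod_cast hN1
  rw [lt_div_iff₀ hN0] at hN
  push_cast
  rw [one_mul, le_div_iff₀ hN0, sub_mul, div_mul_cancel₀ _ hN0.ne']
  linarith

/-- the hard inequality from the conclusion of `Combi` -/
lemma hard_step (X : Set ℤ) (A : Set ℕ) (hA : ∀ a ∈ A, ∀ b ∈ A, (a : ℤ) - b ∈ X → (a : ℤ) - b = 0)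
    (h : ℤ[X]) (U : ℕ → ℤ → Prop)
    (hXU : ∀ m : ℕ, 1 ≤ m → ∃ D : ℕ, ∀ y ∈ X, y ≠ 0 → |y| ≤ D ∨ ∃ r, U m r ∧ y = h.eval r)
    (hc : ∀ τ : ℝ, 0 < τ → ∃ m : ℕ, 1 ≤ m ∧ ∃ K₀ : ℕ, 1 ≤ K₀ ∧ ∀ K : ℕ, K₀ ≤ K → ∃ (B : Finset (ZMod m)) (x : ℤ),
      (∀ r, U m r → ∀ b ∈ B, ∀ b' ∈ B, b - b' ≠ ((h.eval r : ℤ) : ZMod m)) ∧
      upperDensity A - τ ≤ (∑ n ∈ (Ico x (x + m * K)).filter (fun n : ℤ => (n : ZMod m) ∈ B), indZ A n) / (m * K)) :
    upperDensity A ≤ rhs X := by
  apply le_of_forall_pos_le_add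
  intro τ hτ
  obtain ⟨m, hm, K₀, hK₀, hK⟩ := hc τ hτ
  obtain ⟨D, hD⟩ := hXU m hm
  have h1 : upperDensity A - τ ≤ rhs X := by
    apply windows_to_rhs X _ m D hm
    apply Eventually.frequently
    filter_upwards [eventually_ge_atTop K₀] with K hKK
    obtain ⟨B, x, hB1, hB2⟩ := hK K hKK
    have hw := window A X hA m K hm (hK₀.trans hKK) x B D (by
      intro y hy hy0
      rcases hD y hy hy0 with h2 | ⟨r, hr, rfl⟩
      · exact Or.inl h2
      · exact Or.inr (hB1 r hr))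
    have hmK : (0 : ℝ) < m * K := by
      have : 1 ≤ K := hK₀.trans hKK
      positivity
    have h3 := div_le_div_of_nonneg_right hw hmK.le
    rw [sub_div] at h3
    linarith
  linarith

/-- correlations vanish at the forbidden differences -/
lemma cor_zero (L : (ℤ → ℝ) → ℝ) (hL : IsMean L) (X : Set ℤ) (A : Set ℕ)
    (hA : ∀ a ∈ A, ∀ b ∈ A, (a : ℤ) - b ∈ X → (a : ℤ) - b = 0) (y : ℤ) (hy : y ∈ X) (hy0 : y ≠ 0) :
    cor L (indZ A) y = 0 := by
  have h1 : (fun x : ℤ => indZ A (x + y) * indZ A x) = fun _ => (0 : ℝ) * 1 := by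
    funext x
    rw [zero_mul]
    unfold indZ
    split_ifs with h1 h2 h2
    · exfalso
      obtain ⟨a, ha, ha2⟩ := h1
      obtain ⟨b, hb, hb2⟩ := h2
      have h3 : (a : ℤ) - b = y := by rw [ha2, hb2]; ring
      have h4 := hA a ha b hb (by rw [h3]; exact hy)
      rw [h3] at h4
      exact hy0 h4
    all_goals simp
  unfold cor
  rw [h1, hL.smul 0 (fun _ => 1) ⟨1, fun _ => by simp⟩, zero_mul]

lemma IsMean.const {L : (ℤ → ℝ) → ℝ} (hL : IsMean L) (c : ℝ) : L (fun _ => c) = c := by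
  have h1 := hL.smul c (fun _ => 1) ⟨1, fun _ => by simp⟩
  rw [hL.one, mul_one] at h1
  simpa using h1

lemma IsMean.le_const {L : (ℤ → ℝ) → ℝ} (hL : IsMean L) {f : ℤ → ℝ} (hf : Bdd f) {c : ℝ} (h : ∀ x, f x ≤ c) :
    L f ≤ c := by
  rw [← hL.const c]
  exact hL.mono _ _ hf ⟨|c|, fun _ => le_rfl⟩ h

lemma IsMean.const_le {L : (ℤ → ℝ) → ℝ} (hL : IsMean L) {f : ℤ → ℝ} (hf : Bdd f) {c : ℝ} (h : ∀ x, c ≤ f x) :
    c ≤ L f := by
  rw [← hL.const c]
  exact hL.mono _ _ ⟨|c|, fun _ => le_rfl⟩ hf h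

lemma bdd_of_unit {f : ℤ → ℝ} (h : ∀ x, 0 ≤ f x ∧ f x ≤ 1) : Bdd f :=
  ⟨1, fun x => abs_le.2 ⟨by linarith [(h x).1], (h x).2⟩⟩

lemma cor_unit {L : (ℤ → ℝ) → ℝ} (hL : IsMean L) {f : ℤ → ℝ} (h : ∀ x, 0 ≤ f x ∧ f x ≤ 1) (j : ℤ) :
    0 ≤ cor L f j ∧ cor L f j ≤ 1 := by
  have h1 : ∀ x, 0 ≤ f (x + j) * f x ∧ f (x + j) * f x ≤ 1 := fun x =>
    ⟨mul_nonneg (h _).1 (h _).1, mul_le_one₀ (h _).2 (h _).1 (h _).2⟩
  exact ⟨hL.const_le (bdd_of_unit h1) fun x => (h1 x).1, hL.le_const (bdd_of_unit h1) fun x => (h1 x).2⟩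

/-- the integer values -/
theorem case_int (hE : ErgL) (hM : ExistsMean) (hC : Combi) (h : ℤ[X]) (hd : 1 ≤ h.natDegree) :
    mu (Set.range fun n : ℤ => h.eval n) = rhs (Set.range fun n : ℤ => h.eval n) := by
  apply le_antisymm _ (mu_ge _)
  apply mu_le
  intro A hA
  obtain ⟨L, hL, _, hLA⟩ := hM A
  have hunit : ∀ x, 0 ≤ indZ A x ∧ indZ A x ≤ 1 := fun x => ⟨indZ_nonneg A x, indZ_le_one A x⟩
  apply hard_step _ A hA h (fun _ _ => True)
  · intro m _
    refine ⟨0, ?_⟩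
    rintro y ⟨r, rfl⟩ _
    exact Or.inr ⟨r, trivial, rfl⟩
  · rw [← hLA]
    apply hC L hL _ hunit h (fun _ _ => True)
    · intro m M _ _ _ r _
      exact ⟨r, trivial, by simp⟩
    · intro η hη
      obtain ⟨m, hm, hm2⟩ := hE L hL _ hunit (η / 2) (by positivity)
      refine ⟨m, hm, fun M hM hmM => ?_⟩
      obtain ⟨K₀, hK₀, hK⟩ := hm2 M hM hmM
      refine ⟨K₀, hK₀, fun K hKK => ?_⟩
      obtain ⟨h1, h2⟩ := hK K hKK
      refine ⟨fun K' hK' i => (h1 K' hK' i).trans (by linarith), fun r _ => ?_⟩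
      have h3 := h2 h hd M hM dvd_rfl r (h.eval r) (by simp)
      -- the polynomial k ↦ h (r + M k) has finitely many zeros
      have h4 : ∀ᶠ N : ℕ in atTop, (∑ k ∈ range N, cor L (indZ A) (h.eval (r + M * k))) / N ≤ η / 2 := by
        have hfin : {k : ℕ | h.eval (r + (M : ℤ) * k) = 0}.Finite := by
          have hne : h ≠ 0 := by rintro rfl; simp at hd
          have hf1 : {x : ℤ | h.eval x = 0}.Finite := by
            have := (h.roots.toFinset).finite_toSet
            refine this.subset fun x hx => ?_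
            simp only [Finset.mem_coe, Multiset.mem_toFinset, mem_roots', IsRoot.def]
            exact ⟨hne, hx⟩
          refine Set.Finite.preimage (f := fun k : ℕ => r + (M : ℤ) * k) ?_ hf1
          intro a _ b _ hab
          simp only at hab
          have hM0 : (M : ℤ) ≠ 0 := by exact_mod_cast (by omega : M ≠ 0)
          have : (M : ℤ) * a = M * b := by linarith
          exact_mod_cast mul_left_cancel₀ hM0 this
        have h5 := (tendsto_natCast_atTop_atTop (R := ℝ)).eventually_ge_atTop ((hfin.toFinset.card : ℝ) / (η / 2))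
        filter_upwards [h5, eventually_ge_atTop 1] with N hN hN1
        have hN0 : (0 : ℝ) < N := by exact_mod_cast hN1
        rw [div_le_iff₀ hN0]
        rw [div_le_iff₀ (by positivity)] at hN
        calc ∑ k ∈ range N, cor L (indZ A) (h.eval (r + M * k))
            ≤ ∑ k ∈ range N, (if k ∈ hfin.toFinset then (1 : ℝ) else 0) := by
              apply sum_le_sum
              intro k _
              split_ifs with hk
              · exact (cor_unit hL hunit _).2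
              · apply le_of_eq
                apply cor_zero L hL _ A hA _ ⟨_, rfl⟩
                simpa using hk
          _ ≤ hfin.toFinset.card := by
              rw [sum_ite_mem, sum_const, nsmul_eq_mul, mul_one]
              exact_mod_cast card_le_card inter_subset_right
          _ ≤ η / 2 * N := by linarith
      obtain ⟨N, hN1, hN2⟩ := (h3.and h4).exists
      linarith

/-- the prime values -/
theorem case_prime (hE : ErgL) (hM : ExistsMean) (hC : Combi) (hP : PrimeCorr) (h : ℤ[X]) (hd : 1 ≤ h.natDegree) :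
    mu {x : ℤ | ∃ p : ℕ, p.Prime ∧ x = h.eval (p : ℤ)} = rhs {x : ℤ | ∃ p : ℕ, p.Prime ∧ x = h.eval (p : ℤ)} := by
  apply le_antisymm _ (mu_ge _)
  apply mu_le
  intro A hA
  obtain ⟨L, hL, hpos, hLA⟩ := hM A
  have hunit : ∀ x, 0 ≤ indZ A x ∧ indZ A x ≤ 1 := fun x => ⟨indZ_nonneg A x, indZ_le_one A x⟩
  apply hard_step _ A hA h (fun m r => IsCoprime r (m : ℤ))
  · intro m hm
    refine ⟨∑ p ∈ range (m + 1), (h.eval (p : ℤ)).natAbs, ?_⟩
    rintro y ⟨p, hp, rfl⟩ _
    by_cases hpm : p ≤ m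
    · left
      rw [Int.abs_eq_natAbs]
      exact_mod_cast single_le_sum (f := fun p : ℕ => (h.eval (p : ℤ)).natAbs) (fun _ _ => Nat.zero_le _)
        (mem_range.2 (by omega))
    · right
      refine ⟨p, ?_, rfl⟩
      rw [Nat.isCoprime_iff_coprime]
      rw [hp.coprime_iff_not_dvd]
      intro hdvd
      exact hpm (Nat.le_of_dvd (by omega) hdvd)
  · rw [← hLA]
    apply hC L hL _ hunit h (fun m r => IsCoprime r (m : ℤ))
    · intro m M hm hM' hmM r hr
      have : NeZero m := ⟨by omega⟩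
      have : NeZero M := ⟨by omega⟩
      have hu : IsUnit (r : ZMod m) := by
        rw [ZMod.coe_int_isUnit_iff_isCoprime]
        exact hr.symm
      obtain ⟨u, hu⟩ := hu
      obtain ⟨v, hv⟩ := ZMod.unitsMap_surjective hmM u
      refine ⟨(v : ZMod M).val, ?_, ?_⟩
      · rw [Nat.isCoprime_iff_coprime]
        exact ZMod.val_coe_unit_coprime v
      · rw [← ZMod.intCast_eq_intCast_iff_dvd_sub]
        rw [← hu, ← hv]
        rw [ZMod.unitsMap_def]
        simp
    · intro η hη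
      obtain ⟨m, hm, hm2⟩ := hE L hL _ hunit η hη
      refine ⟨m, hm, fun M hM hmM => ?_⟩
      obtain ⟨K₀, hK₀, hK⟩ := hm2 M hM hmM
      refine ⟨K₀, hK₀, fun K hKK => ?_⟩
      obtain ⟨h1, h2⟩ := hK K hKK
      refine ⟨h1, fun r hr => ?_⟩
      have hM0 : (M : ℤ) ≠ 0 := by exact_mod_cast (by omega : M ≠ 0)
      set b : ℕ := (r % M).toNat with hb
      have hbr : (b : ℤ) = r % M := Int.toNat_of_nonneg (Int.emod_nonneg _ hM0)
      have hbdvd : (M : ℤ) ∣ r - b := by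
        rw [hbr]
        exact Int.dvd_self_sub_emod
      have hbc : b.Coprime M := by
        rw [← Nat.isCoprime_iff_coprime]
        obtain ⟨t, ht⟩ := hbdvd
        have : (b : ℤ) = r + M * (-t) := by linarith
        rw [this]
        exact IsCoprime.add_mul_left_left hr _
      have h3 := hP h hd (cor L (indZ A)) (cor_unit hL hunit) (fun N w E hE => hpos _ hunit h N w E hE)
        (fun p hp hp0 => cor_zero L hL _ A hA _ ⟨p, hp, rfl⟩ hp0) M b hM hbc
        (cor L (av M K (indZ A)) (h.eval r) - η) (by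
          intro W hW hMW s hs
          have h4 := h2 h hd W hW hMW s (h.eval r) (by
            have h5 : (M : ℤ) ∣ (s : ℤ) - r := by
              have h6 : (M : ℤ) ∣ (s : ℤ) - b := (Nat.modEq_iff_dvd.1 hs.symm)
              have : (s : ℤ) - r = (s - b) - (r - b) := by ring
              rw [this]
              exact dvd_sub h6 hbdvd
            exact h5.trans (sub_dvd_eval_sub _ _ _))
          exact h4)
      linarith

theorem main (hE : ErgL) (hM : ExistsMean) (hC : Combi) (hP : PrimeCorr) (h : ℤ[X]) (h0 : h ≠ 0) :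
    mu (Set.range fun n : ℤ => h.eval n) = rhs (Set.range fun n : ℤ => h.eval n) ∧
    mu {x : ℤ | ∃ p : ℕ, p.Prime ∧ x = h.eval (p : ℤ)} = rhs {x : ℤ | ∃ p : ℕ, p.Prime ∧ x = h.eval (p : ℤ)} := by
  by_cases hd : 1 ≤ h.natDegree
  · exact ⟨case_int hE hM hC h hd, case_prime hE hM hC hP h hd⟩
  · have h1 : h.natDegree = 0 := by omega
    rw [natDegree_eq_zero] at h1
    obtain ⟨c, rfl⟩ := h1
    refine ⟨finite_case _ c.natAbs ?_, finite_case _ c.natAbs ?_⟩
    · rintro y ⟨n, rfl⟩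
      simp
    · rintro y ⟨p, _, rfl⟩
      simp

end Pool.Agent.R486.PD
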