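import Mathlib
import Pool.Agent.R486.PD.Defs
import Pool.Agent.H373R2.NB.Weyl

/-! Weyl sums along progressions (helper398, for helper486). -/

set_option autoImplicit false

namespace Pool.Agent.R486.PD

open Finset Polynomial
open Pool.Agent.H807R2.Dav (ee ee_add norm_ee ee_int ee_add_int)

lemma ee_eq_mk (x : ℝ) : Pool.Agent.Helper602.MK.ee x = ee x := by
  unfold Pool.Agent.Helper602.MK.ee ee
  congr 1; ring

/-- large Weyl sums along a progression -/
lemma weyl_prog (h : ℤ[X]) (hd : 1 ≤ h.natDegree) : ∃ c m : ℕ, 1 ≤ c ∧ ∀ W : ℕ, 0 < W → ∀ (b : ℤ)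
    (T : ℕ) (u θ : ℝ), 1 ≤ T → 1 ≤ u →
    (T : ℝ) ≤ u * ‖∑ t ∈ range T, ee (θ * ((h.eval (b + (W : ℤ) * (t : ℤ)) : ℤ) : ℝ))‖ →
    ∃ q : ℕ, 1 ≤ q ∧ (q : ℝ) ≤ c * u ^ m ∧ ∃ a : ℤ,
      |q * (θ * ((h.natDegree.factorial : ℝ) * ((h.leadingCoeff * (W : ℤ) ^ h.natDegree : ℤ) : ℝ))) - a| ≤
        c * u ^ m / (T : ℝ) ^ h.natDegree := by
  obtain ⟨c, m, hc, hI⟩ := Pool.Agent.H373R2.NB.IW_all h.natDegree hd
  refine ⟨c, m, hc, fun W hW b T u θ hT hu hS => ?_⟩
  have hW0 : (W : ℤ) ≠ 0 := by exact_mod_cast hW.ne'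
  have hlin : (C (W : ℤ) * X + C b).natDegree = 1 := natDegree_linear hW0
  have hlc : (C (W : ℤ) * X + C b).leadingCoeff = (W : ℤ) := leadingCoeff_linear hW0
  obtain ⟨f, hf⟩ : ∃ f : ℤ[X], f = h.comp (C (W : ℤ) * X + C b) := ⟨_, rfl⟩
  have hfd : f.natDegree = h.natDegree := by rw [hf, natDegree_comp, hlin, mul_one]
  have hcoef : f.coeff h.natDegree = h.leadingCoeff * (W : ℤ) ^ h.natDegree := by
    have h1 := coeff_comp_degree_mul_degree (p := h) (q := C (W : ℤ) * X + C b) (by rw [hlin]; norm_num)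
    rw [hlin, mul_one, hlc] at h1
    rw [hf, h1]
  have h2 := Pool.Agent.H373R2.NB.Ph_poly h.natDegree f hfd.le θ
  rw [hcoef] at h2
  refine hI T u _ _ hT hu h2 (hS.trans (le_of_eq ?_))
  congr 2
  apply sum_congr rfl
  intro t _
  rw [ee_eq_mk, hf, eval_comp]
  simp only [eval_add, eval_mul, eval_C, eval_X]
  rw [add_comm b]

lemma sum_blocks {β : Type*} [AddCommMonoid β] (F : ℕ → β) (M P : ℕ) :
    ∑ c ∈ range (M * P), F c = ∑ b ∈ range M, ∑ t ∈ range P, F (b + M * t) := by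
  rw [sum_comm]
  induction P with
  | zero => simp
  | succ P ih =>
    rw [Nat.mul_succ, sum_range_add, ih, sum_range_succ]
    congr 1
    apply sum_congr rfl
    intro b _
    rw [add_comm]

lemma sum_Icc_one' {β : Type*} [AddCommMonoid β] (F : ℕ → β) (x : ℕ) :
    ∑ n ∈ Icc 1 x, F n = ∑ n ∈ range x, F (n + 1) := by
  induction x with
  | zero => simp
  | succ x ih => rw [sum_range_succ, ← ih, sum_Icc_succ_top (by omega)]

lemma lamW_nonneg (W n : ℕ) : 0 ≤ lamW W n := by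
  unfold lamW; split_ifs
  · positivity
  · exact le_rfl

lemma lamW_le (W n : ℕ) (hW : 0 < W) : lamW W n ≤ W := by
  unfold lamW; split_ifs
  · apply div_le_self (Nat.cast_nonneg _)
    exact_mod_cast Nat.totient_pos.2 hW
  · exact Nat.cast_nonneg _

lemma lamW_add_mul (W n t : ℕ) : lamW W (n + W * t) = lamW W n := by
  unfold lamW
  simp only [Nat.coprime_add_mul_left_left]

end Pool.Agent.R486.PD
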