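import Mathlib
import Pool.Agent.R486.PD.Phase

/-! Local factors of polynomial phases at large primes (helper398, for helper486). -/

set_option autoImplicit false

namespace Pool.Agent.R486.PD

open Finset Polynomial
open Pool.Agent.H807R2.Dav (ee ee_add norm_ee ee_int ee_add_int)

lemma ee_cong (h : ℤ[X]) {q : ℕ} (hq : 0 < q) (a x y : ℤ) (hxy : (q : ℤ) ∣ x - y) :
    ee ((a : ℝ) / q * ((h.eval x : ℤ) : ℝ)) = ee ((a : ℝ) / q * ((h.eval y : ℤ) : ℝ)) := by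
  obtain ⟨k, hk⟩ := hxy.trans (sub_dvd_eval_sub x y h)
  have h1 : h.eval x = h.eval y + q * k := by linarith
  have hq0 : (q : ℝ) ≠ 0 := by exact_mod_cast hq.ne'
  have h2 : (a : ℝ) / q * ((h.eval x : ℤ) : ℝ) = (a : ℝ) / q * ((h.eval y : ℤ) : ℝ) + ((a * k : ℤ) : ℝ) := by
    rw [h1]; push_cast; field_simp
  rw [h2, ee_add_int]

lemma complete_bound (h : ℤ[X]) (hd : 1 ≤ h.natDegree) (u : ℝ) (hu : 1 ≤ u) : ∃ z : ℕ, ∀ p : ℕ, p.Prime →
    z < p → ∀ q W P : ℕ, 0 < q → 0 < W → 0 < P → p ∣ q → ¬ p ∣ W → q ∣ W * P → ∀ a b : ℤ,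
    IsCoprime a (q : ℤ) →
    ‖∑ t ∈ range P, ee ((a : ℝ) / q * ((h.eval (b + (W : ℤ) * (t : ℤ)) : ℤ) : ℝ))‖ ≤ P / u := by
  obtain ⟨c, m, hc, hI⟩ := weyl_prog h hd
  obtain ⟨E, hE⟩ : ∃ E : ℝ, E = c * u ^ m := ⟨_, rfl⟩
  have hcr : (1 : ℝ) ≤ c := by exact_mod_cast hc
  have hE1 : 1 ≤ E := by rw [hE]; exact one_le_mul_of_one_le_of_one_le hcr (one_le_pow₀ hu)
  have hlc : h.leadingCoeff ≠ 0 := by
    intro h0
    rw [leadingCoeff_eq_zero] at h0
    rw [h0] at hd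
    simp at hd
  refine ⟨max ⌈E⌉₊ (max h.natDegree h.leadingCoeff.natAbs), fun p hp hz q W P hq hW hP hpq hpW hqWP a b hcop => ?_⟩
  by_contra hcon
  push Not at hcon
  have hz1 : ⌈E⌉₊ < p := (le_max_left _ _).trans_lt hz
  have hz2 : h.natDegree < p := ((le_max_left _ _).trans (le_max_right _ _)).trans_lt hz
  have hz3 : h.leadingCoeff.natAbs < p := ((le_max_right _ _).trans (le_max_right _ _)).trans_lt hz
  obtain ⟨S, hS⟩ : ∃ S : ℂ, S = ∑ t ∈ range P, ee ((a : ℝ) / q * ((h.eval (b + (W : ℤ) * (t : ℤ)) : ℤ) : ℝ)) := ⟨_, rfl⟩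
  rw [← hS] at hcon
  obtain ⟨R, hR⟩ : ∃ R : ℕ, R = ⌊(q : ℝ) * E⌋₊ + 1 := ⟨_, rfl⟩
  have hR1 : 1 ≤ R := by omega
  have hqE : (q : ℝ) * E < R := by rw [hR]; push_cast; exact Nat.lt_floor_add_one _
  have hsum : ∑ t ∈ range (P * R), ee ((a : ℝ) / q * ((h.eval (b + (W : ℤ) * (t : ℤ)) : ℤ) : ℝ)) = R * S := by
    rw [sum_blocks, hS, mul_sum]
    apply sum_congr rfl
    intro s _
    rw [← nsmul_eq_mul, ← card_range R, ← sum_const, card_range]
    apply sum_congr rfl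
    intro t _
    apply ee_cong h hq
    obtain ⟨k, hk⟩ := hqWP
    refine ⟨k * t, ?_⟩
    have hk' : (W : ℤ) * P = q * k := by exact_mod_cast hk
    push_cast
    linear_combination (t : ℤ) * hk'
  have hu0 : 0 < u := by linarith
  have hPS : (P : ℝ) ≤ u * ‖S‖ := by
    rw [div_lt_iff₀ hu0] at hcon
    linarith
  have hPR : 1 ≤ P * R := Nat.mul_pos hP hR1
  obtain ⟨q', hq1, hq2, a', ha'⟩ := hI W hW b (P * R) u ((a : ℝ) / q) hPR hu (by
    rw [hsum, norm_mul, Complex.norm_natCast]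
    push_cast
    have : (0 : ℝ) ≤ R := Nat.cast_nonneg _
    nlinarith)
  rw [← hE] at hq2 ha'
  have hq0 : (0 : ℝ) < q := by exact_mod_cast hq
  have hPRd : (q : ℝ) * E < ((P * R : ℕ) : ℝ) ^ h.natDegree := by
    have h1 : (R : ℝ) ≤ ((P * R : ℕ) : ℝ) := by exact_mod_cast Nat.le_mul_of_pos_left R hP
    have h2 : ((P * R : ℕ) : ℝ) ≤ ((P * R : ℕ) : ℝ) ^ h.natDegree :=
      le_self_pow₀ (by exact_mod_cast hPR) (by omega)
    linarith
  have hint : ((q' : ℤ) * (a * ((h.natDegree.factorial : ℤ) * (h.leadingCoeff * (W : ℤ) ^ h.natDegree))) - a' * q) = 0 := by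
    rw [← Int.abs_lt_one_iff]
    have h1 : (((q' : ℤ) * (a * ((h.natDegree.factorial : ℤ) * (h.leadingCoeff * (W : ℤ) ^ h.natDegree))) - a' * q : ℤ) : ℝ) =
        q * (q' * ((a : ℝ) / q * ((h.natDegree.factorial : ℝ) * ((h.leadingCoeff * (W : ℤ) ^ h.natDegree : ℤ) : ℝ))) - a') := by
      push_cast
      field_simp
    have h2 : |(((q' : ℤ) * (a * ((h.natDegree.factorial : ℤ) * (h.leadingCoeff * (W : ℤ) ^ h.natDegree))) - a' * q : ℤ) : ℝ)| < 1 := by
      rw [h1, abs_mul, abs_of_pos hq0]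
      calc (q : ℝ) * |(q' * ((a : ℝ) / q * ((h.natDegree.factorial : ℝ) * ((h.leadingCoeff * (W : ℤ) ^ h.natDegree : ℤ) : ℝ))) - a')|
          ≤ q * (E / ((P * R : ℕ) : ℝ) ^ h.natDegree) := mul_le_mul_of_nonneg_left ha' hq0.le
        _ = (q * E) / ((P * R : ℕ) : ℝ) ^ h.natDegree := by ring
        _ < 1 := by
          rw [div_lt_one (lt_trans (by positivity) hPRd)]
          exact hPRd
    exact_mod_cast h2
  have hdvd : (p : ℤ) ∣ (q' : ℤ) * (a * ((h.natDegree.factorial : ℤ) * (h.leadingCoeff * (W : ℤ) ^ h.natDegree))) := by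
    rw [sub_eq_zero] at hint
    rw [hint]
    exact Dvd.dvd.mul_left (by exact_mod_cast hpq) _
  have hpI : Prime (p : ℤ) := Nat.prime_iff_prime_int.1 hp
  rcases hpI.dvd_or_dvd hdvd with h1 | h1
  · have h2 : p ≤ q' := Nat.le_of_dvd hq1 (by exact_mod_cast h1)
    have h3 : (q' : ℝ) ≤ ⌈E⌉₊ := hq2.trans (Nat.le_ceil _)
    have h4 : q' ≤ ⌈E⌉₊ := by exact_mod_cast h3
    omega
  rcases hpI.dvd_or_dvd h1 with h1 | h1
  · have h2 : IsUnit (p : ℤ) := hcop.isUnit_of_dvd' h1 (by exact_mod_cast hpq)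
    exact hpI.not_isUnit h2
  rcases hpI.dvd_or_dvd h1 with h1 | h1
  · have h2 : p ∣ h.natDegree.factorial := by exact_mod_cast h1
    rw [hp.dvd_factorial] at h2
    omega
  rcases hpI.dvd_or_dvd h1 with h1 | h1
  · have h2 : p ∣ h.leadingCoeff.natAbs := by
      rw [← Int.natCast_dvd]; exact h1
    have h3 := Nat.le_of_dvd (Int.natAbs_pos.2 hlc) h2
    omega
  · have h2 := hpI.dvd_of_dvd_pow h1
    exact hpW (by exact_mod_cast h2)

/-- the mean of the model -/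
noncomputable def cW (h : ℤ[X]) (a : ℤ) (q W : ℕ) (M : ℕ) : ℂ :=
  ∑ c ∈ range M, ((lamW W c / M : ℝ) : ℂ) * ee ((a : ℝ) / q * ((h.eval (c : ℤ) : ℤ) : ℝ))

/-- the mean over reduced classes -/
noncomputable def cL (h : ℤ[X]) (a : ℤ) (q M : ℕ) : ℂ :=
  ∑ c ∈ range M, (((if c.Coprime M then (1 : ℝ) / M.totient else 0 : ℝ)) : ℂ) * ee ((a : ℝ) / q * ((h.eval (c : ℤ) : ℤ) : ℝ))

lemma sum_coprime (W : ℕ) (x : ℝ) : ∑ b ∈ range W, (if b.Coprime W then x else 0) = W.totient * x := by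
  rw [← sum_filter, sum_const, nsmul_eq_mul]
  congr 2
  rw [Nat.totient_eq_card_coprime]
  congr 1
  apply filter_congr
  intro b _
  exact Nat.coprime_comm

lemma sum_lamW (W : ℕ) (hW : 0 < W) : ∑ b ∈ range W, lamW W b = W := by
  unfold lamW
  rw [sum_coprime]
  have : (0 : ℝ) < W.totient := by exact_mod_cast Nat.totient_pos.2 hW
  field_simp

lemma cW_bound (h : ℤ[X]) (a : ℤ) (q W : ℕ) (hq : 0 < q) (hW : 0 < W) (u : ℝ) (hu : 1 ≤ u)
    (hb : ∀ b : ℤ, ‖∑ t ∈ range q, ee ((a : ℝ) / q * ((h.eval (b + (W : ℤ) * (t : ℤ)) : ℤ) : ℝ))‖ ≤ q / u) :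
    ‖cW h a q W (W * q)‖ ≤ 1 / u := by
  have hW0 : (0 : ℝ) < W := by exact_mod_cast hW
  have hq0 : (0 : ℝ) < q := by exact_mod_cast hq
  unfold cW
  rw [sum_blocks]
  calc ‖∑ b ∈ range W, ∑ t ∈ range q, ((lamW W (b + W * t) / ((W * q : ℕ) : ℝ) : ℝ) : ℂ) *
        ee ((a : ℝ) / q * ((h.eval (((b + W * t : ℕ) : ℤ)) : ℤ) : ℝ))‖
      ≤ ∑ b ∈ range W, lamW W b / ((W * q : ℕ) : ℝ) * (q / u) := by
        refine (norm_sum_le _ _).trans (sum_le_sum fun b _ => ?_)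
        have h1 : ∑ t ∈ range q, ((lamW W (b + W * t) / ((W * q : ℕ) : ℝ) : ℝ) : ℂ) *
            ee ((a : ℝ) / q * ((h.eval (((b + W * t : ℕ) : ℤ)) : ℤ) : ℝ)) =
            ((lamW W b / ((W * q : ℕ) : ℝ) : ℝ) : ℂ) *
              ∑ t ∈ range q, ee ((a : ℝ) / q * ((h.eval ((b : ℤ) + (W : ℤ) * (t : ℤ)) : ℤ) : ℝ)) := by
          rw [mul_sum]
          apply sum_congr rfl
          intro t _
          rw [lamW_add_mul]
          push_cast
          rfl
        rw [h1, norm_mul, Complex.norm_real, Real.norm_eq_abs,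
          abs_of_nonneg (div_nonneg (lamW_nonneg _ _) (Nat.cast_nonneg _))]
        exact mul_le_mul_of_nonneg_left (hb b) (div_nonneg (lamW_nonneg _ _) (Nat.cast_nonneg _))
    _ = (∑ b ∈ range W, lamW W b) * (1 / ((W * q : ℕ) : ℝ) * (q / u)) := by
        rw [sum_mul]
        apply sum_congr rfl
        intro b _
        ring
    _ = 1 / u := by
        rw [sum_lamW W hW]
        push_cast
        field_simp

lemma card_dvd_class (p b M' P : ℕ) (hp : p.Prime) (hpM : ¬ p ∣ M') (hpP : p ∣ P) :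
    #((range P).filter (fun t => p ∣ b + M' * t)) ≤ P / p := by
  rcases (((range P).filter (fun t => p ∣ b + M' * t))).eq_empty_or_nonempty with h0 | ⟨t0, ht0⟩
  · rw [h0]; simp
  rw [mem_filter, mem_range] at ht0
  have hsub : (range P).filter (fun t => p ∣ b + M' * t) ⊆ (range (P / p)).image (fun j => t0 % p + p * j) := by
    intro t ht
    rw [mem_filter, mem_range] at ht
    rw [mem_image]
    have hcop : Nat.Coprime p M' := (Nat.Prime.coprime_iff_not_dvd hp).2 hpM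
    have h1 : t ≡ t0 [MOD p] := by
      have h2 : b + M' * t ≡ b + M' * t0 [MOD p] :=
        ((Nat.modEq_zero_iff_dvd).2 ht.2).trans ((Nat.modEq_zero_iff_dvd).2 ht0.2).symm
      have h3 : M' * t ≡ M' * t0 [MOD p] := Nat.ModEq.add_left_cancel' b h2
      exact Nat.ModEq.cancel_left_of_coprime hcop h3
    refine ⟨t / p, ?_, ?_⟩
    · rw [mem_range]
      exact Nat.div_lt_div_of_lt_of_dvd hpP ht.1
    · have h2 : t0 % p = t % p := h1.symm
      rw [h2]
      exact Nat.mod_add_div t p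
  exact (card_le_card hsub).trans (card_image_le.trans (by rw [card_range]))

lemma cL_bound' (h : ℤ[X]) (a : ℤ) (q p M' k : ℕ) (hp : p.Prime) (hM' : 0 < M') (hk : 1 ≤ k)
    (hpM : ¬ p ∣ M') (u : ℝ) (hu : 1 ≤ u)
    (hb : ∀ b : ℤ, ‖∑ t ∈ range (p ^ k), ee ((a : ℝ) / q * ((h.eval (b + (M' : ℤ) * (t : ℤ)) : ℤ) : ℝ))‖ ≤
      ((p ^ k : ℕ) : ℝ) / u) :
    ‖cL h a q (M' * p ^ k)‖ ≤ 2 / u + 2 / p := by
  obtain ⟨P, hP⟩ : ∃ P : ℕ, P = p ^ k := ⟨_, rfl⟩
  rw [← hP] at hb ⊢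
  have hpP : p ∣ P := by rw [hP]; exact dvd_pow_self p (by omega)
  have hP0 : 0 < P := by rw [hP]; exact Nat.pow_pos hp.pos
  have hcop : Nat.Coprime M' P := by
    rw [hP]
    exact (Nat.Coprime.pow_right k ((Nat.Prime.coprime_iff_not_dvd hp).2 hpM).symm)
  have hPr : (0 : ℝ) < P := by exact_mod_cast hP0
  have hpr : (0 : ℝ) < p := by exact_mod_cast hp.pos
  have hφM : (0 : ℝ) < M'.totient := by exact_mod_cast Nat.totient_pos.2 hM'
  have hφP : (0 : ℝ) < P.totient := by exact_mod_cast Nat.totient_pos.2 hP0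
  have hφP2 : (P : ℝ) ≤ 2 * P.totient := by
    have h1 : P ≤ 2 * P.totient := by
      rw [hP, Nat.totient_prime_pow hp (by omega)]
      have h2 : p ^ k = p ^ (k - 1) * p := by
        rw [← pow_succ]; congr 1; omega
      rw [h2]
      have h3 : p ≤ 2 * (p - 1) := by have := hp.two_le; omega
      calc p ^ (k - 1) * p ≤ p ^ (k - 1) * (2 * (p - 1)) := Nat.mul_le_mul_left _ h3
        _ = _ := by ring
    exact_mod_cast h1
  have hφ : ((M' * P).totient : ℝ) = M'.totient * P.totient := by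
    rw [Nat.totient_mul hcop]; push_cast; rfl
  unfold cL
  rw [sum_blocks]
  have hinner : ∀ b ∈ range M', ‖∑ t ∈ range P, (((if (b + M' * t).Coprime (M' * P) then (1 : ℝ) / (M' * P).totient else 0 : ℝ)) : ℂ) *
      ee ((a : ℝ) / q * ((h.eval ((b + M' * t : ℕ) : ℤ) : ℤ) : ℝ))‖ ≤
      if b.Coprime M' then 1 / (M'.totient * P.totient : ℝ) * (P / u + P / p) else 0 := by
    intro b _
    have hiff : ∀ t : ℕ, (b + M' * t).Coprime (M' * P) ↔ b.Coprime M' ∧ ¬ p ∣ b + M' * t := by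
      intro t
      rw [Nat.coprime_mul_iff_right, Nat.coprime_add_mul_left_left, hP, Nat.coprime_pow_right_iff (by omega)]
      constructor
      · rintro ⟨h1, h2⟩
        exact ⟨h1, (Nat.Prime.coprime_iff_not_dvd hp).1 h2.symm⟩
      · rintro ⟨h1, h2⟩
        exact ⟨h1, ((Nat.Prime.coprime_iff_not_dvd hp).2 h2).symm⟩
    by_cases hbM : b.Coprime M'
    · rw [if_pos hbM, ← hφ]
      have h1 : ∑ t ∈ range P, (((if (b + M' * t).Coprime (M' * P) then (1 : ℝ) / (M' * P).totient else 0 : ℝ)) : ℂ) *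
          ee ((a : ℝ) / q * ((h.eval ((b + M' * t : ℕ) : ℤ) : ℤ) : ℝ)) =
          (((1 : ℝ) / (M' * P).totient : ℝ) : ℂ) * (∑ t ∈ range P, ee ((a : ℝ) / q * ((h.eval ((b : ℤ) + (M' : ℤ) * (t : ℤ)) : ℤ) : ℝ)) -
            ∑ t ∈ (range P).filter (fun t => p ∣ b + M' * t), ee ((a : ℝ) / q * ((h.eval ((b : ℤ) + (M' : ℤ) * (t : ℤ)) : ℤ) : ℝ))) := by
        rw [sum_filter, ← sum_sub_distrib, mul_sum]
        apply sum_congr rfl
        intro t _
        by_cases hpt : p ∣ b + M' * t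
        · rw [if_neg (fun h' => ((hiff t).1 h').2 hpt), if_pos hpt]
          simp
        · rw [if_pos ((hiff t).2 ⟨hbM, hpt⟩), if_neg hpt, sub_zero]
          push_cast
          rfl
      rw [h1, norm_mul, Complex.norm_real, Real.norm_eq_abs, abs_of_nonneg (by positivity)]
      apply mul_le_mul_of_nonneg_left _ (by positivity)
      refine (norm_sub_le _ _).trans (add_le_add (hb b) ?_)
      refine (norm_sum_le _ _).trans ?_
      calc ∑ t ∈ (range P).filter (fun t => p ∣ b + M' * t), ‖ee ((a : ℝ) / q * ((h.eval ((b : ℤ) + (M' : ℤ) * (t : ℤ)) : ℤ) : ℝ))‖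
          = (#((range P).filter (fun t => p ∣ b + M' * t)) : ℝ) := by
            rw [sum_congr rfl (fun t _ => norm_ee _), sum_const, nsmul_eq_mul, mul_one]
        _ ≤ ((P / p : ℕ) : ℝ) := by exact_mod_cast card_dvd_class p b M' P hp hpM hpP
        _ ≤ P / p := Nat.cast_div_le
    · rw [if_neg hbM]
      rw [sum_congr rfl (g := fun _ => (0 : ℂ)), sum_const_zero, norm_zero]
      intro t _
      rw [if_neg (fun h' => hbM ((hiff t).1 h').1)]
      simp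
  refine (norm_sum_le _ _).trans ((sum_le_sum hinner).trans ?_)
  rw [sum_coprime]
  have h2 : (M'.totient : ℝ) * (1 / (M'.totient * P.totient : ℝ) * (P / u + P / p)) = (P / P.totient : ℝ) * (1 / u + 1 / p) := by
    field_simp
  rw [h2]
  have h3 : (P / P.totient : ℝ) ≤ 2 := by rw [div_le_iff₀ hφP]; exact hφP2
  have h4 : (0 : ℝ) ≤ 1 / u + 1 / p := by positivity
  calc (P / P.totient : ℝ) * (1 / u + 1 / p) ≤ 2 * (1 / u + 1 / p) := mul_le_mul_of_nonneg_right h3 h4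
    _ = _ := by ring

lemma coeff_eq (h : ℤ[X]) (a : ℤ) (q W : ℕ) (hq : 0 < q) (hW : 0 < W)
    (hall : ∀ p : ℕ, p.Prime → p ∣ q → p ∣ W) : cL h a q (W * q) = cW h a q W (W * q) := by
  have hW0 : (0 : ℝ) < W := by exact_mod_cast hW
  have hq0 : (0 : ℝ) < q := by exact_mod_cast hq
  have hφW : (0 : ℝ) < W.totient := by exact_mod_cast Nat.totient_pos.2 hW
  have hpf : (W * q).primeFactors = W.primeFactors := by
    ext p
    rw [Nat.mem_primeFactors, Nat.mem_primeFactors]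
    constructor
    · rintro ⟨h1, h2, -⟩
      rcases (Nat.Prime.dvd_mul h1).1 h2 with h3 | h3
      · exact ⟨h1, h3, hW.ne'⟩
      · exact ⟨h1, hall p h1 h3, hW.ne'⟩
    · rintro ⟨h1, h2, -⟩
      exact ⟨h1, h2.mul_right q, (Nat.mul_pos hW hq).ne'⟩
  have hφ : ((W * q).totient : ℝ) = q * W.totient := by
    have h1 := Nat.totient_eq_mul_prod_factors (W * q)
    have h2 := Nat.totient_eq_mul_prod_factors W
    rw [hpf] at h1
    have h3 : ((W * q).totient : ℚ) = q * W.totient := by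
      rw [h1, h2]; push_cast; ring
    exact_mod_cast h3
  unfold cL cW
  apply sum_congr rfl
  intro c _
  congr 2
  have hiff : c.Coprime (W * q) ↔ c.Coprime W := by
    rw [Nat.coprime_mul_iff_right]
    constructor
    · exact fun h => h.1
    · intro h1
      refine ⟨h1, ?_⟩
      by_contra h2
      obtain ⟨p, hp, hpc, hpq⟩ := Nat.Prime.not_coprime_iff_dvd.1 h2
      exact Nat.Prime.not_coprime_iff_dvd.2 ⟨p, hp, hpc, hall p hp hpq⟩ h1
  unfold lamW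
  by_cases hc : c.Coprime W
  · rw [if_pos (hiff.2 hc), if_pos hc, hφ]
    push_cast
    field_simp
  · rw [if_neg (fun h' => hc (hiff.1 h')), if_neg hc, zero_div]

/-- the two means are close -/
lemma coeff_close (h : ℤ[X]) (hd : 1 ≤ h.natDegree) (ε : ℝ) (hε : 0 < ε) : ∃ z : ℕ, ∀ W : ℕ, 0 < W →
    (∀ p : ℕ, p ≤ z → p.Prime → p ∣ W) → ∀ q : ℕ, 0 < q → ∀ a : ℤ, IsCoprime a (q : ℤ) →
    ‖cL h a q (W * q) - cW h a q W (W * q)‖ ≤ ε := by
  obtain ⟨u, hu⟩ : ∃ u : ℝ, u = max 1 (6 / ε) := ⟨_, rfl⟩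
  have hu1 : 1 ≤ u := by rw [hu]; exact le_max_left _ _
  have hu2 : 6 / ε ≤ u := by rw [hu]; exact le_max_right _ _
  have hu0 : 0 < u := by linarith
  have h3u : 3 / u ≤ ε / 2 := by
    rw [div_le_iff₀ hε] at hu2
    rw [div_le_iff₀ hu0]; linarith
  obtain ⟨z0, hz0⟩ := complete_bound h hd u hu1
  refine ⟨max z0 ⌈4 / ε⌉₊, fun W hW hpW q hq a hcop => ?_⟩
  by_cases hall : ∀ p : ℕ, p.Prime → p ∣ q → p ∣ W
  · rw [coeff_eq h a q W hq hW hall, sub_self, norm_zero]; exact hε.le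
  push Not at hall
  obtain ⟨p, hp, hpq, hpW'⟩ := hall
  have hpz : max z0 ⌈4 / ε⌉₊ < p := by
    by_contra hcon
    push Not at hcon
    exact hpW' (hpW p hcon hp)
  have hp0 : z0 < p := (le_max_left _ _).trans_lt hpz
  have hp1 : 4 / ε < p := (Nat.le_ceil _).trans_lt (by exact_mod_cast (le_max_right _ _).trans_lt hpz)
  have hpr : (0 : ℝ) < p := by exact_mod_cast hp.pos
  have h2p : 2 / (p : ℝ) ≤ ε / 2 := by
    rw [div_lt_iff₀ hε] at hp1
    rw [div_le_iff₀ hpr]; linarith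
  have h1 : ‖cW h a q W (W * q)‖ ≤ 1 / u :=
    cW_bound h a q W hq hW u hu1 (fun b => hz0 p hp hp0 q W q hq hW hq hpq hpW' (Dvd.intro_left W rfl) a b hcop)
  have hM0 : W * q ≠ 0 := (Nat.mul_pos hW hq).ne'
  obtain ⟨k, hk⟩ : ∃ k : ℕ, k = (W * q).factorization p := ⟨_, rfl⟩
  obtain ⟨M', hM'⟩ : ∃ M' : ℕ, M' = (W * q) / p ^ ((W * q).factorization p) := ⟨_, rfl⟩
  have hMM : M' * p ^ k = W * q := by
    rw [hM', hk, mul_comm]; exact Nat.ordProj_mul_ordCompl_eq_self (W * q) p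
  have hpM' : ¬ p ∣ M' := by rw [hM']; exact Nat.not_dvd_ordCompl hp hM0
  have hM'0 : 0 < M' := by rw [hM']; exact Nat.ordCompl_pos p hM0
  have hk1 : 1 ≤ k := by
    rw [hk]
    exact (hp.dvd_iff_one_le_factorization hM0).1 (hpq.mul_left W)
  have h2 : ‖cL h a q (W * q)‖ ≤ 2 / u + 2 / p := by
    rw [← hMM]
    refine cL_bound' h a q p M' k hp hM'0 hk1 hpM' u hu1 (fun b => ?_)
    exact hz0 p hp hp0 q M' (p ^ k) hq hM'0 (Nat.pow_pos hp.pos) hpq hpM' (by rw [hMM]; exact Dvd.intro_left W rfl) a b hcop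
  calc ‖cL h a q (W * q) - cW h a q W (W * q)‖ ≤ ‖cL h a q (W * q)‖ + ‖cW h a q W (W * q)‖ := norm_sub_le _ _
    _ ≤ (2 / u + 2 / p) + 1 / u := add_le_add h2 h1
    _ = 3 / u + 2 / p := by ring
    _ ≤ ε / 2 + ε / 2 := add_le_add h3u h2p
    _ = ε := by ring

end Pool.Agent.R486.PD
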