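import Pool.Agent.R486.PD.Defs
import Pool.Agent.H373R2.NB.Weyl

/-!
# Major arcs, part one: complete exponential sums
-/

set_option autoImplicit false

namespace Pool.Agent.R486.PD.Maj

open Finset Polynomial
open Pool.Agent.H807R2.Dav (ee norm_ee ee_add ee_int ee_add_int ee_zero)
open Pool.Agent.H373R2.NB (IW IW_all Ph Ph_poly)

lemma mk_ee' (x : ℝ) : Pool.Agent.Helper602.MK.ee x = ee x := by
  unfold ee Pool.Agent.Helper602.MK.ee
  congr 1
  ring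

/-- sums over products of ranges -/
lemma sum_range_mul' {M : Type*} [AddCommMonoid M] (g : ℕ → M) (m k : ℕ) :
    ∑ n ∈ range (m * k), g n = ∑ b ∈ range m, ∑ t ∈ range k, g (b + m * t) := by
  induction k with
  | zero => simp
  | succ k ih =>
    rw [Nat.mul_succ, sum_range_add, ih]
    simp_rw [sum_range_succ]
    rw [sum_add_distrib]
    congr 1
    exact sum_congr rfl (fun b _ => by rw [Nat.add_comm])

/-- integrality of the change of the phase -/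
lemma ee_congr {a : ℤ} {q : ℕ} (hq : 0 < q) (h : ℤ[X]) {x y : ℤ} (hxy : (q : ℤ) ∣ x - y) :
    ee ((a : ℝ) / q * ((h.eval x : ℤ) : ℝ)) = ee ((a : ℝ) / q * ((h.eval y : ℤ) : ℝ)) := by
  obtain ⟨m, hm⟩ := hxy.trans (sub_dvd_eval_sub x y h)
  have h1 : (a : ℝ) / q * ((h.eval x : ℤ) : ℝ) =
      (a : ℝ) / q * ((h.eval y : ℤ) : ℝ) + ((a * m : ℤ) : ℝ) := by
    have h2 : ((h.eval x : ℤ) : ℝ) = (h.eval y : ℤ) + (q : ℝ) * m := by
      have : h.eval x = h.eval y + q * m := by linarith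
      rw [this]; push_cast; ring
    have hq' : (q : ℝ) ≠ 0 := by positivity
    rw [h2]
    push_cast
    field_simp
  rw [h1, ee_add_int]

/-- complete sums modulo a power of a large prime are small -/
theorem local_sum (h : ℤ[X]) (hd : 1 ≤ h.natDegree) (u : ℝ) (hu : 1 ≤ u) :
    ∃ P : ℕ, ∀ p : ℕ, p.Prime → P < p → ∀ k : ℕ, ∀ q' w : ℕ, ¬ p ∣ q' →
      ¬ p ∣ w → ∀ a : ℤ, ¬ (p : ℤ) ∣ a → ∀ b : ℕ, 1 ≤ k →
      u * ‖∑ t ∈ range (p ^ k), ee ((a : ℝ) / ((q' * p ^ k : ℕ) : ℝ) *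
        ((h.eval ((b + q' * w * t : ℕ) : ℤ) : ℤ) : ℝ))‖ ≤ (p : ℝ) ^ k := by
  obtain ⟨c, m, hc, hIW⟩ := IW_all h.natDegree hd
  refine ⟨max (max h.natDegree h.leadingCoeff.natAbs) ⌈(c : ℝ) * u ^ m⌉₊, ?_⟩
  intro p hp hPp k q' w hq' hw a ha b hk
  have hp1 : h.natDegree < p := lt_of_le_of_lt ((le_max_left _ _).trans (le_max_left _ _)) hPp
  have hp2 : h.leadingCoeff.natAbs < p :=
    lt_of_le_of_lt ((le_max_right _ _).trans (le_max_left _ _)) hPp
  have hp3 : (c : ℝ) * u ^ m < p :=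
    lt_of_le_of_lt (Nat.le_ceil _) (by exact_mod_cast lt_of_le_of_lt (le_max_right _ _) hPp)
  have hq'0 : 0 < q' := Nat.pos_of_ne_zero (fun h0 => hq' (h0 ▸ dvd_zero p))
  have hpk : 0 < p ^ k := pow_pos hp.pos k
  have hQ : 0 < q' * p ^ k := Nat.mul_pos hq'0 hpk
  by_contra hcon
  push Not at hcon
  obtain ⟨φ, hφ⟩ : ∃ φ : ℕ → ℝ, φ = fun t => (a : ℝ) / ((q' * p ^ k : ℕ) : ℝ) *
        ((h.eval ((b + q' * w * t : ℕ) : ℤ) : ℤ) : ℝ) := ⟨_, rfl⟩
  have hφt : ∀ t, (a : ℝ) / ((q' * p ^ k : ℕ) : ℝ) *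
        ((h.eval ((b + q' * w * t : ℕ) : ℤ) : ℤ) : ℝ) = φ t := fun t => by rw [hφ]
  simp only [hφt] at hcon
  -- the polynomial in t
  obtain ⟨f, hf⟩ : ∃ f : ℤ[X], f = h.comp (C ((q' * w : ℕ) : ℤ) * X + C (b : ℤ)) := ⟨_, rfl⟩
  have hw0 : w ≠ 0 := fun h0 => hw (h0 ▸ dvd_zero p)
  have hqw : ((q' * w : ℕ) : ℤ) ≠ 0 := by
    have : 0 < q' * w := Nat.mul_pos hq'0 (Nat.pos_of_ne_zero hw0)
    exact_mod_cast this.ne'
  have hlin : (C ((q' * w : ℕ) : ℤ) * X + C (b : ℤ) : ℤ[X]).natDegree = 1 :=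
    natDegree_linear hqw
  have hfdeg : f.natDegree = h.natDegree := by
    rw [hf, natDegree_comp, hlin, mul_one]
  have hfc : f.coeff h.natDegree = h.leadingCoeff * ((q' * w : ℕ) : ℤ) ^ h.natDegree := by
    have h1 : f.coeff h.natDegree = f.leadingCoeff := by rw [leadingCoeff, hfdeg]
    rw [h1, hf, leadingCoeff_comp (by rw [hlin]; norm_num), leadingCoeff_linear hqw]
  have hfe : ∀ t : ℕ, f.eval (t : ℤ) = h.eval ((b + q' * w * t : ℕ) : ℤ) := by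
    intro t
    rw [hf, eval_comp]
    congr 1
    simp
    ring
  have hPh := Ph_poly h.natDegree f hfdeg.le ((a : ℝ) / ((q' * p ^ k : ℕ) : ℝ))
  have hφf : (fun n : ℕ => (a : ℝ) / ((q' * p ^ k : ℕ) : ℝ) * ((f.eval (n : ℤ) : ℤ) : ℝ)) = φ := by
    funext t
    rw [hfe, hφ]
  rw [hφf, hfc] at hPh
  -- periodicity
  have hper : ∀ t j : ℕ, ee (φ (t + p ^ k * j)) = ee (φ t) := by
    intro t j
    rw [hφ]
    refine ee_congr hQ h ?_
    refine ⟨(w * j : ℕ), ?_⟩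
    push_cast
    ring
  have hT : ∀ T : ℕ, ∑ t ∈ range (p ^ k * T), Pool.Agent.Helper602.MK.ee (φ t) =
      (T : ℂ) * ∑ t ∈ range (p ^ k), ee (φ t) := by
    intro T
    simp only [mk_ee']
    rw [sum_range_mul', mul_sum]
    refine sum_congr rfl (fun t _ => ?_)
    simp only [hper, sum_const, card_range, nsmul_eq_mul]
  obtain ⟨T, hTbig⟩ := exists_nat_gt ((c : ℝ) * u ^ m * (p : ℝ) ^ k)
  have hcu : 0 ≤ (c : ℝ) * u ^ m := by positivity
  have hpkR : (1 : ℝ) ≤ (p : ℝ) ^ k := by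
    have : 1 ≤ p ^ k := hpk
    exact_mod_cast this
  have hTpos : (0 : ℝ) < T := lt_of_le_of_lt (by positivity) hTbig
  have hTpos' : 0 < T := by exact_mod_cast hTpos
  have hNle : (((p ^ k * T : ℕ) : ℕ) : ℝ) ≤
      u * ‖∑ t ∈ range (p ^ k * T), Pool.Agent.Helper602.MK.ee (φ t)‖ := by
    rw [hT, norm_mul]
    have h1 : ‖(T : ℂ)‖ = T := by simp
    rw [h1]
    push_cast
    have h2 := mul_le_mul_of_nonneg_right hcon.le hTpos.le
    linarith
  obtain ⟨q, hq1, hqle, A, hA⟩ := hIW (p ^ k * T) u _ φ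
    (Nat.mul_pos hpk hTpos') hu hPh hNle
  -- conclude
  obtain ⟨d', hd'⟩ : ∃ d', h.natDegree = d' + 1 := ⟨h.natDegree - 1, by omega⟩
  obtain ⟨M, hM⟩ : ∃ M : ℤ, M = a * (h.natDegree.factorial : ℤ) * h.leadingCoeff *
    ((q' : ℤ) ^ d' * (w : ℤ) ^ h.natDegree) := ⟨_, rfl⟩
  have hαM : (a : ℝ) / ((q' * p ^ k : ℕ) : ℝ) * ((h.natDegree.factorial : ℝ) *
      ((h.leadingCoeff * ((q' * w : ℕ) : ℤ) ^ h.natDegree : ℤ) : ℝ)) = (M : ℝ) / (p : ℝ) ^ k := by
    rw [hM]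
    push_cast
    have h1 : (q' : ℝ) ≠ 0 := by positivity
    have h2 : (p : ℝ) ^ k ≠ 0 := by positivity
    have h3 : ((q' : ℝ) * w) ^ h.natDegree = q' * ((q' : ℝ) ^ d' * (w : ℝ) ^ h.natDegree) := by
      rw [mul_pow]
      have : (q' : ℝ) ^ h.natDegree = q' * (q' : ℝ) ^ d' := by rw [hd', pow_succ]; ring
      rw [this]; ring
    rw [h3]
    field_simp
  rw [hαM] at hA
  have hsmall : (c : ℝ) * u ^ m / (((p ^ k * T : ℕ) : ℕ) : ℝ) ^ h.natDegree < 1 / (p : ℝ) ^ k := by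
    rw [div_lt_div_iff₀ (by positivity) (by positivity), one_mul]
    have h1 : (T : ℝ) ≤ (((p ^ k * T : ℕ) : ℕ) : ℝ) := by
      push_cast
      nlinarith
    have h2 : (((p ^ k * T : ℕ) : ℕ) : ℝ) ≤ (((p ^ k * T : ℕ) : ℕ) : ℝ) ^ h.natDegree :=
      le_self_pow₀ (by exact_mod_cast (Nat.mul_pos hpk hTpos')) (by omega)
    linarith
  have hlt := lt_of_le_of_lt hA hsmall
  have hint : (q : ℤ) * M = A * (p : ℤ) ^ k := by
    have h1 : |(((q : ℤ) * M - A * (p : ℤ) ^ k : ℤ) : ℝ)| < 1 := by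
      have h2 : (((q : ℤ) * M - A * (p : ℤ) ^ k : ℤ) : ℝ) =
          ((q : ℝ) * ((M : ℝ) / (p : ℝ) ^ k) - A) * (p : ℝ) ^ k := by
        push_cast
        field_simp
      rw [h2, abs_mul, abs_of_nonneg (by positivity : (0 : ℝ) ≤ (p : ℝ) ^ k)]
      rwa [lt_div_iff₀ (by positivity)] at hlt
    have h3 : |(q : ℤ) * M - A * (p : ℤ) ^ k| < 1 := by exact_mod_cast h1
    have h4 := Int.abs_lt_one_iff.mp h3
    linarith
  have hpdvd : (p : ℤ) ∣ (q : ℤ) * M := by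
    rw [hint]
    exact dvd_mul_of_dvd_right (dvd_pow_self _ (by omega)) _
  have hpp : Prime (p : ℤ) := Nat.prime_iff_prime_int.mp hp
  have hnq : ¬ (p : ℤ) ∣ (q : ℤ) := by
    intro h1
    have h2 : p ∣ q := Int.natCast_dvd_natCast.mp h1
    have h3 := Nat.le_of_dvd hq1 h2
    have h4 : (p : ℝ) ≤ q := by exact_mod_cast h3
    linarith
  rcases hpp.dvd_or_dvd hpdvd with h1 | h1
  · exact hnq h1
  · rw [hM] at h1
    rcases hpp.dvd_or_dvd h1 with h2 | h2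
    · rcases hpp.dvd_or_dvd h2 with h3 | h3
      · rcases hpp.dvd_or_dvd h3 with h4 | h4
        · exact ha h4
        · have h5 : p ∣ h.natDegree.factorial := Int.natCast_dvd_natCast.mp h4
          rw [hp.dvd_factorial] at h5
          omega
      · have h4 : p ∣ h.leadingCoeff.natAbs := Int.natCast_dvd.mp h3
        have h5 : 0 < h.leadingCoeff.natAbs := by
          rw [Int.natAbs_pos, Ne, leadingCoeff_eq_zero]
          intro h0
          rw [h0] at hd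
          simp at hd
        have h6 := Nat.le_of_dvd h5 h4
        omega
    · rcases hpp.dvd_or_dvd h2 with h3 | h3
      · have h4 := hpp.dvd_of_dvd_pow h3
        exact hq' (Int.natCast_dvd_natCast.mp h4)
      · have h4 := hpp.dvd_of_dvd_pow h3
        exact hw (Int.natCast_dvd_natCast.mp h4)

end Pool.Agent.R486.PD.Maj
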