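import Pool.Agent.R486.PD.MajA

/-!
# Major arcs, part two: the constants
-/

set_option autoImplicit false

namespace Pool.Agent.R486.PD.Maj

open Finset Polynomial
open Pool.Agent.H807R2.Dav (ee norm_ee ee_add ee_int ee_add_int ee_zero)

/-- the phase `e(a h(n) / q)` -/
noncomputable def FF (h : ℤ[X]) (q : ℕ) (a : ℤ) (n : ℕ) : ℂ :=
  ee ((a : ℝ) / q * ((h.eval (n : ℤ) : ℤ) : ℝ))

/-- mean value along the primes -/
noncomputable def cA (h : ℤ[X]) (q : ℕ) (a : ℤ) : ℂ :=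
  (1 / (Nat.totient q : ℂ)) * ∑ n ∈ (range q).filter (fun n => n.Coprime q), FF h q a n

/-- mean value of the model -/
noncomputable def cB (h : ℤ[X]) (W q : ℕ) (a : ℤ) : ℂ :=
  (1 / ((q * W : ℕ) : ℂ)) * ∑ n ∈ range (q * W), ((lamW W n : ℝ) : ℂ) * FF h q a n

lemma norm_FF (h : ℤ[X]) (q : ℕ) (a : ℤ) (n : ℕ) : ‖FF h q a n‖ = 1 := norm_ee _

lemma FF_add (h : ℤ[X]) {q : ℕ} (hq : 0 < q) (a : ℤ) (n j : ℕ) :
    FF h q a (n + q * j) = FF h q a n := by
  unfold FF
  refine ee_congr hq h ⟨(j : ℤ), ?_⟩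
  push_cast; ring

lemma FF_mod (h : ℤ[X]) {q : ℕ} (hq : 0 < q) (a : ℤ) (n : ℕ) : FF h q a (n % q) = FF h q a n := by
  conv_rhs => rw [← Nat.mod_add_div n q]
  rw [FF_add h hq]

lemma lamW_nonneg (W n : ℕ) : 0 ≤ lamW W n := by
  unfold lamW; split_ifs <;> positivity

lemma lamW_le {W : ℕ} (hW : 0 < W) (n : ℕ) : lamW W n ≤ W := by
  unfold lamW
  split_ifs
  · rw [div_le_iff₀ (by exact_mod_cast Nat.totient_pos.mpr hW)]
    have h1 : (1 : ℝ) ≤ Nat.totient W := by exact_mod_cast Nat.totient_pos.mpr hW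
    have h2 : (0 : ℝ) ≤ W := Nat.cast_nonneg _
    nlinarith
  · positivity

lemma lamW_add (W n j : ℕ) : lamW W (n + W * j) = lamW W n := by
  unfold lamW
  have : (n + W * j).Coprime W ↔ n.Coprime W := by
    rw [Nat.coprime_add_mul_left_left]
  simp only [this]

lemma card_coprime_range (W : ℕ) : ((range W).filter (fun n => n.Coprime W)).card = Nat.totient W := by
  rw [Nat.totient_eq_card_coprime]
  congr 1
  ext n
  simp only [mem_filter, mem_range, Nat.coprime_comm]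

lemma card_coprime_mul (W k : ℕ) :
    ((range (W * k)).filter (fun n => n.Coprime W)).card = k * Nat.totient W := by
  rw [card_filter, sum_range_mul']
  have h1 : ∀ b ∈ range W, ∑ t ∈ range k, (if (b + W * t).Coprime W then 1 else 0) =
      k * (if b.Coprime W then 1 else 0) := by
    intro b _
    have : ∀ t, ((b + W * t).Coprime W ↔ b.Coprime W) := fun t => by
      rw [Nat.coprime_add_mul_left_left]
    simp only [this, sum_const, card_range, smul_eq_mul]
  rw [sum_congr rfl h1, ← mul_sum, ← card_filter, card_coprime_range]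

lemma sum_lamW {W : ℕ} (hW : 0 < W) (k : ℕ) : ∑ n ∈ range (W * k), lamW W n = k * W := by
  unfold lamW
  rw [← sum_filter, sum_const, card_coprime_mul, nsmul_eq_mul]
  have h1 : (Nat.totient W : ℝ) ≠ 0 := by exact_mod_cast (Nat.totient_pos.mpr hW).ne'
  push_cast
  field_simp

/-- second case, the model -/
theorem cB_small {h : ℤ[X]} {u : ℝ} (hu : 0 < u) {p k q' W : ℕ} {a : ℤ} (hp : p.Prime)
    (hq' : 0 < q') (hW : 0 < W) (_hk : 1 ≤ k)
    (hloc : ∀ b : ℕ, u * ‖∑ t ∈ range (p ^ k), ee ((a : ℝ) / ((q' * p ^ k : ℕ) : ℝ) *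
        ((h.eval ((b + q' * W * t : ℕ) : ℤ) : ℤ) : ℝ))‖ ≤ (p : ℝ) ^ k) :
    ‖cB h W (q' * p ^ k) a‖ ≤ 1 / u := by
  have hpk : 0 < p ^ k := pow_pos hp.pos k
  unfold cB
  have h1 : q' * p ^ k * W = (q' * W) * p ^ k := by ring
  rw [h1, sum_range_mul']
  have h2 : ∀ b ∈ range (q' * W), ‖∑ t ∈ range (p ^ k), ((lamW W (b + q' * W * t) : ℝ) : ℂ) *
      FF h (q' * p ^ k) a (b + q' * W * t)‖ ≤ lamW W b * ((p : ℝ) ^ k / u) := by
    intro b _
    have h3 : ∀ t, lamW W (b + q' * W * t) = lamW W b := by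
      intro t
      have : b + q' * W * t = b + W * (q' * t) := by ring
      rw [this, lamW_add]
    simp only [h3]
    rw [← mul_sum, norm_mul]
    have h4 : ‖((lamW W b : ℝ) : ℂ)‖ = lamW W b := by
      rw [Complex.norm_real, Real.norm_of_nonneg (lamW_nonneg W b)]
    rw [h4]
    refine mul_le_mul_of_nonneg_left ?_ (lamW_nonneg W b)
    rw [le_div_iff₀ hu, mul_comm]
    exact hloc b
  rw [norm_mul]
  have h5 : ‖∑ b ∈ range (q' * W), ∑ t ∈ range (p ^ k), ((lamW W (b + q' * W * t) : ℝ) : ℂ) *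
      FF h (q' * p ^ k) a (b + q' * W * t)‖ ≤ (q' * W : ℝ) * ((p : ℝ) ^ k / u) := by
    refine (norm_sum_le_of_le _ h2).trans ?_
    rw [← sum_mul, mul_comm q' W, sum_lamW hW]
  have h6 : ‖(1 / ((q' * W * p ^ k : ℕ) : ℂ))‖ = 1 / ((q' * W * p ^ k : ℕ) : ℝ) := by
    rw [norm_div, norm_one, Complex.norm_natCast]
  rw [h6]
  have h7 : (0 : ℝ) < ((q' * W * p ^ k : ℕ) : ℝ) := by
    exact_mod_cast Nat.mul_pos (Nat.mul_pos hq' hW) hpk
  calc 1 / ((q' * W * p ^ k : ℕ) : ℝ) * _ ≤ 1 / ((q' * W * p ^ k : ℕ) : ℝ) *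
        ((q' * W : ℝ) * ((p : ℝ) ^ k / u)) := mul_le_mul_of_nonneg_left h5 (by positivity)
    _ = 1 / u := by
      have hp0 : (p : ℝ) ≠ 0 := by exact_mod_cast hp.ne_zero
      push_cast at h7 ⊢
      field_simp

/-- number of multiples of `p` in a progression -/
lemma card_dvd_le {p k q' : ℕ} (hp : p.Prime) (hpq : ¬ p ∣ q') (hk : 1 ≤ k) (b : ℕ) :
    ((range (p ^ k)).filter (fun t => p ∣ b + q' * t)).card ≤ p ^ (k - 1) := by
  obtain ⟨k', rfl⟩ : ∃ k', k = k' + 1 := ⟨k - 1, by omega⟩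
  rw [Nat.add_sub_cancel, card_filter, pow_succ, mul_comm (p ^ k') p, sum_range_mul']
  have h1 : ∀ s ∈ range p, ∑ t ∈ range (p ^ k'), (if p ∣ b + q' * (s + p * t) then 1 else 0) =
      (if p ∣ b + q' * s then 1 else 0) * p ^ k' := by
    intro s _
    have : ∀ t, (p ∣ b + q' * (s + p * t) ↔ p ∣ b + q' * s) := by
      intro t
      have : b + q' * (s + p * t) = b + q' * s + p * (q' * t) := by ring
      rw [this, Nat.dvd_add_left (dvd_mul_right p _)]
    simp only [this, sum_const, card_range, smul_eq_mul, mul_comm]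
  rw [sum_congr rfl h1, ← sum_mul, ← card_filter]
  have h2 : ((range p).filter (fun s => p ∣ b + q' * s)).card ≤ 1 := by
    rw [card_le_one]
    intro s hs s' hs'
    simp only [mem_filter, mem_range] at hs hs'
    have h3 : (p : ℤ) ∣ (q' : ℤ) * ((s : ℤ) - s') := by
      have h4 : (p : ℤ) ∣ ((b + q' * s : ℕ) : ℤ) := Int.natCast_dvd_natCast.mpr hs.2
      have h5 : (p : ℤ) ∣ ((b + q' * s' : ℕ) : ℤ) := Int.natCast_dvd_natCast.mpr hs'.2
      have h6 := dvd_sub h4 h5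
      have h7 : ((b + q' * s : ℕ) : ℤ) - ((b + q' * s' : ℕ) : ℤ) = (q' : ℤ) * ((s : ℤ) - s') := by
        push_cast; ring
      rwa [h7] at h6
    rcases (Nat.prime_iff_prime_int.mp hp).dvd_or_dvd h3 with h4 | h4
    · exact absurd (Int.natCast_dvd_natCast.mp h4) hpq
    · have h5 : |(s : ℤ) - s'| < p := by
        rw [abs_lt]; omega
      have h6 := Int.eq_zero_of_abs_lt_dvd h4 h5
      omega
  calc _ ≤ 1 * p ^ k' := Nat.mul_le_mul_right _ h2
    _ = p ^ k' := one_mul _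

/-- second case, the primes -/
theorem cA_small {h : ℤ[X]} {u : ℝ} (hu : 0 < u) {p k q' : ℕ} {a : ℤ} (hp : p.Prime)
    (hq' : 0 < q') (hpq : ¬ p ∣ q') (hk : 1 ≤ k)
    (hloc : ∀ b : ℕ, u * ‖∑ t ∈ range (p ^ k), ee ((a : ℝ) / ((q' * p ^ k : ℕ) : ℝ) *
        ((h.eval ((b + q' * t : ℕ) : ℤ) : ℤ) : ℝ))‖ ≤ (p : ℝ) ^ k) :
    ‖cA h (q' * p ^ k) a‖ ≤ 2 / u + 2 / p := by
  have hpk : 0 < p ^ k := pow_pos hp.pos k
  have hcop : q'.Coprime (p ^ k) := Nat.Coprime.pow_right k ((hp.coprime_iff_not_dvd.mpr hpq).symm)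
  have hco : ∀ b t, ((b + q' * t).Coprime (q' * p ^ k) ↔ b.Coprime q' ∧ ¬ p ∣ b + q' * t) := by
    intro b t
    rw [Nat.coprime_mul_iff_right, Nat.coprime_add_mul_left_left]
    constructor
    · rintro ⟨h1, h2⟩
      exact ⟨h1, (hp.coprime_iff_not_dvd).mp ((Nat.coprime_pow_right_iff (by omega) _ _).mp h2).symm⟩
    · rintro ⟨h1, h2⟩
      exact ⟨h1, Nat.Coprime.pow_right k ((hp.coprime_iff_not_dvd.mpr h2).symm)⟩
  unfold cA
  rw [sum_filter, sum_range_mul']
  have h2 : ∀ b ∈ range q', ‖∑ t ∈ range (p ^ k), (if (b + q' * t).Coprime (q' * p ^ k) then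
      FF h (q' * p ^ k) a (b + q' * t) else 0)‖ ≤
      (if b.Coprime q' then ((p : ℝ) ^ k / u + (p : ℝ) ^ (k - 1)) else 0) := by
    intro b _
    by_cases hb : b.Coprime q'
    · rw [if_pos hb]
      have h3 : ∑ t ∈ range (p ^ k), (if (b + q' * t).Coprime (q' * p ^ k) then
          FF h (q' * p ^ k) a (b + q' * t) else 0) =
          ∑ t ∈ range (p ^ k), FF h (q' * p ^ k) a (b + q' * t) -
          ∑ t ∈ (range (p ^ k)).filter (fun t => p ∣ b + q' * t),
            FF h (q' * p ^ k) a (b + q' * t) := by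
        rw [sum_filter, ← sum_sub_distrib]
        refine sum_congr rfl (fun t _ => ?_)
        by_cases hpt : p ∣ b + q' * t
        · rw [if_neg (fun hc => ((hco b t).mp hc).2 hpt), if_pos hpt, sub_self]
        · rw [if_pos ((hco b t).mpr ⟨hb, hpt⟩), if_neg hpt, sub_zero]
      rw [h3]
      refine (norm_sub_le _ _).trans (add_le_add ?_ ?_)
      · rw [le_div_iff₀ hu, mul_comm]
        exact hloc b
      · refine (norm_sum_le_of_le _ (fun t _ => (norm_FF h _ a _).le)).trans ?_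
        rw [sum_const, nsmul_eq_mul, mul_one]
        exact_mod_cast card_dvd_le hp hpq hk b
    · rw [if_neg hb]
      refine le_of_eq ?_
      rw [sum_eq_zero (fun t _ => if_neg (fun hc => hb ((hco b t).mp hc).1)), norm_zero]
  rw [norm_mul]
  have h5 := norm_sum_le_of_le _ h2
  rw [← sum_filter, sum_const, card_coprime_range, nsmul_eq_mul] at h5
  have hφ : Nat.totient (q' * p ^ k) = Nat.totient q' * (p ^ (k - 1) * (p - 1)) := by
    rw [Nat.totient_mul hcop, Nat.totient_prime_pow hp (by omega)]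
  have hφ1 : (0 : ℝ) < Nat.totient q' := by exact_mod_cast Nat.totient_pos.mpr hq'
  have hp1 : (1 : ℝ) ≤ (p : ℝ) - 1 := by
    have : (2 : ℝ) ≤ p := by exact_mod_cast hp.two_le
    linarith
  have hpk1 : (0 : ℝ) < (p : ℝ) ^ (k - 1) := pow_pos (by linarith) _
  have h6 : ‖(1 / ((Nat.totient (q' * p ^ k) : ℕ) : ℂ))‖ =
      1 / ((Nat.totient q' : ℝ) * ((p : ℝ) ^ (k - 1) * ((p : ℝ) - 1))) := by
    rw [norm_div, norm_one, Complex.norm_natCast, hφ]
    push_cast [Nat.cast_sub hp.one_le]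
    rfl
  rw [h6]
  have h7 : (p : ℝ) ^ k = (p : ℝ) ^ (k - 1) * p := by
    rw [← pow_succ]; congr 1; omega
  have hp0 : (0 : ℝ) < p := by linarith
  calc _ ≤ 1 / ((Nat.totient q' : ℝ) * ((p : ℝ) ^ (k - 1) * ((p : ℝ) - 1))) *
        ((Nat.totient q' : ℝ) * ((p : ℝ) ^ k / u + (p : ℝ) ^ (k - 1))) :=
        mul_le_mul_of_nonneg_left h5 (by positivity)
    _ = (p / u + 1) / ((p : ℝ) - 1) := by
        rw [h7]
        have : (p : ℝ) - 1 ≠ 0 := by linarith
        field_simp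
    _ ≤ 2 / u + 2 / p := by
        rw [div_le_iff₀ (by linarith)]
        have e1 : (2 / u + 2 / p) * ((p : ℝ) - 1) = p / u + (p / u - 2 / u) + (2 - 2 / p) := by
          field_simp; ring
        rw [e1]
        have h8 : 0 ≤ p / u - 2 / u := by
          rw [← sub_div]
          exact div_nonneg (by linarith) hu.le
        have h9 : 2 / (p : ℝ) ≤ 1 := by
          rw [div_le_one hp0]; linarith
        linarith

/-- sums over reduced residues as sums over units -/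
lemma sum_units {M : ℕ} [NeZero M] (g : ℕ → ℂ) :
    ∑ n ∈ (range M).filter (fun n => n.Coprime M), g n = ∑ v : (ZMod M)ˣ, g (v : ZMod M).val := by
  symm
  refine sum_bij (fun (v : (ZMod M)ˣ) _ => (v : ZMod M).val) ?_ ?_ ?_ ?_
  · intro v _
    rw [mem_filter, mem_range]
    exact ⟨ZMod.val_lt _, ZMod.val_coe_unit_coprime v⟩
  · intro v _ v' _ hvv
    exact Units.ext (ZMod.val_injective M hvv)
  · intro n hn
    rw [mem_filter, mem_range] at hn
    refine ⟨ZMod.unitOfCoprime n hn.2, mem_univ _, ?_⟩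
    rw [ZMod.coe_unitOfCoprime, ZMod.val_natCast, Nat.mod_eq_of_lt hn.1]
  · intro v _
    rfl

/-- averages over reduced residues are compatible -/
lemma avg_units {q M : ℕ} (hq : 0 < q) (hM : 0 < M) (hqM : q ∣ M) (g : ℕ → ℂ)
    (hg : ∀ n, g (n % q) = g n) :
    (1 / (Nat.totient M : ℂ)) * ∑ n ∈ (range M).filter (fun n => n.Coprime M), g n =
    (1 / (Nat.totient q : ℂ)) * ∑ n ∈ (range q).filter (fun n => n.Coprime q), g n := by
  classical
  have : NeZero M := ⟨hM.ne'⟩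
  have : NeZero q := ⟨hq.ne'⟩
  rw [sum_units, sum_units]
  have h1 : ∀ v : (ZMod M)ˣ, g (v : ZMod M).val = g ((ZMod.unitsMap hqM v : (ZMod q)ˣ) : ZMod q).val := by
    intro v
    rw [← hg ((v : ZMod M).val)]
    congr 1
    rw [ZMod.unitsMap_def, Units.coe_map, MonoidHom.coe_coe, ZMod.castHom_apply,
      ZMod.cast_eq_val, ZMod.val_natCast]
  have hsurj := ZMod.unitsMap_surjective hqM
  have hfib : ∀ x : (ZMod q)ˣ, ((univ : Finset (ZMod M)ˣ).filter (fun v => ZMod.unitsMap hqM v = x)).card =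
      ((univ : Finset (ZMod M)ˣ).filter (fun v => ZMod.unitsMap hqM v = 1)).card := by
    intro x
    exact MonoidHom.card_fiber_eq_of_mem_range (ZMod.unitsMap hqM) (hsurj x) (hsurj 1)
  obtain ⟨K, hK⟩ : ∃ K : ℕ, K =
    ((univ : Finset (ZMod M)ˣ).filter (fun v => ZMod.unitsMap hqM v = 1)).card := ⟨_, rfl⟩
  have h2 : ∀ G : (ZMod q)ˣ → ℂ, ∑ v : (ZMod M)ˣ, G (ZMod.unitsMap hqM v) = K * ∑ x, G x := by
    intro G
    rw [← sum_fiberwise (univ : Finset (ZMod M)ˣ) (fun v => ZMod.unitsMap hqM v), mul_sum]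
    refine sum_congr rfl (fun x _ => ?_)
    rw [sum_congr rfl (fun v hv => by rw [(mem_filter.mp hv).2])]
    rw [sum_const, hfib x, ← hK, nsmul_eq_mul]
  rw [sum_congr rfl (fun v _ => h1 v)]
  rw [h2 (fun x => g (x : ZMod q).val)]
  have h3 : (Nat.totient M : ℂ) = K * Nat.totient q := by
    have h4 := h2 (fun _ => 1)
    simp only [sum_const, card_univ, nsmul_eq_mul, mul_one] at h4
    rw [ZMod.card_units_eq_totient, ZMod.card_units_eq_totient] at h4
    exact h4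
  have h5 : (Nat.totient M : ℂ) ≠ 0 := by exact_mod_cast (Nat.totient_pos.mpr hM).ne'
  have h6 : (Nat.totient q : ℂ) ≠ 0 := by exact_mod_cast (Nat.totient_pos.mpr hq).ne'
  have h7 : (K : ℂ) ≠ 0 := by
    intro h0; rw [h0, zero_mul] at h3; exact h5 h3
  rw [h3]
  field_simp

/-- first case: the two constants agree -/
theorem cA_eq_cB {h : ℤ[X]} {W q : ℕ} {a : ℤ} (hW : 0 < W) (hq : 0 < q)
    (hpr : ∀ p : ℕ, p.Prime → p ∣ q → p ∣ W) : cA h q a = cB h W q a := by
  have hco : ∀ n : ℕ, (n.Coprime W ↔ n.Coprime (q * W)) := by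
    intro n
    constructor
    · intro h1
      rw [Nat.coprime_mul_iff_right]
      refine ⟨?_, h1⟩
      by_contra h2
      obtain ⟨p, hp, hp1, hp2⟩ := Nat.Prime.not_coprime_iff_dvd.mp h2
      exact Nat.Prime.not_coprime_iff_dvd.mpr ⟨p, hp, hp1, hpr p hp hp2⟩ h1
    · intro h1
      exact (Nat.coprime_mul_iff_right.mp h1).2
  have hM : 0 < q * W := Nat.mul_pos hq hW
  have hφ : Nat.totient (q * W) = q * Nat.totient W := by
    rw [← card_coprime_range, ← card_coprime_mul, mul_comm W q]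
    congr 1
    ext n
    simp only [mem_filter, hco n]
  have h1 : cB h W q a = (1 / (Nat.totient (q * W) : ℂ)) *
      ∑ n ∈ (range (q * W)).filter (fun n => n.Coprime (q * W)), FF h q a n := by
    unfold cB
    rw [sum_filter, mul_sum, mul_sum]
    refine sum_congr rfl (fun n _ => ?_)
    unfold lamW
    by_cases hn : n.Coprime W
    · rw [if_pos hn, if_pos ((hco n).mp hn), hφ]
      have h5 : (Nat.totient W : ℂ) ≠ 0 := by exact_mod_cast (Nat.totient_pos.mpr hW).ne'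
      have h6 : (W : ℂ) ≠ 0 := by exact_mod_cast hW.ne'
      have h7 : (q : ℂ) ≠ 0 := by exact_mod_cast hq.ne'
      push_cast
      field_simp
    · rw [if_neg hn, if_neg (fun hc => hn ((hco n).mpr hc))]
      simp
  rw [h1, avg_units hq hM (dvd_mul_right q W) (FF h q a) (FF_mod h hq a)]
  rfl

/-- the two constants are close -/
theorem cA_sub_cB (h : ℤ[X]) (hd : 1 ≤ h.natDegree) (ε : ℝ) (hε : 0 < ε) :
    ∃ z : ℕ, ∀ W : ℕ, 0 < W → (∀ p : ℕ, p ≤ z → p.Prime → p ∣ W) → ∀ q : ℕ, 0 < q → ∀ a : ℤ,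
      IsCoprime a (q : ℤ) → ‖cA h q a - cB h W q a‖ ≤ ε := by
  obtain ⟨u, hu⟩ : ∃ u : ℝ, u = 1 + 6 / ε := ⟨_, rfl⟩
  have hu1 : 1 ≤ u := by rw [hu]; have : 0 ≤ 6 / ε := by positivity
                         linarith
  have hu0 : 0 < u := by linarith
  have h3u : 3 / u ≤ ε / 2 := by
    rw [div_le_iff₀ hu0, hu]
    have : ε / 2 * (1 + 6 / ε) = ε / 2 + 3 := by field_simp; ring
    linarith
  obtain ⟨P, hP⟩ := local_sum h hd u hu1
  refine ⟨max P ⌈4 / ε⌉₊, fun W hW hz q hq a haq => ?_⟩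
  by_cases hpr : ∀ p : ℕ, p.Prime → p ∣ q → p ∣ W
  · rw [cA_eq_cB hW hq hpr, sub_self, norm_zero]
    exact hε.le
  push Not at hpr
  obtain ⟨p, hp, hpq, hpW⟩ := hpr
  have hpz : max P ⌈4 / ε⌉₊ < p := by
    by_contra hc
    exact hpW (hz p (not_lt.mp hc) hp)
  have hpP : P < p := lt_of_le_of_lt (le_max_left _ _) hpz
  have hpe : 4 / ε < p := lt_of_le_of_lt (Nat.le_ceil _)
    (by exact_mod_cast lt_of_le_of_lt (le_max_right _ _) hpz)
  obtain ⟨k, q', hq'p, hqk⟩ := Nat.exists_eq_pow_mul_and_not_dvd hq.ne' p hp.ne_one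
  have hk : 1 ≤ k := by
    by_contra hc
    have : k = 0 := by omega
    rw [this, pow_zero, one_mul] at hqk
    exact hq'p (hqk ▸ hpq)
  rw [mul_comm] at hqk
  have hq'0 : 0 < q' := Nat.pos_of_ne_zero (fun h0 => hq'p (h0 ▸ dvd_zero p))
  have hpa : ¬ (p : ℤ) ∣ a := by
    intro h1
    have h2 : (p : ℤ) ∣ (q : ℤ) := Int.natCast_dvd_natCast.mpr hpq
    have h3 := haq.isUnit_of_dvd' h1 h2
    have h4 := (Nat.prime_iff_prime_int.mp hp).not_isUnit
    exact h4 h3
  subst hqk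
  have hB := cB_small (h := h) (a := a) hu0 hp hq'0 hW hk
    (fun b => hP p hp hpP k q' W hq'p hpW a hpa b hk)
  have hA := cA_small (h := h) (a := a) hu0 hp hq'0 hq'p hk
    (fun b => by
      have := hP p hp hpP k q' 1 hq'p hp.not_dvd_one a hpa b hk
      simpa only [mul_one] using this)
  refine (norm_sub_le _ _).trans ?_
  have hp0 : (0 : ℝ) < p := by exact_mod_cast hp.pos
  have h2p : 2 / (p : ℝ) ≤ ε / 2 := by
    rw [div_le_iff₀ hp0]
    rw [div_lt_iff₀ hε] at hpe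
    linarith
  have e1 : 2 / u + 1 / u = 3 / u := by ring
  linarith

end Pool.Agent.R486.PD.Maj
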