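import Pool.Agent.R486.PD.MajB

/-!
# Major arcs, part three: periodic functions, partial summation, variation of the phase
-/

set_option autoImplicit false

namespace Pool.Agent.R486.PD.Maj

open Finset Polynomial
open Pool.Agent.H807R2.Dav (ee norm_ee ee_add ee_int ee_add_int ee_zero)

lemma sum_Icc_shift {M : Type*} [AddCommMonoid M] (g : ℕ → M) (t : ℕ) :
    ∑ n ∈ Icc 1 t, g n = ∑ n ∈ range t, g (n + 1) := by
  induction t with
  | zero => simp
  | succ t ih => rw [sum_Icc_succ_top (by omega), ih, sum_range_succ]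

/-- partial sums of periodic functions -/
lemma periodic_sum {m : ℕ} (hm : 0 < m) {g : ℕ → ℂ} (hg : ∀ n j, g (n + m * j) = g n) {B : ℝ}
    (hB : ∀ n, ‖g n‖ ≤ B) (t : ℕ) :
    ‖∑ n ∈ Icc 1 t, g n - t * ((1 / (m : ℂ)) * ∑ n ∈ range m, g n)‖ ≤ 2 * m * B := by
  have hB0 : 0 ≤ B := (norm_nonneg _).trans (hB 0)
  have hm0 : (m : ℂ) ≠ 0 := by exact_mod_cast hm.ne'
  obtain ⟨g', hg'⟩ : ∃ g' : ℕ → ℂ, g' = fun n => g (n + 1) := ⟨_, rfl⟩
  have hper : ∀ n j, g' (n + m * j) = g' n := by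
    intro n j
    rw [hg']
    show g (n + m * j + 1) = g (n + 1)
    rw [show n + m * j + 1 = (n + 1) + m * j by ring, hg]
  have hsum : ∑ n ∈ range m, g' n = ∑ n ∈ range m, g n := by
    have h1 := sum_range_succ' g m
    have h2 := sum_range_succ g m
    have h3 : g m = g 0 := by
      have := hg 0 1
      rwa [zero_add, mul_one] at this
    rw [h1, h3] at h2
    rw [hg']
    exact add_right_cancel h2
  rw [sum_Icc_shift, ← hsum]
  have e0 : ∑ n ∈ range t, g (n + 1) = ∑ n ∈ range t, g' n := by rw [hg']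
  rw [e0]
  have ht := Nat.mod_add_div t m
  obtain ⟨r, hr⟩ : ∃ r, r = t % m := ⟨_, rfl⟩
  obtain ⟨j, hj⟩ : ∃ j, j = t / m := ⟨_, rfl⟩
  rw [← hr, ← hj] at ht
  have hrm : r < m := by rw [hr]; exact Nat.mod_lt _ hm
  have e1 : ∑ n ∈ range t, g' n = j * ∑ n ∈ range m, g' n + ∑ n ∈ range r, g' n := by
    rw [← ht, add_comm r, sum_range_add, sum_range_mul']
    congr 1
    · rw [mul_sum]
      refine sum_congr rfl (fun b _ => ?_)
      simp only [hper, sum_const, card_range, nsmul_eq_mul]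
    · refine sum_congr rfl (fun n _ => ?_)
      rw [add_comm, hper]
  have e2 : (t : ℂ) = r + m * j := by rw [← ht]; push_cast; ring
  have e3 : ∑ n ∈ range t, g' n - t * ((1 / (m : ℂ)) * ∑ n ∈ range m, g' n) =
      ∑ n ∈ range r, g' n - r / m * ∑ n ∈ range m, g' n := by
    rw [e1, e2]; field_simp; ring
  rw [e3]
  have hb : ∀ k, ‖∑ n ∈ range k, g' n‖ ≤ k * B := by
    intro k
    have hB' : ∀ n, ‖g' n‖ ≤ B := fun n => by rw [hg']; exact hB _
    refine (norm_sum_le_of_le _ (fun n _ => hB' n)).trans ?_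
    rw [sum_const, card_range, nsmul_eq_mul]
  have hmR : (0 : ℝ) < m := by exact_mod_cast hm
  have hrR : (r : ℝ) ≤ m := by exact_mod_cast hrm.le
  refine (norm_sub_le _ _).trans ?_
  have h1 := hb r
  have h2 : ‖(r : ℂ) / m * ∑ n ∈ range m, g' n‖ ≤ m * B := by
    rw [norm_mul, norm_div, Complex.norm_natCast, Complex.norm_natCast]
    calc (r : ℝ) / m * ‖∑ n ∈ range m, g' n‖ ≤ 1 * (m * B) :=
          mul_le_mul (by rw [div_le_one hmR]; exact hrR) (hb m) (norm_nonneg _) (by norm_num)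
      _ = m * B := one_mul _
  have h3 : (r : ℝ) * B ≤ m * B := mul_le_mul_of_nonneg_right hrR hB0
  linarith

/-- partial summation -/
lemma abel {D w : ℕ → ℂ} {E : ℝ} : ∀ N : ℕ, (∀ t, t ≤ N → ‖∑ n ∈ Icc 1 t, D n‖ ≤ E) →
    (∀ n, ‖w n‖ ≤ 1) → ‖∑ n ∈ Icc 1 N, D n * w n‖ ≤
      E * (1 + ∑ n ∈ Ico 1 N, ‖w (n + 1) - w n‖) := by
  intro N hE hw
  have key : ∀ N : ℕ, ∑ n ∈ Icc 1 N, D n * w n = (∑ n ∈ Icc 1 N, D n) * w N -
      ∑ n ∈ Ico 1 N, (∑ k ∈ Icc 1 n, D k) * (w (n + 1) - w n) := by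
    intro N
    induction N with
    | zero => simp
    | succ N ih =>
      rw [sum_Icc_succ_top (by omega), ih, sum_Icc_succ_top (by omega)]
      rcases Nat.eq_zero_or_pos N with h0 | h0
      · subst h0; simp
      · rw [sum_Ico_succ_top (by omega)]
        ring
  rw [key N]
  have hE0 : 0 ≤ E := (norm_nonneg _).trans (hE 0 (Nat.zero_le _))
  refine (norm_sub_le _ _).trans ?_
  rw [mul_add, mul_one, mul_sum]
  refine add_le_add ?_ ?_
  · rw [norm_mul]
    calc _ ≤ E * 1 := mul_le_mul (hE N le_rfl) (hw N) (norm_nonneg _) hE0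
      _ = E := mul_one _
  · refine norm_sum_le_of_le _ (fun n hn => ?_)
    rw [norm_mul]
    exact mul_le_mul_of_nonneg_right (hE n (by have := (mem_Ico.mp hn).2; omega)) (norm_nonneg _)

/-- polynomials are bounded by their leading power -/
lemma poly_bound (f : ℤ[X]) (d : ℕ) (hd : f.natDegree ≤ d) : ∃ C : ℝ, 0 ≤ C ∧ ∀ n : ℕ, 1 ≤ n →
    |((f.eval (n : ℤ) : ℤ) : ℝ)| ≤ C * (n : ℝ) ^ d := by
  refine ⟨∑ i ∈ range (f.natDegree + 1), |((f.coeff i : ℤ) : ℝ)|,
    sum_nonneg (fun _ _ => abs_nonneg _), fun n hn => ?_⟩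
  have hn1 : (1 : ℝ) ≤ n := by exact_mod_cast hn
  rw [eval_eq_sum_range]
  push_cast
  refine (abs_sum_le_sum_abs _ _).trans ?_
  rw [sum_mul]
  refine sum_le_sum (fun i hi => ?_)
  rw [abs_mul, abs_of_nonneg (by positivity : (0 : ℝ) ≤ (n : ℝ) ^ i)]
  refine mul_le_mul_of_nonneg_left ?_ (abs_nonneg _)
  exact pow_le_pow_right₀ hn1 (by have := mem_range.mp hi; omega)

/-- variation of a polynomial -/
lemma poly_var (h : ℤ[X]) (hd : 1 ≤ h.natDegree) : ∃ C : ℝ, 0 ≤ C ∧ ∀ N : ℕ,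
    ∑ n ∈ Ico 1 N, |((h.eval ((n + 1 : ℕ) : ℤ) : ℤ) : ℝ) - ((h.eval (n : ℤ) : ℤ) : ℝ)| ≤
      C * (N : ℝ) ^ h.natDegree := by
  obtain ⟨g, hg⟩ : ∃ g : ℤ[X], g = taylor 1 h - h := ⟨_, rfl⟩
  have hgd : g.natDegree ≤ h.natDegree - 1 := by
    have h1 : g.natDegree < h.natDegree := by
      have hne : h ≠ 0 := by rintro rfl; simp at hd
      by_cases hg0 : g = 0
      · rw [hg0, natDegree_zero]; omega
      · have h2 : g.degree < h.degree := by
          rw [hg]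
          have h3 : (taylor 1 h).degree = h.degree := by
            rw [degree_eq_natDegree hne, degree_eq_natDegree (by
              intro h0
              exact hne (taylor_injective (1 : ℤ) (by rw [h0, map_zero]))), natDegree_taylor]
          have h4 : (taylor 1 h).degree = h.degree := h3
          rw [← h4]
          refine degree_sub_lt_left h4 ?_ ?_
          · intro h0
            exact hne (taylor_injective (1 : ℤ) (by rw [h0, map_zero]))
          · rw [leadingCoeff, natDegree_taylor, leadingCoeff]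
            rw [taylor_coeff]
            have h5 : (hasseDeriv h.natDegree h).natDegree = 0 := by
              have := natDegree_hasseDeriv_le h h.natDegree
              omega
            rw [eq_C_of_natDegree_eq_zero h5, eval_C, hasseDeriv_coeff]
            simp
        exact natDegree_lt_natDegree hg0 h2
    omega
  obtain ⟨C, hC, hbound⟩ := poly_bound g (h.natDegree - 1) hgd
  refine ⟨C, hC, fun N => ?_⟩
  have h1 : ∀ n ∈ Ico 1 N, |((h.eval ((n + 1 : ℕ) : ℤ) : ℤ) : ℝ) - ((h.eval (n : ℤ) : ℤ) : ℝ)| ≤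
      C * (N : ℝ) ^ (h.natDegree - 1) := by
    intro n hn
    rw [mem_Ico] at hn
    have h2 : ((g.eval (n : ℤ) : ℤ) : ℝ) =
        ((h.eval ((n + 1 : ℕ) : ℤ) : ℤ) : ℝ) - ((h.eval (n : ℤ) : ℤ) : ℝ) := by
      rw [hg, eval_sub, taylor_eval]
      push_cast
      ring_nf
    rw [← h2]
    refine (hbound n hn.1).trans (mul_le_mul_of_nonneg_left ?_ hC)
    exact pow_le_pow_left₀ (Nat.cast_nonneg _) (by exact_mod_cast hn.2.le) _
  refine (sum_le_sum h1).trans ?_
  rw [sum_const, Nat.card_Ico, nsmul_eq_mul]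
  rcases Nat.eq_zero_or_pos N with h0 | h0
  · subst h0
    simp only [Nat.zero_sub, Nat.cast_zero, zero_mul]
    positivity
  · have h3 : ((N - 1 : ℕ) : ℝ) ≤ N := by exact_mod_cast Nat.sub_le _ _
    have h4 : (N : ℝ) ^ h.natDegree = N * (N : ℝ) ^ (h.natDegree - 1) := by
      rw [← pow_succ']; congr 1; omega
    rw [h4]
    have h5 : 0 ≤ C * (N : ℝ) ^ (h.natDegree - 1) := by positivity
    calc ((N - 1 : ℕ) : ℝ) * (C * (N : ℝ) ^ (h.natDegree - 1)) ≤
          N * (C * (N : ℝ) ^ (h.natDegree - 1)) := mul_le_mul_of_nonneg_right h3 h5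
      _ = C * (N * (N : ℝ) ^ (h.natDegree - 1)) := by ring

lemma ee_sub_le (x y : ℝ) : ‖ee x - ee y‖ ≤ 2 * Real.pi * |x - y| := by
  have h1 : ee x - ee y = ee y * (ee (x - y) - 1) := by
    rw [mul_sub, ← ee_add, mul_one]; congr 2; ring
  rw [h1, norm_mul, norm_ee, one_mul, norm_sub_rev]
  exact Pool.Agent.H807R2.Dav.dd_le (x - y)

/-- splitting the phase at a rational point -/
lemma phase_split (h : ℤ[X]) {q : ℕ} (a : ℤ) (θ : ℝ) (n : ℕ) :
    ee (θ * ((h.eval (n : ℤ) : ℤ) : ℝ)) = FF h q a n *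
      ee ((θ - (a : ℝ) / q) * ((h.eval (n : ℤ) : ℤ) : ℝ)) := by
  unfold FF
  rw [← ee_add]
  congr 1
  ring

/-- the main comparison, with the arithmetic input as a hypothesis -/
theorem compare (h : ℤ[X]) {V : ℝ} (hV : ∀ N : ℕ,
    ∑ n ∈ Ico 1 N, |((h.eval ((n + 1 : ℕ) : ℤ) : ℤ) : ℝ) - ((h.eval (n : ℤ) : ℤ) : ℝ)| ≤
      V * (N : ℝ) ^ h.natDegree) (_hV0 : 0 ≤ V) {W q N : ℕ} (hW : 0 < W) (hq : 0 < q) (a : ℤ)
    {E1 : ℝ} (hE1 : ∀ t ≤ N, ‖∑ n ∈ Icc 1 t, ((ArithmeticFunction.vonMangoldt n : ℝ) : ℂ) *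
      FF h q a n - t * cA h q a‖ ≤ E1) (θ : ℝ) :
    ‖SLam h N θ - SMod h W N θ‖ ≤ ‖cA h q a - cB h W q a‖ * N +
      (E1 + 2 * (q * W) * W) * (1 + 2 * Real.pi * |θ - a / q| * (V * (N : ℝ) ^ h.natDegree)) := by
  obtain ⟨β, hβ⟩ : ∃ β : ℝ, β = θ - a / q := ⟨_, rfl⟩
  obtain ⟨w, hw⟩ : ∃ w : ℕ → ℂ, w = fun n : ℕ => ee (β * ((h.eval (n : ℤ) : ℤ) : ℝ)) := ⟨_, rfl⟩
  have hw1 : ∀ n, ‖w n‖ ≤ 1 := fun n => by rw [hw]; exact (norm_ee _).le
  obtain ⟨D, hD⟩ : ∃ D : ℕ → ℂ, D = fun n =>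
    ((ArithmeticFunction.vonMangoldt n : ℝ) : ℂ) * FF h q a n -
      ((lamW W n : ℝ) : ℂ) * FF h q a n - (cA h q a - cB h W q a) := ⟨_, rfl⟩
  have hE2 : ∀ t : ℕ, ‖∑ n ∈ Icc 1 t, ((lamW W n : ℝ) : ℂ) * FF h q a n - t * cB h W q a‖ ≤
      2 * (q * W) * W := by
    intro t
    have h1 := periodic_sum (m := q * W) (Nat.mul_pos hq hW)
      (g := fun n => ((lamW W n : ℝ) : ℂ) * FF h q a n)
      (fun n j => by
        have h2 : n + q * W * j = n + W * (q * j) := by ring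
        have h3 : n + q * W * j = n + q * (W * j) := by ring
        have h4 : lamW W (n + q * W * j) = lamW W n := by rw [h2, lamW_add]
        have h5 : FF h q a (n + q * W * j) = FF h q a n := by rw [h3, FF_add h hq]
        simp only [h4, h5]) (B := W)
      (fun n => by
        rw [norm_mul, norm_FF, mul_one, Complex.norm_real, Real.norm_of_nonneg (lamW_nonneg W n)]
        exact lamW_le hW n) t
    push_cast at h1
    unfold cB
    push_cast
    exact h1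
  have hDs : ∀ t, t ≤ N → ‖∑ n ∈ Icc 1 t, D n‖ ≤ E1 + 2 * (q * W) * W := by
    intro t ht
    have h1 : ∑ n ∈ Icc 1 t, D n =
        (∑ n ∈ Icc 1 t, ((ArithmeticFunction.vonMangoldt n : ℝ) : ℂ) * FF h q a n - t * cA h q a) -
        (∑ n ∈ Icc 1 t, ((lamW W n : ℝ) : ℂ) * FF h q a n - t * cB h W q a) := by
      rw [hD, sum_sub_distrib, sum_sub_distrib, sum_const, Nat.card_Icc, nsmul_eq_mul,
        Nat.add_sub_cancel]
      ring
    rw [h1]
    exact (norm_sub_le _ _).trans (add_le_add (hE1 t ht) (hE2 t))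
  have hab := abel N hDs hw1
  have hvar : ∑ n ∈ Ico 1 N, ‖w (n + 1) - w n‖ ≤
      2 * Real.pi * |β| * (V * (N : ℝ) ^ h.natDegree) := by
    have h1 : ∀ n ∈ Ico 1 N, ‖w (n + 1) - w n‖ ≤ 2 * Real.pi * |β| *
        |((h.eval ((n + 1 : ℕ) : ℤ) : ℤ) : ℝ) - ((h.eval (n : ℤ) : ℤ) : ℝ)| := by
      intro n _
      rw [hw]
      refine (ee_sub_le _ _).trans (le_of_eq ?_)
      rw [← mul_sub, abs_mul]
      ring
    refine (sum_le_sum h1).trans ?_
    rw [← mul_sum]
    exact mul_le_mul_of_nonneg_left (hV N) (by positivity)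
  have hsplit : SLam h N θ - SMod h W N θ = ∑ n ∈ Icc 1 N, D n * w n +
      (cA h q a - cB h W q a) * ∑ n ∈ Icc 1 N, w n := by
    unfold SLam SMod
    rw [← sum_sub_distrib, mul_sum, ← sum_add_distrib]
    refine sum_congr rfl (fun n _ => ?_)
    rw [phase_split h (q := q) a θ n, hD, hw, hβ]
    ring
  rw [hsplit, ← hβ]
  have hwsum : ‖∑ n ∈ Icc 1 N, w n‖ ≤ N := by
    refine (norm_sum_le_of_le _ (fun n _ => hw1 n)).trans ?_
    simp
  have hE0 : 0 ≤ E1 + 2 * (q * W) * W := (norm_nonneg _).trans (hDs 0 (Nat.zero_le _))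
  refine (norm_add_le _ _).trans ?_
  rw [norm_mul, add_comm]
  refine add_le_add (mul_le_mul_of_nonneg_left hwsum (norm_nonneg _)) ?_
  refine hab.trans (mul_le_mul_of_nonneg_left ?_ hE0)
  linarith

end Pool.Agent.R486.PD.Maj
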