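import Mathlib
import Pool.Agent.R486.PD.Local
import Pool.Agent.H373R2.T7.LamMaj

/-! The major arcs (helper398, for helper486). -/

set_option autoImplicit false

namespace Pool.Agent.R486.PD

open Finset Polynomial
open Pool.Agent.H807R2.Dav (ee ee_add norm_ee ee_int ee_add_int dd dd_le)

lemma abel (g v : ℕ → ℂ) (N : ℕ) : ∑ n ∈ range N, g (n + 1) * v (n + 1) =
    (∑ i ∈ range N, g (i + 1)) * v N - ∑ n ∈ range N, (∑ i ∈ range n, g (i + 1)) * (v (n + 1) - v n) := by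
  induction N with
  | zero => simp
  | succ N ih =>
    rw [sum_range_succ, ih, sum_range_succ (fun i => g (i + 1)),
      sum_range_succ (fun n => (∑ i ∈ range n, g (i + 1)) * (v (n + 1) - v n))]
    ring

lemma abel_bound (g v : ℕ → ℂ) (N : ℕ) (E V : ℝ) (hE : 0 ≤ E) (hv : ‖v N‖ ≤ 1)
    (hG : ∀ n, n ≤ N → ‖∑ i ∈ range n, g (i + 1)‖ ≤ E) (hV : ∀ n, n < N → ‖v (n + 1) - v n‖ ≤ V) :
    ‖∑ n ∈ range N, g (n + 1) * v (n + 1)‖ ≤ E * (1 + N * V) := by
  rw [abel]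
  refine (norm_sub_le _ _).trans ?_
  have h1 : ‖(∑ i ∈ range N, g (i + 1)) * v N‖ ≤ E * 1 := by
    rw [norm_mul]
    exact mul_le_mul (hG N le_rfl) hv (norm_nonneg _) hE
  have h2 : ‖∑ n ∈ range N, (∑ i ∈ range n, g (i + 1)) * (v (n + 1) - v n)‖ ≤ N * (E * V) := by
    refine (norm_sum_le _ _).trans ?_
    calc ∑ n ∈ range N, ‖(∑ i ∈ range n, g (i + 1)) * (v (n + 1) - v n)‖ ≤ ∑ n ∈ range N, E * V := by
          apply sum_le_sum
          intro n hn
          rw [mem_range] at hn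
          rw [norm_mul]
          exact mul_le_mul (hG n hn.le) (hV n hn) (norm_nonneg _) hE
      _ = N * (E * V) := by rw [sum_const, card_range, nsmul_eq_mul]
  calc _ ≤ E * 1 + N * (E * V) := add_le_add h1 h2
    _ = _ := by ring

lemma incr (h : ℤ[X]) : ∃ K : ℕ, ∀ N n : ℕ, n < N →
    |((h.eval (((n + 1 : ℕ) : ℤ)) - h.eval (n : ℤ) : ℤ) : ℝ)| ≤ K * (N : ℝ) ^ (h.natDegree - 1) := by
  refine ⟨∑ i ∈ range (h.natDegree + 1), (h.coeff i).natAbs * i, fun N n hn => ?_⟩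
  have hN1 : (1 : ℝ) ≤ N := by exact_mod_cast (by omega : 1 ≤ N)
  rw [eval_eq_sum_range, eval_eq_sum_range, ← sum_sub_distrib]
  push_cast
  rw [sum_mul]
  refine (abs_sum_le_sum_abs _ _).trans (sum_le_sum fun i hi => ?_)
  rw [mem_range] at hi
  rw [← mul_sub, abs_mul]
  have e1 : ((h.coeff i).natAbs : ℝ) = |((h.coeff i : ℤ) : ℝ)| := by
    rw [Nat.cast_natAbs, Int.cast_abs]
  rw [← e1, mul_assoc]
  apply mul_le_mul_of_nonneg_left _ (Nat.cast_nonneg _)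
  have h1 := abs_pow_sub_pow_le ((n : ℝ) + 1) (n : ℝ) i
  have h2 : max |(n : ℝ) + 1| |(n : ℝ)| ≤ N := by
    have h3 : (n : ℝ) + 1 ≤ N := by exact_mod_cast hn
    rw [abs_of_nonneg (by positivity), abs_of_nonneg (by positivity)]
    exact max_le h3 (by linarith)
  have h0 : 0 ≤ max |(n : ℝ) + 1| |(n : ℝ)| := le_max_of_le_left (abs_nonneg _)
  rw [show (n : ℝ) + 1 - n = 1 by ring, abs_one, one_mul] at h1
  refine h1.trans (mul_le_mul_of_nonneg_left ?_ (Nat.cast_nonneg _))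
  calc (max |(n : ℝ) + 1| |(n : ℝ)|) ^ (i - 1) ≤ (N : ℝ) ^ (i - 1) := pow_le_pow_left₀ h0 h2 _
    _ ≤ (N : ℝ) ^ (h.natDegree - 1) := pow_le_pow_right₀ hN1 (by omega)

lemma ee_lip (x y : ℝ) : ‖ee x - ee y‖ ≤ 2 * Real.pi * |x - y| := by
  have h1 : ee x - ee y = -(ee y * (1 - ee (x - y))) := by
    have : ee x = ee y * ee (x - y) := by rw [← ee_add]; congr 1; ring
    rw [this]; ring
  rw [h1, norm_neg, norm_mul, norm_ee, one_mul]
  exact dd_le (x - y)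

lemma by_class (F : ℕ → ℝ) (G : ℕ → ℂ) (M t : ℕ) (hM : 0 < M) (hG : ∀ n, G n = G (n % M)) :
    ∑ n ∈ Icc 1 t, ((F n : ℝ) : ℂ) * G n =
      ∑ c ∈ range M, ((∑ n ∈ (Icc 1 t).filter (fun n => n ≡ c [MOD M]), F n : ℝ) : ℂ) * G c := by
  rw [← sum_fiberwise_of_maps_to (s := Icc 1 t) (t := range M) (g := fun n => n % M)
    (fun n _ => mem_range.2 (Nat.mod_lt n hM))]
  apply sum_congr rfl
  intro c hc
  rw [mem_range] at hc
  have h1 : (Icc 1 t).filter (fun n => n % M = c) = (Icc 1 t).filter (fun n => n ≡ c [MOD M]) := by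
    apply filter_congr
    intro n _
    unfold Nat.ModEq
    rw [Nat.mod_eq_of_lt hc]
  rw [h1]
  push_cast
  rw [sum_mul]
  apply sum_congr rfl
  intro n hn
  rw [mem_filter] at hn
  have h2 : n % M = c := by
    have := hn.2
    unfold Nat.ModEq at this
    rwa [Nat.mod_eq_of_lt hc] at this
  rw [hG n, h2]

lemma count_class (M t c : ℕ) (hM : 0 < M) :
    |(#((Icc 1 t).filter (fun n => n ≡ c [MOD M])) : ℝ) - t / M| ≤ 1 := by
  have h1 := Nat.Ioc_filter_modEq_card 0 t hM c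
  have h2 : Ioc 0 t = Icc 1 t := by
    ext n; rw [mem_Ioc, mem_Icc]; omega
  rw [h2] at h1
  have hM0 : (0 : ℚ) < M := by exact_mod_cast hM
  have key : |(#((Icc 1 t).filter (fun n => n ≡ c [MOD M])) : ℚ) - t / M| ≤ 1 := by
    have h3 : (#((Icc 1 t).filter (fun n => n ≡ c [MOD M])) : ℚ) =
        ((max (⌊((t : ℚ) - c) / (M : ℚ)⌋ - ⌊(((0 : ℕ) : ℚ) - c) / (M : ℚ)⌋) 0 : ℤ) : ℚ) := by
      rw [← h1]; push_cast; rfl
    rw [h3]
    have h4 := Int.floor_le (((t : ℚ) - c) / (M : ℚ))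
    have h5 := Int.lt_floor_add_one (((t : ℚ) - c) / (M : ℚ))
    have h6 := Int.floor_le ((((0 : ℕ) : ℚ) - c) / (M : ℚ))
    have h7 := Int.lt_floor_add_one ((((0 : ℕ) : ℚ) - c) / (M : ℚ))
    have h8 : ((t : ℚ) - c) / (M : ℚ) = t / M + (((0 : ℕ) : ℚ) - c) / (M : ℚ) := by
      push_cast; ring
    have h9 : (0 : ℚ) ≤ t / M := by positivity
    have h10 : ⌊(((0 : ℕ) : ℚ) - c) / (M : ℚ)⌋ ≤ ⌊((t : ℚ) - c) / (M : ℚ)⌋ := by
      apply Int.floor_le_floor
      linarith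
    rw [max_eq_left (by omega)]
    push_cast at *
    rw [abs_le]
    constructor <;> linarith
  have h := (Rat.cast_le (K := ℝ)).2 key
  push_cast at h
  exact h

lemma class_lamW (W M t c : ℕ) (hW : 0 < W) (hM : 0 < M) (hWM : W ∣ M) :
    |∑ n ∈ (Icc 1 t).filter (fun n => n ≡ c [MOD M]), lamW W n - t * (lamW W c / M)| ≤ W := by
  have h1 : ∑ n ∈ (Icc 1 t).filter (fun n => n ≡ c [MOD M]), lamW W n =
      (#((Icc 1 t).filter (fun n => n ≡ c [MOD M])) : ℝ) * lamW W c := by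
    rw [sum_congr rfl (g := fun _ => lamW W c), sum_const, nsmul_eq_mul]
    intro n hn
    rw [mem_filter] at hn
    unfold lamW
    have h2 : n.Coprime W ↔ c.Coprime W := by
      unfold Nat.Coprime
      rw [(hn.2.of_dvd hWM).gcd_eq]
    simp only [h2]
  rw [h1]
  have h3 : (#((Icc 1 t).filter (fun n => n ≡ c [MOD M])) : ℝ) * lamW W c - t * (lamW W c / M) =
      ((#((Icc 1 t).filter (fun n => n ≡ c [MOD M])) : ℝ) - t / M) * lamW W c := by ring
  rw [h3, abs_mul, abs_of_nonneg (lamW_nonneg W c)]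
  calc _ ≤ 1 * lamW W c := mul_le_mul_of_nonneg_right (count_class M t c hM) (lamW_nonneg W c)
    _ ≤ W := by rw [one_mul]; exact lamW_le W c hW

/-- partial sums -/
lemma partial_sum (h : ℤ[X]) (a : ℤ) (q W : ℕ) (hq : 0 < q) (hW : 0 < W) (t : ℕ) (D : ℝ)
    (hD : ∀ c : ℕ, |∑ n ∈ (Icc 1 t).filter (fun n => n ≡ c [MOD (W * q)]), ArithmeticFunction.vonMangoldt n -
      (if c.Coprime (W * q) then (t : ℝ) / (Nat.totient (W * q) : ℝ) else 0)| ≤ D) :
    ‖∑ n ∈ Icc 1 t, (((ArithmeticFunction.vonMangoldt n - lamW W n : ℝ) : ℂ) *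
      ee ((a : ℝ) / q * ((h.eval (n : ℤ) : ℤ) : ℝ)) - (cL h a q (W * q) - cW h a q W (W * q)))‖ ≤
      ((W * q : ℕ) : ℝ) * (D + W) := by
  have hM : 0 < W * q := Nat.mul_pos hW hq
  rw [sum_sub_distrib, sum_const, Nat.card_Icc, Nat.add_sub_cancel, nsmul_eq_mul]
  rw [by_class (fun n => ArithmeticFunction.vonMangoldt n - lamW W n)
    (fun n => ee ((a : ℝ) / q * ((h.eval (n : ℤ) : ℤ) : ℝ))) (W * q) t hM
    (fun n => by
      apply ee_cong h hq
      have h1 : (q : ℤ) ∣ ((W * q : ℕ) : ℤ) := by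
        rw [Int.natCast_dvd_natCast]; exact Dvd.intro_left W rfl
      refine h1.trans ?_
      rw [← Nat.modEq_iff_dvd]
      exact Nat.mod_modEq n (W * q))]
  unfold cL cW
  rw [← sum_sub_distrib, mul_sum, ← sum_sub_distrib]
  refine (norm_sum_le _ _).trans ?_
  calc _ ≤ ∑ c ∈ range (W * q), (D + W) := by
        apply sum_le_sum
        intro c _
        have h1 : ((∑ n ∈ (Icc 1 t).filter (fun n => n ≡ c [MOD (W * q)]), (ArithmeticFunction.vonMangoldt n - lamW W n) : ℝ) : ℂ) *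
              ee ((a : ℝ) / q * ((h.eval (c : ℤ) : ℤ) : ℝ)) -
            (t : ℂ) * ((((if c.Coprime (W * q) then (1 : ℝ) / (W * q).totient else 0 : ℝ)) : ℂ) *
              ee ((a : ℝ) / q * ((h.eval (c : ℤ) : ℤ) : ℝ)) -
              ((lamW W c / ((W * q : ℕ) : ℝ) : ℝ) : ℂ) * ee ((a : ℝ) / q * ((h.eval (c : ℤ) : ℤ) : ℝ))) =
            (((∑ n ∈ (Icc 1 t).filter (fun n => n ≡ c [MOD (W * q)]), ArithmeticFunction.vonMangoldt n -
              (if c.Coprime (W * q) then (t : ℝ) / (Nat.totient (W * q) : ℝ) else 0)) -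
              (∑ n ∈ (Icc 1 t).filter (fun n => n ≡ c [MOD (W * q)]), lamW W n - t * (lamW W c / ((W * q : ℕ) : ℝ))) : ℝ) : ℂ) *
              ee ((a : ℝ) / q * ((h.eval (c : ℤ) : ℤ) : ℝ)) := by
          rw [sum_sub_distrib]
          by_cases hc : c.Coprime (W * q)
          · rw [if_pos hc, if_pos hc]
            push_cast
            ring
          · rw [if_neg hc, if_neg hc]
            push_cast
            ring
        rw [h1, norm_mul, norm_ee, mul_one, Complex.norm_real, Real.norm_eq_abs]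
        exact (abs_sub _ _).trans (add_le_add (hD c) (class_lamW W (W * q) t c hW hM (Dvd.intro q rfl)))
    _ = _ := by rw [sum_const, card_range, nsmul_eq_mul]

lemma near_coprime {d N : ℕ} {Q θ : ℝ} (hn : Near d N Q θ) : ∃ q : ℕ, 1 ≤ q ∧ (q : ℝ) ≤ Q ∧ ∃ a : ℤ,
    IsCoprime a (q : ℤ) ∧ |q * θ - a| ≤ Q / (N : ℝ) ^ d := by
  obtain ⟨q, hq1, hq2, a, ha⟩ := hn
  have hg : 0 < Int.gcd a q := Int.gcd_pos_of_ne_zero_right a (by omega)
  obtain ⟨g, a', n', hg0, hcop, ha', hn'⟩ := Int.exists_gcd_one' hg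
  have hn0 : 0 < n' := by
    by_contra hcon
    push Not at hcon
    have : (q : ℤ) ≤ 0 := by rw [hn']; exact mul_nonpos_of_nonpos_of_nonneg hcon (by positivity)
    omega
  obtain ⟨q', rfl⟩ : ∃ q' : ℕ, n' = q' := ⟨n'.toNat, (Int.toNat_of_nonneg hn0.le).symm⟩
  have hgr : (1 : ℝ) ≤ g := by exact_mod_cast hg0
  have hqq : q = q' * g := by exact_mod_cast hn'
  have hq'q : (q' : ℝ) ≤ q := by
    rw [hqq]; push_cast
    have : (0 : ℝ) ≤ q' := Nat.cast_nonneg _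
    nlinarith
  refine ⟨q', by exact_mod_cast hn0, hq'q.trans hq2, a', Int.isCoprime_iff_gcd_eq_one.2 hcop, ?_⟩
  refine le_trans ?_ ha
  have h1 : (q : ℝ) * θ - a = g * (q' * θ - a') := by
    rw [hqq, ha']; push_cast; ring
  rw [h1, abs_mul, abs_of_nonneg (by linarith : (0 : ℝ) ≤ g)]
  have := abs_nonneg ((q' : ℝ) * θ - a')
  nlinarith

theorem majorArcs : MajorArcs := by
  intro h hd ε hε
  obtain ⟨z, hz⟩ := coeff_close h hd (ε / 2) (by positivity)
  refine ⟨z, fun W hW hpW C => ?_⟩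
  obtain ⟨K, hK⟩ := incr h
  obtain ⟨N0, hN0⟩ := Pool.Agent.H373R2.T7.lam_ap (C + 1) (2 * C + 1)
  obtain ⟨A, hA⟩ : ∃ A : ℝ, A = W * (1 + 2 * Real.pi * K) := ⟨_, rfl⟩
  have hW1 : (1 : ℝ) ≤ W := by exact_mod_cast hW
  have hpi := Real.pi_pos
  have hA0 : 0 < A := by rw [hA]; positivity
  obtain ⟨n1, h1⟩ := Pool.Agent.H373R2.T7.ev_log' (2 * C) (4 * A * W / ε)
  obtain ⟨n2, h2⟩ := Pool.Agent.H373R2.T7.ev_L' (max (max 1 (W : ℝ)) (4 * A / ε))
  refine ⟨max (max N0 n1) (max n2 1), fun N hN θ hn => ?_⟩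
  have b0 := hN0 N (le_trans (le_trans (le_max_left _ _) (le_max_left _ _)) hN)
  have b1 := h1 N (le_trans (le_trans (le_max_right _ _) (le_max_left _ _)) hN)
  have b2 := h2 N (le_trans (le_trans (le_max_left _ _) (le_max_right _ _)) hN)
  have b3 : 1 ≤ N := le_trans (le_trans (le_max_right _ _) (le_max_right _ _)) hN
  have hNr : (1 : ℝ) ≤ N := by exact_mod_cast b3
  have hNp : (0 : ℝ) < N := by linarith
  obtain ⟨L, hL⟩ : ∃ L : ℝ, L = Real.log N := ⟨_, rfl⟩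
  rw [← hL] at b0 b1 b2 hn
  have hL1 : 1 ≤ L := le_trans (le_trans (le_max_left _ _) (le_max_left _ _)) b2
  have hLW : (W : ℝ) ≤ L := le_trans (le_trans (le_max_right _ _) (le_max_left _ _)) b2
  have hLA : 4 * A / ε ≤ L := le_trans (le_max_right _ _) b2
  have hL0 : 0 < L := by linarith
  obtain ⟨q, hq1, hq2, a, hcop, ha⟩ := near_coprime hn
  have hq0 : (0 : ℝ) < q := by exact_mod_cast hq1
  have hqr : (1 : ℝ) ≤ q := by exact_mod_cast hq1
  have hM : ((W * q : ℕ) : ℝ) ≤ L ^ (C + 1) := by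
    push_cast
    calc (W : ℝ) * q ≤ L * L ^ C := mul_le_mul hLW hq2 hq0.le hL0.le
      _ = _ := by ring
  have hM1 : 1 ≤ W * q := Nat.mul_pos hW hq1
  obtain ⟨κ, hκ⟩ : ∃ κ : ℂ, κ = cL h a q (W * q) - cW h a q W (W * q) := ⟨_, rfl⟩
  have hκn : ‖κ‖ ≤ ε / 2 := by rw [hκ]; exact hz W hW hpW q hq1 a hcop
  obtain ⟨β, hβ⟩ : ∃ β : ℝ, β = θ - a / q := ⟨_, rfl⟩
  have hβn : |β| ≤ L ^ C / (N : ℝ) ^ h.natDegree := by
    have e1 : (q : ℝ) * θ - a = q * β := by rw [hβ]; field_simp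
    rw [e1, abs_mul, abs_of_pos hq0] at ha
    have := abs_nonneg β
    nlinarith
  obtain ⟨g, hg⟩ : ∃ g : ℕ → ℂ, g = fun n => ((ArithmeticFunction.vonMangoldt n - lamW W n : ℝ) : ℂ) *
      ee ((a : ℝ) / q * ((h.eval (n : ℤ) : ℤ) : ℝ)) - κ := ⟨_, rfl⟩
  obtain ⟨v, hv⟩ : ∃ v : ℕ → ℂ, v = fun n : ℕ => ee (β * ((h.eval (n : ℤ) : ℤ) : ℝ)) := ⟨_, rfl⟩
  have hvn : ∀ n, ‖v n‖ = 1 := by intro n; rw [hv]; exact norm_ee _
  have hG : ∀ n, n ≤ N → ‖∑ i ∈ range n, g (i + 1)‖ ≤ W * L ^ C * (N / L ^ (2 * C + 1) + W) := by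
    intro n hn
    rw [← sum_Icc_one' g n, hg]
    simp only
    rw [hκ]
    refine (partial_sum h a q W hq1 hW n (N / L ^ (2 * C + 1)) (fun c => b0 (W * q) hM1 hM c n hn)).trans ?_
    apply mul_le_mul_of_nonneg_right _ (by positivity)
    push_cast
    exact mul_le_mul_of_nonneg_left hq2 (by linarith)
  have hV : ∀ n, n < N → ‖v (n + 1) - v n‖ ≤ 2 * Real.pi * (K * L ^ C / N) := by
    intro n hn
    rw [hv]
    refine (ee_lip _ _).trans ?_
    apply mul_le_mul_of_nonneg_left _ (by positivity)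
    have e1 : β * ((h.eval (((n + 1 : ℕ) : ℤ)) : ℤ) : ℝ) - β * ((h.eval (n : ℤ) : ℤ) : ℝ) =
        β * ((h.eval (((n + 1 : ℕ) : ℤ)) - h.eval (n : ℤ) : ℤ) : ℝ) := by push_cast; ring
    rw [e1, abs_mul]
    have e2 := hK N n hn
    have hNd : (N : ℝ) ^ h.natDegree = N * (N : ℝ) ^ (h.natDegree - 1) := by
      rw [← pow_succ']; congr 1; omega
    calc |β| * |((h.eval (((n + 1 : ℕ) : ℤ)) - h.eval (n : ℤ) : ℤ) : ℝ)|
        ≤ (L ^ C / (N : ℝ) ^ h.natDegree) * (K * (N : ℝ) ^ (h.natDegree - 1)) :=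
          mul_le_mul hβn e2 (abs_nonneg _) (by positivity)
      _ = K * L ^ C / N := by
          rw [hNd]
          field_simp
  have hE0 : 0 ≤ W * L ^ C * (N / L ^ (2 * C + 1) + W) := by positivity
  have hmain := abel_bound g v N _ _ hE0 (hvn N).le hG hV
  have hsplit : SLam h N θ - SMod h W N θ = ∑ n ∈ range N, g (n + 1) * v (n + 1) + κ * ∑ n ∈ range N, v (n + 1) := by
    unfold SLam SMod
    rw [← sum_sub_distrib, sum_Icc_one', mul_sum, ← sum_add_distrib]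
    apply sum_congr rfl
    intro n _
    have e1 : θ * ((h.eval (((n + 1 : ℕ) : ℤ)) : ℤ) : ℝ) =
        (a : ℝ) / q * ((h.eval (((n + 1 : ℕ) : ℤ)) : ℤ) : ℝ) + β * ((h.eval (((n + 1 : ℕ) : ℤ)) : ℤ) : ℝ) := by
      rw [hβ]; ring
    rw [e1, ee_add, hg, hv]
    simp only
    push_cast
    ring
  have hsecond : ‖κ * ∑ n ∈ range N, v (n + 1)‖ ≤ ε / 2 * N := by
    rw [norm_mul]
    apply mul_le_mul hκn _ (norm_nonneg _) (by positivity)
    refine (norm_sum_le _ _).trans ?_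
    rw [sum_congr rfl (fun n _ => hvn (n + 1)), sum_const, card_range, nsmul_eq_mul, mul_one]
  have hfirst : W * L ^ C * (N / L ^ (2 * C + 1) + W) * (1 + N * (2 * Real.pi * (K * L ^ C / N))) ≤ ε / 2 * N := by
    have e1 : (N : ℝ) * (2 * Real.pi * (K * L ^ C / N)) = 2 * Real.pi * K * L ^ C := by field_simp
    rw [e1]
    have hLC : 1 ≤ L ^ C := one_le_pow₀ hL1
    have e2 : 1 + 2 * Real.pi * K * L ^ C ≤ (1 + 2 * Real.pi * K) * L ^ C := by
      nlinarith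
    have e3 : (N : ℝ) / L ≤ ε / (4 * A) * N := by
      rw [div_le_iff₀ hε] at hLA
      rw [div_le_iff₀ hL0]
      have : 1 ≤ ε / (4 * A) * L := by
        rw [div_mul_eq_mul_div, le_div_iff₀ (by positivity)]
        linarith
      nlinarith
    have e4 : A * W * L ^ (2 * C) ≤ ε / 4 * N := by
      have hsq : √(N : ℝ) ≤ N := by
        rw [Real.sqrt_le_left (by positivity)]; nlinarith
      have e5 := b1.trans hsq
      have e6 : 4 * A * W / ε * L ^ (2 * C) = (4 / ε) * (A * W * L ^ (2 * C)) := by ring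
      rw [e6] at e5
      have e7 : ε / 4 * ((4 / ε) * (A * W * L ^ (2 * C))) ≤ ε / 4 * N := mul_le_mul_of_nonneg_left e5 (by positivity)
      have e8 : ε / 4 * ((4 / ε) * (A * W * L ^ (2 * C))) = A * W * L ^ (2 * C) := by field_simp
      linarith
    calc W * L ^ C * (N / L ^ (2 * C + 1) + W) * (1 + 2 * Real.pi * K * L ^ C)
        ≤ W * L ^ C * (N / L ^ (2 * C + 1) + W) * ((1 + 2 * Real.pi * K) * L ^ C) :=
          mul_le_mul_of_nonneg_left e2 hE0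
      _ = A * (N / L) + A * W * L ^ (2 * C) := by
          rw [hA, pow_succ, pow_mul']
          field_simp
      _ ≤ A * (ε / (4 * A) * N) + ε / 4 * N := add_le_add (mul_le_mul_of_nonneg_left e3 hA0.le) e4
      _ = ε / 2 * N := by field_simp; ring
  rw [hsplit]
  calc _ ≤ ‖∑ n ∈ range N, g (n + 1) * v (n + 1)‖ + ‖κ * ∑ n ∈ range N, v (n + 1)‖ := norm_add_le _ _
    _ ≤ ε / 2 * N + ε / 2 * N := add_le_add (hmain.trans hfirst) hsecond
    _ = ε * N := by ring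

end Pool.Agent.R486.PD
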