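import Pool.Agent.R486.PD.MajC
import Pool.Agent.H373R2.T7.LamMaj

/-!
# Major arcs: conclusion
-/

set_option autoImplicit false

namespace Pool.Agent.R486.PD.Maj

open Finset Polynomial Filter Topology
open Pool.Agent.H807R2.Dav (ee norm_ee ee_add ee_int ee_add_int ee_zero)

/-- the arithmetic input -/
lemma lam_FF (h : ℤ[X]) {q N : ℕ} (hq : 0 < q) (a : ℤ) {E : ℝ}
    (hE : ∀ c y : ℕ, y ≤ N →
      |∑ n ∈ (Icc 1 y).filter (fun n => n ≡ c [MOD q]), ArithmeticFunction.vonMangoldt n -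
      (if c.Coprime q then (y : ℝ) / (Nat.totient q : ℝ) else 0)| ≤ E) (t : ℕ) (ht : t ≤ N) :
    ‖∑ n ∈ Icc 1 t, ((ArithmeticFunction.vonMangoldt n : ℝ) : ℂ) * FF h q a n - t * cA h q a‖ ≤
      q * E := by
  have h1 : ∑ n ∈ Icc 1 t, ((ArithmeticFunction.vonMangoldt n : ℝ) : ℂ) * FF h q a n =
      ∑ c ∈ range q, FF h q a c *
        ((∑ n ∈ (Icc 1 t).filter (fun n => n ≡ c [MOD q]), ArithmeticFunction.vonMangoldt n : ℝ) : ℂ) := by
    rw [← sum_fiberwise_of_maps_to (s := Icc 1 t) (t := range q) (g := fun n => n % q)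
      (fun n _ => mem_range.mpr (Nat.mod_lt n hq))]
    refine sum_congr rfl (fun c hc => ?_)
    have hcq := mem_range.mp hc
    push_cast
    rw [mul_sum]
    have h2 : (Icc 1 t).filter (fun n => n % q = c) = (Icc 1 t).filter (fun n => n ≡ c [MOD q]) := by
      ext n
      simp only [mem_filter, Nat.ModEq, Nat.mod_eq_of_lt hcq]
    rw [h2]
    refine sum_congr rfl (fun n hn => ?_)
    have h3 : n % q = c := by
      have := (mem_filter.mp hn).2
      rwa [Nat.ModEq, Nat.mod_eq_of_lt hcq] at this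
    rw [← FF_mod h hq a n, h3]
    ring
  have h2 : (t : ℂ) * cA h q a = ∑ c ∈ range q, FF h q a c *
      (((if c.Coprime q then (t : ℝ) / (Nat.totient q : ℝ) else 0) : ℝ) : ℂ) := by
    unfold cA
    rw [sum_filter, mul_sum, mul_sum]
    refine sum_congr rfl (fun c _ => ?_)
    split_ifs
    · push_cast; ring
    · simp
  rw [h1, h2, ← sum_sub_distrib]
  have h3 : ∀ c ∈ range q, ‖FF h q a c *
      ((∑ n ∈ (Icc 1 t).filter (fun n => n ≡ c [MOD q]), ArithmeticFunction.vonMangoldt n : ℝ) : ℂ) -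
      FF h q a c * (((if c.Coprime q then (t : ℝ) / (Nat.totient q : ℝ) else 0) : ℝ) : ℂ)‖ ≤ E := by
    intro c _
    rw [← mul_sub, norm_mul, norm_FF, one_mul, ← Complex.ofReal_sub, Complex.norm_real,
      Real.norm_eq_abs]
    exact hE c t ht
  refine (norm_sum_le_of_le _ h3).trans ?_
  rw [sum_const, card_range, nsmul_eq_mul]

/-- reduced fractions -/
lemma near_reduce {d N : ℕ} {Q θ : ℝ} (hn : Near d N Q θ) : ∃ q : ℕ, 0 < q ∧ (q : ℝ) ≤ Q ∧
    ∃ a : ℤ, IsCoprime a (q : ℤ) ∧ |θ - a / q| ≤ Q / (N : ℝ) ^ d := by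
  obtain ⟨q₀, hq₀, hq₀Q, a₀, ha₀⟩ := hn
  obtain ⟨r, hr⟩ : ∃ r : ℚ, r = Rat.divInt a₀ (q₀ : ℤ) := ⟨_, rfl⟩
  have hden : r.den ∣ q₀ := by
    have := Rat.den_dvd a₀ (q₀ : ℤ)
    rw [← hr] at this
    exact Int.natCast_dvd_natCast.mp this
  have hle : r.den ≤ q₀ := Nat.le_of_dvd hq₀ hden
  have hq₀R : (1 : ℝ) ≤ q₀ := by exact_mod_cast hq₀
  refine ⟨r.den, r.pos, (by exact_mod_cast hle : (r.den : ℝ) ≤ q₀).trans hq₀Q, r.num, ?_, ?_⟩
  · rw [Int.isCoprime_iff_gcd_eq_one]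
    exact r.reduced
  · have h1 : ((r.num : ℝ) / (r.den : ℝ)) = (a₀ : ℝ) / q₀ := by
      have h2 : (r : ℝ) = (r.num : ℝ) / (r.den : ℝ) := Rat.cast_def r
      rw [← h2, hr, Rat.divInt_eq_div]
      push_cast
      rfl
    rw [h1]
    have h2 : θ - (a₀ : ℝ) / q₀ = (q₀ * θ - a₀) / q₀ := by field_simp
    rw [h2, abs_div, abs_of_nonneg (by linarith : (0 : ℝ) ≤ q₀)]
    calc |q₀ * θ - a₀| / q₀ ≤ |q₀ * θ - a₀| := div_le_self (abs_nonneg _) hq₀R
      _ ≤ _ := ha₀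

end Maj

open Maj Finset Polynomial Filter Topology

theorem majorArcs : MajorArcs := by
  intro h hd ε hε
  obtain ⟨z, hz⟩ := cA_sub_cB h hd (ε / 2) (by positivity)
  obtain ⟨V, hV0, hV⟩ := poly_var h hd
  refine ⟨z, fun W hW hWz C => ?_⟩
  obtain ⟨N0, hlam⟩ := Pool.Agent.H373R2.T7.lam_ap C (2 * C + 1)
  have hlog : Tendsto (fun N : ℕ => Real.log (N : ℝ)) atTop atTop :=
    Real.tendsto_log_atTop.comp tendsto_natCast_atTop_atTop
  obtain ⟨Mc, hMc⟩ : ∃ Mc : ℝ, Mc = 1 + 2 * Real.pi * V := ⟨_, rfl⟩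
  have hMc0 : 0 < Mc := by rw [hMc]; have := Real.pi_pos; positivity
  have hlim : Tendsto (fun N : ℕ => (Real.log (N : ℝ)) ^ (2 * C) / (N : ℝ)) atTop (𝓝 0) := by
    have h1 := (isLittleO_log_rpow_rpow_atTop (2 * C : ℕ) (zero_lt_one)).tendsto_div_nhds_zero
    have h2 := h1.comp (tendsto_natCast_atTop_atTop (R := ℝ))
    refine h2.congr (fun N => ?_)
    simp only [Function.comp, Real.rpow_natCast, Real.rpow_one]
  obtain ⟨N1, hN1⟩ := (hlog.eventually_ge_atTop (max 1 (4 * Mc / ε))).exists_forall_of_atTop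
  obtain ⟨N2, hN2⟩ := (hlim.eventually_le_const
    (show (0 : ℝ) < ε / (8 * Mc * W ^ 2) by positivity)).exists_forall_of_atTop
  refine ⟨max (max N0 N1) (max N2 1), fun N hN θ hnear => ?_⟩
  have a0 : N0 ≤ N := by omega
  have a1 : N1 ≤ N := by omega
  have a2 : N2 ≤ N := by omega
  have a3 : 1 ≤ N := by omega
  have hN0 : (0 : ℝ) < N := by exact_mod_cast a3
  obtain ⟨L, hL⟩ : ∃ L : ℝ, L = Real.log N := ⟨_, rfl⟩
  have hL1 : 1 ≤ L := by rw [hL]; exact (le_max_left _ _).trans (hN1 N a1)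
  have hL2 : 4 * Mc / ε ≤ L := by rw [hL]; exact (le_max_right _ _).trans (hN1 N a1)
  have hL3 := hN2 N a2
  rw [← hL] at hL3 hnear
  have hL0 : 0 < L := by linarith
  obtain ⟨q, hq, hqL, a, hcop, hθ⟩ := near_reduce hnear
  have hE1 := lam_FF h hq a (N := N) (E := N / L ^ (2 * C + 1))
    (fun c y hy => by
      rw [hL]
      exact hlam N a0 q hq (by rw [← hL]; exact hqL) c y hy)
  have hcmp := compare h hV hV0 hW hq a hE1 θ
  refine hcmp.trans ?_
  have hcc := hz W hW hWz q hq a hcop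
  have hNd : (0 : ℝ) < (N : ℝ) ^ h.natDegree := by positivity
  have hβ : 1 + 2 * Real.pi * |θ - a / q| * (V * (N : ℝ) ^ h.natDegree) ≤ Mc * L ^ C := by
    have h1 : |θ - a / q| * (N : ℝ) ^ h.natDegree ≤ L ^ C := by
      rwa [le_div_iff₀ hNd] at hθ
    have h2 : 2 * Real.pi * |θ - a / q| * (V * (N : ℝ) ^ h.natDegree) ≤
        2 * Real.pi * V * L ^ C := by
      have : 2 * Real.pi * |θ - a / q| * (V * (N : ℝ) ^ h.natDegree) =
          2 * Real.pi * V * (|θ - a / q| * (N : ℝ) ^ h.natDegree) := by ring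
      rw [this]
      exact mul_le_mul_of_nonneg_left h1 (by have := Real.pi_pos; positivity)
    have h3 : (1 : ℝ) ≤ L ^ C := one_le_pow₀ hL1
    rw [hMc, add_mul, one_mul]
    linarith
  have hEle : (q : ℝ) * (N / L ^ (2 * C + 1)) + 2 * (q * W) * W ≤
      N / L ^ (C + 1) + 2 * W ^ 2 * L ^ C := by
    refine add_le_add ?_ ?_
    · have h1 : N / L ^ (C + 1) = L ^ C * (N / L ^ (2 * C + 1)) := by
        have : L ^ (2 * C + 1) = L ^ C * L ^ (C + 1) := by rw [← pow_add]; congr 1; omega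
        rw [this]; field_simp
      rw [h1]
      exact mul_le_mul_of_nonneg_right hqL (by positivity)
    · have h1 : 2 * ((q : ℝ) * W) * W = 2 * W ^ 2 * q := by ring
      rw [h1]
      exact mul_le_mul_of_nonneg_left hqL (by positivity)
  have hfin : ((q : ℝ) * (N / L ^ (2 * C + 1)) + 2 * (q * W) * W) *
      (1 + 2 * Real.pi * |θ - a / q| * (V * (N : ℝ) ^ h.natDegree)) ≤
      (N / L ^ (C + 1) + 2 * W ^ 2 * L ^ C) * (Mc * L ^ C) :=
    mul_le_mul hEle hβ (by have := Real.pi_pos; positivity) (by positivity)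
  have e1 : (N / L ^ (C + 1) + 2 * W ^ 2 * L ^ C) * (Mc * L ^ C) =
      Mc * (N / L) + 2 * Mc * W ^ 2 * L ^ (2 * C) := by
    have h1 : L ^ (2 * C) = L ^ C * L ^ C := by rw [← pow_add]; congr 1; omega
    rw [h1, pow_succ]
    field_simp
  have e2 : Mc * (N / L) ≤ ε / 4 * N := by
    rw [div_le_iff₀ hε] at hL2
    rw [mul_div_assoc', div_le_iff₀ hL0]
    nlinarith
  have hWR : (0 : ℝ) < W := by exact_mod_cast hW
  have e3 : 2 * Mc * W ^ 2 * L ^ (2 * C) ≤ ε / 4 * N := by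
    rw [div_le_iff₀ hN0] at hL3
    have h1 : 2 * Mc * W ^ 2 * L ^ (2 * C) ≤ 2 * Mc * W ^ 2 * (ε / (8 * Mc * W ^ 2) * N) :=
      mul_le_mul_of_nonneg_left hL3 (by positivity)
    refine h1.trans (le_of_eq ?_)
    field_simp
    ring
  have e4 : ‖cA h q a - cB h W q a‖ * N ≤ ε / 2 * N := mul_le_mul_of_nonneg_right hcc hN0.le
  linarith

end Pool.Agent.R486.PD
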