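import Mathlib
import Pool.Agent.R486.PD.Iface

/-! Means realizing the upper density (helper294, for helper486). -/

set_option autoImplicit false

namespace Pool.Agent.R486.PD

open Finset Polynomial Filter
open scoped Topology
open Pool.Agent.H807R2.Dav (ee ee_add norm_ee ee_int ee_zero ee_pow ee_add_int)

namespace MeanP

/-- average over `[1, N]` -/
noncomputable def avg (f : ℤ → ℝ) (N : ℕ) : ℝ := (∑ k ∈ range N, f ((k : ℤ) + 1)) / N

lemma sum_Icc_eq (f : ℤ → ℝ) (N : ℕ) :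
    ∑ x ∈ Icc (1 : ℤ) N, f x = ∑ k ∈ range N, f ((k : ℤ) + 1) := by
  induction N with
  | zero => simp
  | succ n ih =>
    rw [sum_range_succ, ← ih]
    have : Icc (1 : ℤ) ((n + 1 : ℕ) : ℤ) = insert ((n : ℤ) + 1) (Icc (1 : ℤ) n) := by
      ext x; simp only [mem_Icc, mem_insert]; push_cast; omega
    rw [this, sum_insert (by simp)]; ring

lemma abs_avg_le {f : ℤ → ℝ} {C : ℝ} (hC : ∀ x, |f x| ≤ C) (N : ℕ) : |avg f N| ≤ C := by
  have hC0 : 0 ≤ C := (abs_nonneg _).trans (hC 0)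
  unfold avg
  rw [abs_div, Nat.abs_cast]
  rcases Nat.eq_zero_or_pos N with h | h
  · subst h; simpa using hC0
  · rw [div_le_iff₀ (by exact_mod_cast h)]
    calc |∑ k ∈ range N, f ((k : ℤ) + 1)| ≤ ∑ k ∈ range N, |f ((k : ℤ) + 1)| :=
          abs_sum_le_sum_abs _ _
      _ ≤ ∑ k ∈ range N, C := sum_le_sum fun k _ => hC _
      _ = C * N := by rw [sum_const, card_range, nsmul_eq_mul]; ring

/-- the limit of averages along an ultrafilter -/
noncomputable def Lm (U : Ultrafilter ℕ) (f : ℤ → ℝ) : ℝ := limUnder (U : Filter ℕ) (avg f)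

lemma tendsto_Lm (U : Ultrafilter ℕ) {f : ℤ → ℝ} (hf : Bdd f) :
    Tendsto (avg f) U (𝓝 (Lm U f)) := by
  obtain ⟨C, hC⟩ := hf
  obtain ⟨a, -, ha⟩ := (isCompact_Icc (a := -C) (b := C)).ultrafilter_le_nhds (U.map (avg f)) (by
    rw [Filter.le_principal_iff]
    exact Filter.mem_map.2 (Filter.univ_mem' fun N : ℕ => abs_le.1 (abs_avg_le hC N)))
  exact tendsto_nhds_limUnder ⟨a, ha⟩

lemma Lm_eq (U : Ultrafilter ℕ) {f : ℤ → ℝ} {a : ℝ} (h : Tendsto (avg f) U (𝓝 a)) :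
    Lm U f = a := h.limUnder_eq

lemma Bdd.add' {f g : ℤ → ℝ} (hf : Bdd f) (hg : Bdd g) : Bdd (fun x => f x + g x) := by
  obtain ⟨C, hC⟩ := hf
  obtain ⟨D, hD⟩ := hg
  exact ⟨C + D, fun x => (abs_add_le _ _).trans (add_le_add (hC x) (hD x))⟩

lemma Bdd.smul' {f : ℤ → ℝ} (c : ℝ) (hf : Bdd f) : Bdd (fun x => c * f x) := by
  obtain ⟨C, hC⟩ := hf
  exact ⟨|c| * C, fun x => by rw [abs_mul]; exact mul_le_mul_of_nonneg_left (hC x) (abs_nonneg _)⟩

lemma Bdd.shift' {f : ℤ → ℝ} (t : ℤ) (hf : Bdd f) : Bdd (fun x => f (x + t)) := by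
  obtain ⟨C, hC⟩ := hf
  exact ⟨C, fun x => hC _⟩

lemma Lm_shift_one (U : Ultrafilter ℕ) (hU : (U : Filter ℕ) ≤ atTop) {f : ℤ → ℝ} (hf : Bdd f) :
    Lm U (fun x => f (x + 1)) = Lm U f := by
  apply Lm_eq
  have h1 := tendsto_Lm U hf
  obtain ⟨C, hC⟩ := hf
  have h2 : Tendsto (fun N : ℕ => (f ((N : ℤ) + 1) - f 1) / N) U (𝓝 0) := by
    apply squeeze_zero_norm (a := fun N : ℕ => (2 * C) / N)
    · intro N
      rw [norm_div, Real.norm_eq_abs, Real.norm_natCast]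
      apply div_le_div_of_nonneg_right _ (Nat.cast_nonneg N)
      calc |f ((N : ℤ) + 1) - f 1| ≤ |f ((N : ℤ) + 1)| + |f 1| := abs_sub _ _
        _ ≤ 2 * C := by linarith [hC ((N : ℤ) + 1), hC 1]
    · exact (tendsto_const_div_atTop_nhds_zero_nat (2 * C)).mono_left hU
  have h3 := h1.add h2
  rw [add_zero] at h3
  refine h3.congr fun N => ?_
  unfold avg
  rw [← add_div]
  congr 1
  have h4 := sum_range_sub (fun k : ℕ => f ((k : ℤ) + 1)) N
  rw [sum_sub_distrib] at h4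
  simp only [Nat.cast_zero, zero_add] at h4
  have h5 : ∑ k ∈ range N, f ((k : ℤ) + 1 + 1) = ∑ k ∈ range N, f (((k + 1 : ℕ) : ℤ) + 1) := by
    apply sum_congr rfl; intro k _; push_cast; rfl
  rw [h5]
  linarith

lemma Lm_shift (U : Ultrafilter ℕ) (hU : (U : Filter ℕ) ≤ atTop) {f : ℤ → ℝ} (hf : Bdd f) (t : ℤ) :
    Lm U (fun x => f (x + t)) = Lm U f := by
  induction t using Int.induction_on with
  | zero => simp
  | succ n ih =>
    rw [← ih, ← Lm_shift_one U hU (Bdd.shift' (n : ℤ) hf)]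
    congr 1; funext x; congr 1; ring
  | pred n ih =>
    rw [← ih, ← Lm_shift_one U hU (Bdd.shift' (-(n : ℤ) - 1) hf)]
    congr 1; funext x; congr 1; ring

lemma isMean_Lm (U : Ultrafilter ℕ) (hU : (U : Filter ℕ) ≤ atTop) : IsMean (Lm U) where
  add f g hf hg := by
    apply Lm_eq
    refine ((tendsto_Lm U hf).add (tendsto_Lm U hg)).congr fun N => ?_
    unfold avg
    rw [sum_add_distrib, add_div]
  smul c f hf := by
    apply Lm_eq
    refine ((tendsto_Lm U hf).const_mul c).congr fun N => ?_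
    unfold avg
    rw [← mul_sum, mul_div_assoc]
  mono f g hf hg h := by
    refine le_of_tendsto_of_tendsto' (tendsto_Lm U hf) (tendsto_Lm U hg) fun N => ?_
    unfold avg
    exact div_le_div_of_nonneg_right (sum_le_sum fun k _ => h _) (Nat.cast_nonneg N)
  one := by
    apply Lm_eq
    refine (tendsto_const_nhds (x := (1 : ℝ))).congr' ?_
    have : ∀ᶠ N : ℕ in (U : Filter ℕ), 1 ≤ N := hU (eventually_ge_atTop 1)
    filter_upwards [this] with N hN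
    unfold avg
    rw [sum_const, card_range, nsmul_eq_mul, mul_one, div_self]
    exact_mod_cast (by omega : N ≠ 0)
  shift f hf t := Lm_shift U hU hf t

lemma exists_ultra (d : ℕ → ℝ) (h0 : ∀ n, 0 ≤ d n) (h1 : ∀ n, d n ≤ 1) :
    ∃ U : Ultrafilter ℕ, (U : Filter ℕ) ≤ atTop ∧ Tendsto d U (𝓝 (limsup d atTop)) := by
  have hb : IsBoundedUnder (· ≤ ·) atTop d := isBoundedUnder_of ⟨1, h1⟩
  have hb' : IsBoundedUnder (· ≥ ·) atTop d := isBoundedUnder_of ⟨0, h0⟩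
  have h2 : MapClusterPt (limsup d atTop) atTop d := by
    rw [mapClusterPt_iff_frequently]
    intro s hs
    obtain ⟨ε, hε, hs⟩ := Metric.mem_nhds_iff.1 hs
    have h3 : ∃ᶠ n in atTop, limsup d atTop - ε < d n :=
      frequently_lt_of_lt_limsup hb'.isCoboundedUnder_le (by linarith)
    have h4 : ∀ᶠ n in atTop, d n < limsup d atTop + ε := eventually_lt_of_limsup_lt (by linarith) hb
    refine (h3.and_eventually h4).mono fun n hn => hs ?_
    rw [Metric.mem_ball, Real.dist_eq, abs_lt]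
    constructor <;> linarith [hn.1, hn.2]
  exact mapClusterPt_iff_ultrafilter.1 h2

/-! ### Positive definiteness -/

/-- exponential sum -/
noncomputable def FF (s : Finset ℤ) (a : ℤ → ℝ) (θ : ℝ) : ℂ := ∑ x ∈ s, (a x : ℂ) * ee (θ * x)

open ComplexConjugate in
lemma conj_ee (x : ℝ) : conj (ee x) = ee (-x) := by
  unfold ee
  rw [← Complex.exp_conj]
  congr 1
  simp only [map_mul, Complex.conj_ofReal, Complex.conj_I, map_ofNat]
  push_cast; ring

lemma normSq_FF (s : Finset ℤ) (a : ℤ → ℝ) (θ : ℝ) :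
    ((‖FF s a θ‖ ^ 2 : ℝ) : ℂ) = ∑ x ∈ s, ∑ y ∈ s, ((a x * a y : ℝ) : ℂ) * ee (θ * (x - y)) := by
  have h1 : ((‖FF s a θ‖ ^ 2 : ℝ) : ℂ) = FF s a θ * (starRingEnd ℂ) (FF s a θ) := by
    rw [Complex.mul_conj, Complex.normSq_eq_norm_sq]
  rw [h1]
  unfold FF
  rw [map_sum, sum_mul_sum]
  apply sum_congr rfl; intro x _
  apply sum_congr rfl; intro y _
  rw [map_mul, conj_ee, Complex.conj_ofReal, mul_sub, sub_eq_add_neg, ee_add]
  push_cast; ring

lemma orth {P : ℕ} (hP : 0 < P) (m : ℤ) (hm : |m| < P) :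
    ∑ t ∈ range P, ee ((t : ℝ) / P * m) = if m = 0 then (P : ℂ) else 0 := by
  split_ifs with h
  · subst h; simp [ee_zero]
  · have hP0 : (P : ℝ) ≠ 0 := by exact_mod_cast hP.ne'
    have h1 : ∀ t : ℕ, ee ((t : ℝ) / P * m) = ee ((m : ℝ) / P) ^ t := by
      intro t; rw [← ee_pow]; congr 1; ring
    simp_rw [h1]
    have h2 : ee ((m : ℝ) / P) ^ P = 1 := by
      rw [← ee_pow, mul_div_cancel₀ _ hP0, ee_int]
    have h3 : ee ((m : ℝ) / P) ≠ 1 := by
      intro h4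
      unfold ee at h4
      rw [Complex.exp_eq_one_iff] at h4
      obtain ⟨n, hn⟩ := h4
      have h5 : (((m : ℝ) / P : ℝ) : ℂ) = n := by
        have h6 : (2 * (Real.pi : ℂ) * Complex.I) ≠ 0 := Complex.two_pi_I_ne_zero
        apply mul_left_cancel₀ h6
        rw [hn]; ring
      have h6 : (m : ℝ) / P = n := by exact_mod_cast h5
      rw [div_eq_iff hP0] at h6
      have h7 : m = n * P := by exact_mod_cast h6
      have h8 : n ≠ 0 := by rintro rfl; simp at h7; exact h h7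
      have h9 : (1 : ℤ) ≤ |n| := Int.one_le_abs h8
      have h10 : (P : ℤ) ≤ |m| := by
        rw [h7, abs_mul, Nat.abs_cast]
        nlinarith [Int.natCast_nonneg P]
      omega
    have h4 := mul_neg_geom_sum (ee ((m : ℝ) / P)) P
    rw [h2, sub_self] at h4
    rcases mul_eq_zero.1 h4 with h5 | h5
    · exact absurd (sub_eq_zero.1 h5).symm h3
    · exact h5

/-- correlation sums -/
noncomputable def cc (s : Finset ℤ) (a : ℤ → ℝ) (j : ℤ) : ℝ :=
  ∑ x ∈ s, ∑ y ∈ s, if y = x + j then a x * a y else 0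

lemma fourier (s : Finset ℤ) (a : ℤ → ℝ) (j : ℤ) {P : ℕ} (hP0 : 0 < P)
    (hP : ∀ x ∈ s, ∀ y ∈ s, |x - y + j| < P) :
    ∑ t ∈ range P, ((‖FF s a ((t : ℝ) / P)‖ ^ 2 : ℝ) : ℂ) * ee ((t : ℝ) / P * j) =
      (P : ℂ) * ((cc s a j : ℝ) : ℂ) := by
  have h1 : ∀ t : ℕ, ((‖FF s a ((t : ℝ) / P)‖ ^ 2 : ℝ) : ℂ) * ee ((t : ℝ) / P * j) =
      ∑ x ∈ s, ∑ y ∈ s, ((a x * a y : ℝ) : ℂ) * ee ((t : ℝ) / P * ((x - y + j : ℤ) : ℝ)) := by
    intro t
    rw [normSq_FF, sum_mul]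
    apply sum_congr rfl; intro x _
    rw [sum_mul]
    apply sum_congr rfl; intro y _
    rw [mul_assoc, ← ee_add]
    congr 2; push_cast; ring
  simp_rw [h1]
  rw [sum_comm]
  have h2 : ∀ x ∈ s, ∑ t ∈ range P, ∑ y ∈ s, ((a x * a y : ℝ) : ℂ) *
      ee ((t : ℝ) / P * ((x - y + j : ℤ) : ℝ)) =
      (P : ℂ) * ((∑ y ∈ s, if y = x + j then a x * a y else 0 : ℝ) : ℂ) := by
    intro x hx
    rw [sum_comm, Complex.ofReal_sum, mul_sum]
    apply sum_congr rfl; intro y hy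
    rw [← mul_sum, orth hP0 _ (hP x hx y hy)]
    by_cases h : y = x + j
    · rw [if_pos h, if_pos (by omega)]; ring
    · rw [if_neg h, if_neg (by omega)]; simp
  rw [sum_congr rfl h2, ← mul_sum]
  unfold cc
  rw [Complex.ofReal_sum]

lemma cc_zero (s : Finset ℤ) (a : ℤ → ℝ) : cc s a 0 = ∑ x ∈ s, a x ^ 2 := by
  unfold cc
  apply sum_congr rfl; intro x hx
  simp only [add_zero]
  rw [sum_ite_eq' s x, if_pos hx, sq]

lemma exists_bd (s T : Finset ℤ) : ∃ P : ℕ, 0 < P ∧ ∀ j ∈ T, ∀ x ∈ s, ∀ y ∈ s, |x - y + j| < P := by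
  classical
  obtain ⟨M, hM⟩ := Finset.exists_le (((T ×ˢ (s ×ˢ s))).image fun p => |p.2.1 - p.2.2 + p.1|)
  refine ⟨M.toNat + 1, by omega, fun j hj x hx y hy => ?_⟩
  have h1 := hM (|x - y + j|) (mem_image.2 ⟨(j, x, y), by simp [hj, hx, hy], rfl⟩)
  have h2 : M ≤ M.toNat := Int.self_le_toNat M
  push_cast
  omega

lemma cc_bound (s : Finset ℤ) (a : ℤ → ℝ) (h : ℤ[X]) (N : ℕ) (w : ℕ → ℝ) (E : ℝ)
    (hE : ∀ θ : ℝ, ‖∑ n ∈ Icc 1 N, ((w n : ℝ) : ℂ) * ee (θ * ((h.eval (n : ℤ) : ℤ) : ℝ))‖ ≤ E) :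
    |∑ n ∈ Icc 1 N, w n * cc s a (h.eval (n : ℤ))| ≤ E * ∑ x ∈ s, a x ^ 2 := by
  classical
  obtain ⟨P, hP0, hP⟩ := exists_bd s (insert 0 ((Icc 1 N).image fun n : ℕ => h.eval (n : ℤ)))
  have hP0' : (0 : ℝ) < P := by exact_mod_cast hP0
  have h0 : ∑ t ∈ range P, ‖FF s a ((t : ℝ) / P)‖ ^ 2 = P * ∑ x ∈ s, a x ^ 2 := by
    have h1 := fourier s a 0 hP0 (hP 0 (mem_insert_self _ _))
    rw [cc_zero] at h1
    have h2 : ∑ t ∈ range P, ((‖FF s a ((t : ℝ) / P)‖ ^ 2 : ℝ) : ℂ) * ee ((t : ℝ) / P * (0 : ℤ)) =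
        ((∑ t ∈ range P, ‖FF s a ((t : ℝ) / P)‖ ^ 2 : ℝ) : ℂ) := by
      rw [Complex.ofReal_sum]
      apply sum_congr rfl; intro t _
      simp [ee_zero]
    rw [h2] at h1
    exact_mod_cast h1
  have h3 : ((P * ∑ n ∈ Icc 1 N, w n * cc s a (h.eval (n : ℤ)) : ℝ) : ℂ) =
      ∑ t ∈ range P, ((‖FF s a ((t : ℝ) / P)‖ ^ 2 : ℝ) : ℂ) *
        ∑ n ∈ Icc 1 N, ((w n : ℝ) : ℂ) * ee ((t : ℝ) / P * ((h.eval (n : ℤ) : ℤ) : ℝ)) := by
    have h4 : ∀ n ∈ Icc 1 N, ((P * (w n * cc s a (h.eval (n : ℤ))) : ℝ) : ℂ) =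
        ∑ t ∈ range P, ((‖FF s a ((t : ℝ) / P)‖ ^ 2 : ℝ) : ℂ) *
          (((w n : ℝ) : ℂ) * ee ((t : ℝ) / P * ((h.eval (n : ℤ) : ℤ) : ℝ))) := by
      intro n hn
      have h5 := fourier s a (h.eval (n : ℤ)) hP0
        (hP _ (mem_insert_of_mem (mem_image.2 ⟨n, hn, rfl⟩)))
      have h6 : ((P * (w n * cc s a (h.eval (n : ℤ))) : ℝ) : ℂ) =
          (w n : ℂ) * ((P : ℂ) * ((cc s a (h.eval (n : ℤ)) : ℝ) : ℂ)) := by push_cast; ring
      rw [h6, ← h5, mul_sum]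
      apply sum_congr rfl; intro t _; ring
    rw [mul_sum, Complex.ofReal_sum, sum_congr rfl h4, sum_comm]
    apply sum_congr rfl; intro t _
    rw [mul_sum]
  have h7 : P * |∑ n ∈ Icc 1 N, w n * cc s a (h.eval (n : ℤ))| ≤ P * (E * ∑ x ∈ s, a x ^ 2) := by
    have h8 : P * |∑ n ∈ Icc 1 N, w n * cc s a (h.eval (n : ℤ))| =
        ‖((P * ∑ n ∈ Icc 1 N, w n * cc s a (h.eval (n : ℤ)) : ℝ) : ℂ)‖ := by
      rw [Complex.norm_real, Real.norm_eq_abs, abs_mul, abs_of_pos hP0']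
    rw [h8, h3]
    calc _ ≤ ∑ t ∈ range P, ‖((‖FF s a ((t : ℝ) / P)‖ ^ 2 : ℝ) : ℂ) *
        ∑ n ∈ Icc 1 N, ((w n : ℝ) : ℂ) * ee ((t : ℝ) / P * ((h.eval (n : ℤ) : ℤ) : ℝ))‖ :=
          norm_sum_le _ _
      _ ≤ ∑ t ∈ range P, ‖FF s a ((t : ℝ) / P)‖ ^ 2 * E := by
          apply sum_le_sum; intro t _
          rw [norm_mul, Complex.norm_real, Real.norm_eq_abs, abs_of_nonneg (by positivity)]
          exact mul_le_mul_of_nonneg_left (hE _) (by positivity)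
      _ = P * (E * ∑ x ∈ s, a x ^ 2) := by rw [← sum_mul, h0]; ring
  exact le_of_mul_le_mul_left h7 hP0'

lemma card_out (K : ℕ) (j : ℤ) :
    ((#((Icc (1 : ℤ) K).filter (fun x => x + j ∉ Icc (1 : ℤ) K)) : ℕ) : ℝ) ≤ |(j : ℝ)| := by
  have h1 : #((Icc (1 : ℤ) K).filter (fun x => x + j ∉ Icc (1 : ℤ) K)) ≤ j.natAbs := by
    rcases le_total 0 j with h | h
    · have : (Icc (1 : ℤ) K).filter (fun x => x + j ∉ Icc (1 : ℤ) K) ⊆ Ioc ((K : ℤ) - j) K := by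
        intro x hx
        simp only [mem_filter, mem_Icc, mem_Ioc] at hx ⊢
        omega
      refine (card_le_card this).trans ?_
      rw [Int.card_Ioc]; omega
    · have : (Icc (1 : ℤ) K).filter (fun x => x + j ∉ Icc (1 : ℤ) K) ⊆ Ico (1 : ℤ) (1 - j) := by
        intro x hx
        simp only [mem_filter, mem_Icc, mem_Ico] at hx ⊢
        omega
      refine (card_le_card this).trans ?_
      rw [Int.card_Ico]; omega
  have h2 : ((j.natAbs : ℕ) : ℝ) = |(j : ℝ)| := by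
    rw [Nat.cast_natAbs, Int.cast_abs]
  rw [← h2]
  exact_mod_cast h1

lemma cc_avg {f : ℤ → ℝ} (hf : ∀ x, 0 ≤ f x ∧ f x ≤ 1) (j : ℤ) (K : ℕ) :
    |avg (fun x => f (x + j) * f x) K - cc (Icc (1 : ℤ) K) f j / K| ≤ |(j : ℝ)| / K := by
  unfold avg
  rw [← sub_div, abs_div, Nat.abs_cast]
  apply div_le_div_of_nonneg_right _ (Nat.cast_nonneg K)
  rw [← sum_Icc_eq (fun x => f (x + j) * f x) K]
  have h1 : cc (Icc (1 : ℤ) K) f j =
      ∑ x ∈ (Icc (1 : ℤ) K).filter (fun x => x + j ∈ Icc (1 : ℤ) K), f (x + j) * f x := by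
    unfold cc
    rw [sum_filter]
    apply sum_congr rfl; intro x _
    rw [sum_ite_eq' (Icc (1 : ℤ) K) (x + j)]
    split_ifs <;> ring
  rw [h1, ← sum_filter_add_sum_filter_not (Icc (1 : ℤ) K) (fun x => x + j ∈ Icc (1 : ℤ) K),
    add_sub_cancel_left]
  refine le_trans ?_ (card_out K j)
  calc |∑ x ∈ (Icc (1 : ℤ) K).filter (fun x => x + j ∉ Icc (1 : ℤ) K), f (x + j) * f x|
      ≤ ∑ x ∈ (Icc (1 : ℤ) K).filter (fun x => x + j ∉ Icc (1 : ℤ) K), |f (x + j) * f x| :=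
        abs_sum_le_sum_abs _ _
    _ ≤ ∑ x ∈ (Icc (1 : ℤ) K).filter (fun x => x + j ∉ Icc (1 : ℤ) K), (1 : ℝ) := by
        apply sum_le_sum; intro x _
        rw [abs_of_nonneg (mul_nonneg (hf _).1 (hf _).1)]
        exact mul_le_one₀ (hf _).2 (hf _).1 (hf _).2
    _ = _ := by rw [sum_const, nsmul_eq_mul, mul_one]

lemma posDef_Lm (U : Ultrafilter ℕ) (hU : (U : Filter ℕ) ≤ atTop) : PosDef (Lm U) := by
  intro f hf h N w E hE
  have hE0 : 0 ≤ E := (norm_nonneg _).trans (hE 0)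
  have hb : ∀ j : ℤ, Bdd (fun x => f (x + j) * f x) := fun j => ⟨1, fun x => by
    rw [abs_of_nonneg (mul_nonneg (hf _).1 (hf _).1)]
    exact mul_le_one₀ (hf _).2 (hf _).1 (hf _).2⟩
  have h1 : ∀ j : ℤ, Tendsto (fun K : ℕ => cc (Icc (1 : ℤ) K) f j / K) U (𝓝 (cor (Lm U) f j)) := by
    intro j
    have h2 := tendsto_Lm U (hb j)
    have h3 : Tendsto (fun K : ℕ => avg (fun x => f (x + j) * f x) K -
        cc (Icc (1 : ℤ) K) f j / K) U (𝓝 0) := by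
      apply squeeze_zero_norm (a := fun K : ℕ => |(j : ℝ)| / K)
      · intro K; rw [Real.norm_eq_abs]; exact cc_avg hf j K
      · exact (tendsto_const_div_atTop_nhds_zero_nat _).mono_left hU
    have h4 := h2.sub h3
    rw [sub_zero] at h4
    refine h4.congr fun K => ?_
    ring
  have h2 : Tendsto (fun K : ℕ => |∑ n ∈ Icc 1 N, w n * (cc (Icc (1 : ℤ) K) f (h.eval (n : ℤ)) / K)|)
      U (𝓝 |∑ n ∈ Icc 1 N, w n * cor (Lm U) f (h.eval (n : ℤ))|) :=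
    (tendsto_finsetSum (Icc 1 N) fun (n : ℕ) _ => (h1 (h.eval (n : ℤ))).const_mul (w n)).abs
  refine le_of_tendsto h2 ?_
  have : ∀ᶠ K : ℕ in (U : Filter ℕ), 1 ≤ K := hU (eventually_ge_atTop 1)
  filter_upwards [this] with K hK
  have hK0 : (0 : ℝ) < K := by exact_mod_cast hK
  have h3 := cc_bound (Icc (1 : ℤ) K) f h N w E hE
  have h4 : ∑ n ∈ Icc 1 N, w n * (cc (Icc (1 : ℤ) K) f (h.eval (n : ℤ)) / K) =
      (∑ n ∈ Icc 1 N, w n * cc (Icc (1 : ℤ) K) f (h.eval (n : ℤ))) / K := by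
    rw [sum_div]; apply sum_congr rfl; intro n _; ring
  rw [h4, abs_div, Nat.abs_cast, div_le_iff₀ hK0]
  refine h3.trans (mul_le_mul_of_nonneg_left ?_ hE0)
  calc ∑ x ∈ Icc (1 : ℤ) K, f x ^ 2 ≤ ∑ x ∈ Icc (1 : ℤ) K, (1 : ℝ) := by
        apply sum_le_sum; intro x _; exact pow_le_one₀ (hf x).1 (hf x).2
    _ = K := by rw [sum_const, nsmul_eq_mul, mul_one, Int.card_Icc]; simp

open Classical in
lemma avg_indZ (A : Set ℕ) (N : ℕ) :
    avg (indZ A) N = (#((Icc 1 N).filter (fun n => n ∈ A)) : ℝ) / N := by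
  unfold avg
  congr 1
  rw [card_filter]
  push_cast
  have h1 : ∀ k : ℕ, indZ A ((k : ℤ) + 1) = if k + 1 ∈ A then 1 else 0 := by
    intro k
    unfold indZ
    have h2 : (∃ a ∈ A, (a : ℤ) = (k : ℤ) + 1) ↔ k + 1 ∈ A := by
      constructor
      · rintro ⟨a, ha, h⟩
        have : a = k + 1 := by omega
        rwa [← this]
      · intro h; exact ⟨k + 1, h, by push_cast; rfl⟩
    simp only [h2]
  simp_rw [h1]
  rw [range_eq_Ico, sum_Ico_add' (fun k : ℕ => if k ∈ A then (1 : ℝ) else 0) 0 N 1]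
  rfl

end MeanP

theorem existsMean : ExistsMean := by
  classical
  intro A
  obtain ⟨U, hU, hU2⟩ := MeanP.exists_ultra
    (fun N : ℕ => (#((Icc 1 N).filter (fun n => n ∈ A)) : ℝ) / N) (fun N => by positivity) (by
      intro N
      rcases Nat.eq_zero_or_pos N with h | h
      · subst h; simp
      · rw [div_le_one (by exact_mod_cast h)]
        have := (card_filter_le (Icc 1 N) (fun n => n ∈ A))
        rw [Nat.card_Icc] at this
        exact_mod_cast this.trans (by omega))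
  refine ⟨MeanP.Lm U, MeanP.isMean_Lm U hU, MeanP.posDef_Lm U hU, ?_⟩
  apply MeanP.Lm_eq
  refine Tendsto.congr (fun N => (MeanP.avg_indZ A N).symm) ?_
  unfold upperDensity
  convert hU2 using 3

end Pool.Agent.R486.PD
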