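import Mathlib
import Pool.Agent.R486.PD.Phase

/-! The minor arcs of the model `Λ_W` (helper398, for helper486). -/

set_option autoImplicit false

namespace Pool.Agent.R486.PD

open Finset Polynomial
open Pool.Agent.H807R2.Dav (ee ee_add norm_ee ee_int ee_add_int)

/-- `SMod` up to `W * (N / W)` as a double sum -/
lemma SMod_blocks (h : ℤ[X]) (W N : ℕ) (hW : 0 < W) (θ : ℝ) :
    ‖SMod h W N θ - ∑ b ∈ range W, ((lamW W (b + 1) : ℝ) : ℂ) *
      ∑ t ∈ range (N / W), ee (θ * ((h.eval (((b + 1 : ℕ) : ℤ) + (W : ℤ) * (t : ℤ)) : ℤ) : ℝ))‖ ≤ W * W := by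
  obtain ⟨F, hF⟩ : ∃ F : ℕ → ℂ, F = fun n => ((lamW W n : ℝ) : ℂ) * ee (θ * ((h.eval (n : ℤ) : ℤ) : ℝ)) := ⟨_, rfl⟩
  have h1 : SMod h W N θ = ∑ n ∈ range N, F (n + 1) := by
    rw [SMod, ← sum_Icc_one', hF]
  have h2 : ∑ b ∈ range W, ((lamW W (b + 1) : ℝ) : ℂ) *
      ∑ t ∈ range (N / W), ee (θ * ((h.eval (((b + 1 : ℕ) : ℤ) + (W : ℤ) * (t : ℤ)) : ℤ) : ℝ)) =
      ∑ n ∈ range (W * (N / W)), F (n + 1) := by
    rw [sum_blocks]
    apply sum_congr rfl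
    intro b _
    rw [mul_sum]
    apply sum_congr rfl
    intro t _
    rw [hF]
    simp only
    rw [show b + W * t + 1 = b + 1 + W * t by ring, lamW_add_mul]
    push_cast
    rfl
  have h3 : N = W * (N / W) + N % W := (Nat.div_add_mod N W).symm
  rw [h1, h2]
  conv_lhs => rw [h3]
  rw [show W * ((W * (N / W) + N % W) / W) = W * (N / W) by rw [← h3]]
  rw [sum_range_add, add_sub_cancel_left]
  refine (norm_sum_le _ _).trans ?_
  have h4 : ∀ n : ℕ, ‖F n‖ ≤ W := by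
    intro n
    rw [hF]
    simp only
    rw [norm_mul, norm_ee, mul_one, Complex.norm_real, Real.norm_eq_abs, abs_of_nonneg (lamW_nonneg W n)]
    exact lamW_le W n hW
  calc ∑ x ∈ range (N % W), ‖F (W * (N / W) + x + 1)‖ ≤ ∑ x ∈ range (N % W), (W : ℝ) := sum_le_sum fun x _ => h4 _
    _ = (N % W : ℕ) * W := by rw [sum_const, card_range, nsmul_eq_mul]
    _ ≤ W * W := by
      apply mul_le_mul_of_nonneg_right _ (Nat.cast_nonneg _)
      exact_mod_cast (Nat.mod_lt N hW).le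

theorem modelMinor : ModelMinor := by
  intro h hd ε hε W hW
  obtain ⟨c, m, hc, hI⟩ := weyl_prog h hd
  obtain ⟨u, hu⟩ : ∃ u : ℝ, u = max 1 (2 * W / ε) := ⟨_, rfl⟩
  have hu1 : 1 ≤ u := by rw [hu]; exact le_max_left _ _
  have hu2 : 2 * W / ε ≤ u := by rw [hu]; exact le_max_right _ _
  have hWr : (1 : ℝ) ≤ W := by exact_mod_cast hW
  have hcr : (1 : ℝ) ≤ c := by exact_mod_cast hc
  obtain ⟨E, hE⟩ : ∃ E : ℝ, E = c * u ^ m := ⟨_, rfl⟩
  have hE1 : 1 ≤ E := by rw [hE]; exact one_le_mul_of_one_le_of_one_le hcr (one_le_pow₀ hu1)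
  have hlc : h.leadingCoeff ≠ 0 := by
    intro h0
    rw [leadingCoeff_eq_zero] at h0
    rw [h0] at hd
    simp at hd
  obtain ⟨A, hA⟩ : ∃ A : ℕ, A = h.natDegree.factorial * (h.leadingCoeff.natAbs * W ^ h.natDegree) := ⟨_, rfl⟩
  have hA1 : 1 ≤ A := by
    rw [hA]
    exact Nat.mul_pos (Nat.factorial_pos _) (Nat.mul_pos (Int.natAbs_pos.2 hlc) (Nat.pow_pos hW))
  refine ⟨⌈E * A + E * (2 * W) ^ h.natDegree⌉₊, max (2 * W) ⌈2 * W * W / ε⌉₊, fun N hN θ hS => ?_⟩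
  have hN1 : 2 * W ≤ N := (le_max_left _ _).trans hN
  have hN2 : 2 * W * W / ε ≤ N := (Nat.le_ceil _).trans (by exact_mod_cast (le_max_right _ _).trans hN)
  have hNr : (2 * W : ℝ) ≤ N := by exact_mod_cast hN1
  have hN0 : (0 : ℝ) < N := by linarith
  obtain ⟨T, hT⟩ : ∃ T : ℕ, T = N / W := ⟨_, rfl⟩
  have hT1 : 1 ≤ T := by
    rw [hT, Nat.le_div_iff_mul_le hW]; omega
  have hTu : (T : ℝ) ≤ N / W := by rw [hT]; exact Nat.cast_div_le
  have hTl : (N : ℝ) ≤ 2 * W * T := by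
    have h1 : N < W * (T + 1) := by rw [hT]; exact Nat.lt_mul_div_succ N hW
    have h2 : N ≤ 2 * W * T := by nlinarith
    exact_mod_cast h2
  have hb := SMod_blocks h W N hW θ
  rw [← hT] at hb
  -- one class has a large sum
  have hex : ∃ b ∈ range W, ε * N / (2 * W * W) ≤
      ‖∑ t ∈ range T, ee (θ * ((h.eval (((b + 1 : ℕ) : ℤ) + (W : ℤ) * (t : ℤ)) : ℤ) : ℝ))‖ := by
    by_contra hcon
    push Not at hcon
    have h1 : ‖∑ b ∈ range W, ((lamW W (b + 1) : ℝ) : ℂ) *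
        ∑ t ∈ range T, ee (θ * ((h.eval (((b + 1 : ℕ) : ℤ) + (W : ℤ) * (t : ℤ)) : ℤ) : ℝ))‖ < ε * N / 2 := by
      refine (norm_sum_le _ _).trans_lt ?_
      calc ∑ b ∈ range W, ‖((lamW W (b + 1) : ℝ) : ℂ) *
            ∑ t ∈ range T, ee (θ * ((h.eval (((b + 1 : ℕ) : ℤ) + (W : ℤ) * (t : ℤ)) : ℤ) : ℝ))‖
          < ∑ b ∈ range W, (W : ℝ) * (ε * N / (2 * W * W)) := by
            apply sum_lt_sum_of_nonempty ⟨0, mem_range.2 hW⟩
            intro b hb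
            rw [norm_mul, Complex.norm_real, Real.norm_eq_abs, abs_of_nonneg (lamW_nonneg _ _)]
            exact mul_lt_mul' (lamW_le _ _ hW) (hcon b hb) (norm_nonneg _) (by linarith)
        _ = ε * N / 2 := by
            rw [sum_const, card_range, nsmul_eq_mul]
            field_simp
    have h2 := norm_sub_norm_le (SMod h W N θ) (∑ b ∈ range W, ((lamW W (b + 1) : ℝ) : ℂ) *
        ∑ t ∈ range T, ee (θ * ((h.eval (((b + 1 : ℕ) : ℤ) + (W : ℤ) * (t : ℤ)) : ℤ) : ℝ)))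
    have h3 : (W : ℝ) * W ≤ ε * N / 2 := by
      rw [div_le_iff₀ hε] at hN2
      nlinarith
    linarith
  obtain ⟨b, -, hbS⟩ := hex
  have hlarge : (T : ℝ) ≤ u * ‖∑ t ∈ range T, ee (θ * ((h.eval (((b + 1 : ℕ) : ℤ) + (W : ℤ) * (t : ℤ)) : ℤ) : ℝ))‖ := by
    calc (T : ℝ) ≤ N / W := hTu
      _ = (2 * W / ε) * (ε * N / (2 * W * W)) := by field_simp
      _ ≤ u * ‖∑ t ∈ range T, ee (θ * ((h.eval (((b + 1 : ℕ) : ℤ) + (W : ℤ) * (t : ℤ)) : ℤ) : ℝ))‖ :=
        mul_le_mul hu2 hbS (by positivity) (by linarith)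
  obtain ⟨q, hq1, hq2, a, ha⟩ := hI W hW _ T u θ hT1 hu1 hlarge
  rw [← hE] at hq2 ha
  have hTd : E / (T : ℝ) ^ h.natDegree ≤ E * (2 * W) ^ h.natDegree / (N : ℝ) ^ h.natDegree := by
    have hT0 : (0 : ℝ) < T := by exact_mod_cast hT1
    rw [div_le_div_iff₀ (by positivity) (by positivity), mul_assoc E, ← mul_pow]
    apply mul_le_mul_of_nonneg_left _ (by linarith)
    exact pow_le_pow_left₀ hN0.le hTl _
  have hceil : E * A + E * (2 * W) ^ h.natDegree ≤ (⌈E * A + E * (2 * W) ^ h.natDegree⌉₊ : ℝ) := Nat.le_ceil _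
  have hp1 : 0 ≤ E * (2 * W : ℝ) ^ h.natDegree := by positivity
  have hp2 : 0 ≤ E * (A : ℝ) := by positivity
  refine ⟨q * A, Nat.mul_pos hq1 hA1, ?_, ?_⟩
  · push_cast
    calc (q : ℝ) * A ≤ E * A := mul_le_mul_of_nonneg_right hq2 (Nat.cast_nonneg _)
      _ ≤ _ := by linarith
  · have hN' : E * (2 * W) ^ h.natDegree / (N : ℝ) ^ h.natDegree ≤
        (⌈E * A + E * (2 * W) ^ h.natDegree⌉₊ : ℝ) / (N : ℝ) ^ h.natDegree :=
      div_le_div_of_nonneg_right (by linarith) (by positivity)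
    rcases le_or_gt 0 h.leadingCoeff with hp | hp
    · refine ⟨a, le_trans (le_of_eq ?_) (ha.trans (hTd.trans hN'))⟩
      congr 1
      have : ((h.leadingCoeff.natAbs : ℕ) : ℝ) = (h.leadingCoeff : ℝ) := by
        rw [Nat.cast_natAbs, abs_of_nonneg hp]
      rw [hA]
      push_cast
      rw [this]
      ring
    · refine ⟨-a, le_trans (le_of_eq ?_) (ha.trans (hTd.trans hN'))⟩
      rw [← abs_neg]
      congr 1
      have : ((h.leadingCoeff.natAbs : ℕ) : ℝ) = -(h.leadingCoeff : ℝ) := by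
        rw [Nat.cast_natAbs, abs_of_neg hp]; push_cast; ring
      rw [hA]
      push_cast
      rw [this]
      ring

end Pool.Agent.R486.PD
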