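import Mathlib
import Pool.Agent.R486.PD.Iface

/-!
# P4: from the primes to all the integers coprime to `M` (helper805)
-/

set_option autoImplicit false

namespace Pool.Agent.R486.PD

open Finset Polynomial Filter
open scoped Topology
open Pool.Agent.H807R2.Dav (ee)

/-- the number of residues coprime to `W` in a class mod `M` -/
lemma card_class (M W b : ℕ) (hM : 1 ≤ M) (hW : 1 ≤ W) (hMW : M ∣ W) (hb : b.Coprime M) :
    Nat.totient W ≤
      Nat.totient M * #((range W).filter (fun s => s.Coprime W ∧ s ≡ b [MOD M])) := by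
  classical
  have : NeZero M := ⟨by omega⟩
  have : NeZero W := ⟨by omega⟩
  set f := ZMod.unitsMap hMW with hf
  have hsurj : Function.Surjective f := ZMod.unitsMap_surjective hMW
  set u := ZMod.unitOfCoprime b hb with hu
  have hcard : ∀ v : (ZMod M)ˣ, #{g : (ZMod W)ˣ | f g = v} = #{g : (ZMod W)ˣ | f g = u} :=
    fun v => MonoidHom.card_fiber_eq_of_mem_range f (hsurj v) (hsurj u)
  have h1 : Nat.totient W = Nat.totient M * #{g : (ZMod W)ˣ | f g = u} := by
    have h2 : #(univ : Finset (ZMod W)ˣ) = ∑ v : (ZMod M)ˣ, #{g : (ZMod W)ˣ | f g = v} := by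
      apply Finset.card_eq_sum_card_fiberwise
      intro x _
      simp
    rw [Finset.card_univ, ZMod.card_units_eq_totient] at h2
    rw [h2, Finset.sum_congr rfl (fun v _ => hcard v), Finset.sum_const, Finset.card_univ,
      ZMod.card_units_eq_totient, smul_eq_mul]
  rw [h1]
  apply Nat.mul_le_mul_left
  apply Finset.card_le_card_of_injOn (fun g : (ZMod W)ˣ => (g : ZMod W).val)
  · intro g hg
    simp only [coe_filter, mem_univ, true_and, Set.mem_ofPred_eq] at hg
    simp only [coe_filter, mem_range, Set.mem_ofPred_eq]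
    refine ⟨ZMod.val_lt _, ZMod.val_coe_unit_coprime g, ?_⟩
    rw [← ZMod.natCast_eq_natCast_iff]
    have h3 : ((f g : (ZMod M)ˣ) : ZMod M) = (b : ZMod M) := by
      rw [hg, hu, ZMod.coe_unitOfCoprime]
    rw [hf, ZMod.unitsMap_val] at h3
    rw [← h3, ZMod.natCast_val]
  · intro g _ g' _ hgg
    exact Units.ext (ZMod.val_injective W hgg)

lemma sum_Lam_le (h : ℤ[X]) (hd : 1 ≤ h.natDegree) (c : ℤ → ℝ) (hc : ∀ j, 0 ≤ c j ∧ c j ≤ 1)
    (hp : ∀ p : ℕ, p.Prime → h.eval (p : ℤ) ≠ 0 → c (h.eval (p : ℤ)) = 0) :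
    ∃ C : ℝ, 0 ≤ C ∧ ∀ N : ℕ,
      ∑ n ∈ Icc 1 N, ArithmeticFunction.vonMangoldt n * c (h.eval (n : ℤ)) ≤ C * √N + C := by
  classical
  have hh : h ≠ 0 := by
    rintro rfl
    simp at hd
  have hfin : {n : ℕ | h.eval (n : ℤ) = 0}.Finite := by
    have h1 : {x : ℤ | h.IsRoot x}.Finite := h.finite_setOfPred_isRoot hh
    have h2 := h1.preimage (f := fun n : ℕ => (n : ℤ)) (Nat.cast_injective.injOn)
    exact h2
  obtain ⟨C1, hC1⟩ := Chebyshev.psi_sub_theta_le_mul_sqrt
  set C0 : ℝ := ∑ n ∈ hfin.toFinset, ArithmeticFunction.vonMangoldt n with hC0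
  have hC0n : 0 ≤ C0 := sum_nonneg fun n _ => ArithmeticFunction.vonMangoldt_nonneg
  refine ⟨max (max C1 0) C0, le_max_of_le_right hC0n, fun N => ?_⟩
  have key : ∀ n ∈ Icc 1 N, ArithmeticFunction.vonMangoldt n * c (h.eval (n : ℤ)) ≤
      (if ¬ n.Prime then ArithmeticFunction.vonMangoldt n else 0) +
      (if n ∈ hfin.toFinset then ArithmeticFunction.vonMangoldt n else 0) := by
    intro n _
    have hv : (0 : ℝ) ≤ ArithmeticFunction.vonMangoldt n := ArithmeticFunction.vonMangoldt_nonneg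
    have hcn := hc (h.eval (n : ℤ))
    have h5 : ArithmeticFunction.vonMangoldt n * c (h.eval (n : ℤ)) ≤
        ArithmeticFunction.vonMangoldt n := by
      calc _ ≤ ArithmeticFunction.vonMangoldt n * 1 := mul_le_mul_of_nonneg_left hcn.2 hv
        _ = _ := mul_one _
    by_cases hn : n.Prime
    · by_cases h0 : h.eval (n : ℤ) = 0
      · have h3 : n ∈ hfin.toFinset := by simpa using h0
        rw [if_neg (not_not.2 hn), if_pos h3, zero_add]
        exact h5
      · rw [hp n hn h0, mul_zero]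
        split_ifs <;> simp [hv]
    · rw [if_pos hn]
      split_ifs
      · linarith
      · linarith
  have h6 : ∑ n ∈ Icc 1 N, (if ¬ n.Prime then ArithmeticFunction.vonMangoldt n else 0) ≤
      C1 * √N := by
    have h7 := Chebyshev.psi_sub_theta_eq_sum_not_prime (N : ℝ)
    rw [Nat.floor_natCast, sum_filter] at h7
    have h8 : Icc 1 N = Ioc 0 N := by
      ext x
      simp only [mem_Icc, mem_Ioc]
      omega
    rw [h8, ← h7]
    exact hC1 N
  have h9 : ∑ n ∈ Icc 1 N, (if n ∈ hfin.toFinset then ArithmeticFunction.vonMangoldt n else 0) ≤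
      C0 := by
    rw [← sum_filter]
    apply sum_le_sum_of_subset_of_nonneg
    · intro x hx
      rw [mem_filter] at hx
      exact hx.2
    · intro n _ _
      exact ArithmeticFunction.vonMangoldt_nonneg
  calc _ ≤ ∑ n ∈ Icc 1 N, ((if ¬ n.Prime then ArithmeticFunction.vonMangoldt n else 0) +
        (if n ∈ hfin.toFinset then ArithmeticFunction.vonMangoldt n else 0)) := sum_le_sum key
    _ ≤ C1 * √N + C0 := by
        rw [sum_add_distrib]
        exact add_le_add h6 h9
    _ ≤ _ := by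
        apply add_le_add
        · apply mul_le_mul_of_nonneg_right _ (Real.sqrt_nonneg _)
          exact le_max_of_le_left (le_max_left _ _)
        · exact le_max_right _ _

/-- disjoint progressions inside `[1, W N]` -/
lemma sum_prog_le (W N : ℕ) (hW : 1 ≤ W) (S : Finset ℕ) (hS : ∀ s ∈ S, 1 ≤ s ∧ s < W)
    (F : ℕ → ℝ) (hF : ∀ n, 0 ≤ F n) :
    ∑ s ∈ S, ∑ k ∈ range N, F (s + W * k) ≤ ∑ n ∈ Icc 1 (W * N), F n := by
  classical
  rw [← sum_product']
  have hinj : Set.InjOn (fun x : ℕ × ℕ => x.1 + W * x.2) (S ×ˢ range N : Finset (ℕ × ℕ)) := by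
    rintro ⟨s, k⟩ hx ⟨s', k'⟩ hx' hxx
    simp only [coe_product, Set.mem_prod, mem_coe, mem_range] at hx hx' hxx
    have h1 := hS s hx.1
    have h2 := hS s' hx'.1
    have h3 : (s + W * k) / W = (s' + W * k') / W := by rw [hxx]
    rw [Nat.add_mul_div_left _ _ (by omega), Nat.add_mul_div_left _ _ (by omega),
      Nat.div_eq_of_lt h1.2, Nat.div_eq_of_lt h2.2, zero_add, zero_add] at h3
    subst h3
    simp only [Prod.mk.injEq, and_true]
    omega
  rw [← sum_image (f := F) (g := fun x : ℕ × ℕ => x.1 + W * x.2) hinj]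
  apply sum_le_sum_of_subset_of_nonneg
  · intro n hn
    simp only [mem_image, mem_product, mem_range, Prod.exists] at hn
    obtain ⟨s, k, ⟨hs, hk⟩, rfl⟩ := hn
    have h1 := hS s hs
    rw [mem_Icc]
    refine ⟨by omega, ?_⟩
    calc s + W * k ≤ W + W * k := by omega
      _ = W * (k + 1) := by ring
      _ ≤ W * N := Nat.mul_le_mul_left _ hk
  · intro n _ _
    exact hF n

theorem primeCorr (hPU : PrimeUniform) : PrimeCorr := by
  classical
  intro h hd c hc hpd hprime M b hM hbM κ hκ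
  by_contra hκ0
  push Not at hκ0
  have hφM : 0 < Nat.totient M := Nat.totient_pos.2 hM
  have hφMr : (0 : ℝ) < Nat.totient M := by exact_mod_cast hφM
  set ε : ℝ := κ / (8 * Nat.totient M) with hε
  have hε0 : 0 < ε := by positivity
  obtain ⟨z, hz⟩ := hPU h hd ε hε0
  set W : ℕ := M * (z + 2).factorial with hWdef
  have hW2 : 2 ≤ W := by
    have h1 : 2 ≤ (z + 2).factorial :=
      (Nat.le_add_left 2 z).trans (Nat.self_le_factorial _)
    calc 2 = 1 * 2 := by ring
      _ ≤ M * (z + 2).factorial := Nat.mul_le_mul hM h1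
  have hMW : M ∣ W := Dvd.intro _ rfl
  obtain ⟨N₀, hN₀⟩ := hz W (by omega) (fun p hp1 hp2 =>
    (Nat.dvd_factorial hp2.pos (by omega)).trans (Dvd.intro_left _ rfl))
  obtain ⟨C, hC0, hC⟩ := sum_Lam_le h hd c hc hprime
  set S := (range W).filter (fun s => s.Coprime W ∧ s ≡ b [MOD M]) with hS
  have hSpos : ∀ s ∈ S, 1 ≤ s ∧ s < W := by
    intro s hs
    rw [hS, mem_filter, mem_range] at hs
    refine ⟨?_, hs.1⟩
    rcases Nat.eq_zero_or_pos s with h0 | h0
    · exfalso
      rw [h0, Nat.coprime_zero_left] at hs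
      omega
    · exact h0
  have hScard := card_class M W b hM (by omega) hMW hbM
  rw [← hS] at hScard
  have hφW : 0 < Nat.totient W := Nat.totient_pos.2 (by omega)
  have hφWr : (0 : ℝ) < Nat.totient W := by exact_mod_cast hφW
  -- eventually all the averages are large
  have hev1 : ∀ᶠ N : ℕ in atTop, ∀ s ∈ S,
      κ ≤ (∑ k ∈ range N, c (h.eval ((s : ℤ) + W * k))) / N := by
    rw [Finset.eventually_all]
    intro s hs
    apply hκ W (by omega) hMW s
    rw [hS, mem_filter] at hs
    exact hs.2.2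
  have hev2 : ∀ᶠ N : ℕ in atTop, N₀ ≤ N := eventually_ge_atTop _
  have hev3 : ∀ᶠ N : ℕ in atTop, C * √((W * N : ℕ) : ℝ) + C ≤ ε * ((W * N : ℕ) : ℝ) := by
    have h1 : Tendsto (fun N : ℕ => √((W * N : ℕ) : ℝ)) atTop atTop := by
      apply Real.tendsto_sqrt_atTop.comp
      apply tendsto_natCast_atTop_atTop.comp
      exact tendsto_id.const_mul_atTop' (by omega)
    filter_upwards [h1.eventually_ge_atTop (2 * C / ε), h1.eventually_ge_atTop 1] with N h2 h3
    set x := √((W * N : ℕ) : ℝ) with hx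
    have h4 : ((W * N : ℕ) : ℝ) = x * x := (Real.mul_self_sqrt (Nat.cast_nonneg _)).symm
    rw [h4]
    rw [div_le_iff₀ hε0] at h2
    nlinarith
  obtain ⟨N, hN1, hN2, hN3, hN4⟩ :=
    (hev1.and (hev2.and (hev3.and (eventually_ge_atTop 1)))).exists
  have hNr : (0 : ℝ) < N := by exact_mod_cast hN4
  have hWr : (0 : ℝ) < W := by
    have : 0 < W := by omega
    exact_mod_cast this
  set N' := W * N with hN'
  have hN'N : N₀ ≤ N' := hN2.trans (Nat.le_mul_of_pos_left _ (by omega))
  -- upper bound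
  have hup : |∑ n ∈ Icc 1 N', (ArithmeticFunction.vonMangoldt n - lamW W n) *
      c (h.eval (n : ℤ))| ≤ ε * N' := by
    apply hpd N' (fun n => ArithmeticFunction.vonMangoldt n - lamW W n)
    intro θ
    have h1 := hN₀ N' hN'N θ
    refine le_trans (le_of_eq ?_) h1
    congr 1
    rw [SLam, SMod, ← sum_sub_distrib]
    apply sum_congr rfl
    intro n _
    push_cast
    ring
  have hup2 : ∑ n ∈ Icc 1 N', lamW W n * c (h.eval (n : ℤ)) ≤ 2 * ε * N' := by
    have h1 := (abs_le.1 hup).1
    have h2 : ∑ n ∈ Icc 1 N', (ArithmeticFunction.vonMangoldt n - lamW W n) *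
        c (h.eval (n : ℤ)) = ∑ n ∈ Icc 1 N', ArithmeticFunction.vonMangoldt n *
        c (h.eval (n : ℤ)) - ∑ n ∈ Icc 1 N', lamW W n * c (h.eval (n : ℤ)) := by
      rw [← sum_sub_distrib]
      apply sum_congr rfl
      intro n _
      ring
    have h3 := hC N'
    linarith
  -- lower bound
  have hlow := sum_prog_le W N (by omega) S hSpos (fun n => lamW W n * c (h.eval (n : ℤ)))
    (fun n => mul_nonneg (by unfold lamW; split_ifs <;> positivity) (hc _).1)
  have hlow2 : ∀ s ∈ S, (W : ℝ) / Nat.totient W * (κ * N) ≤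
      ∑ k ∈ range N, lamW W (s + W * k) * c (h.eval ((s + W * k : ℕ) : ℤ)) := by
    intro s hs
    have h1 := hN1 s hs
    rw [le_div_iff₀ hNr] at h1
    have h2 : ∀ k : ℕ, lamW W (s + W * k) = (W : ℝ) / Nat.totient W := by
      intro k
      rw [hS, mem_filter] at hs
      have h3 : (s + W * k).Coprime W := by
        rw [Nat.coprime_add_mul_left_left]
        exact hs.2.1
      rw [lamW, if_pos h3]
    simp only [h2]
    rw [← mul_sum]
    apply mul_le_mul_of_nonneg_left _ (by positivity)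
    refine h1.trans (le_of_eq ?_)
    apply sum_congr rfl
    intro k _
    push_cast
    rfl
  have hlow3 : (W : ℝ) / Nat.totient M * (κ * N) ≤ 2 * ε * N' := by
    have h1 : (#S : ℝ) * ((W : ℝ) / Nat.totient W * (κ * N)) ≤
        ∑ s ∈ S, ∑ k ∈ range N, lamW W (s + W * k) * c (h.eval ((s + W * k : ℕ) : ℤ)) := by
      rw [← nsmul_eq_mul, ← sum_const]
      exact sum_le_sum hlow2
    have h2 : (W : ℝ) / Nat.totient M ≤ #S * ((W : ℝ) / Nat.totient W) := by
      rw [div_le_iff₀ hφMr]
      have h3 : (Nat.totient W : ℝ) ≤ Nat.totient M * #S := by exact_mod_cast hScard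
      calc (W : ℝ) = Nat.totient W * (W / Nat.totient W) := by field_simp
        _ ≤ (Nat.totient M * #S) * (W / Nat.totient W) :=
            mul_le_mul_of_nonneg_right h3 (by positivity)
        _ = _ := by ring
    have h3 : (W : ℝ) / Nat.totient M * (κ * N) ≤ #S * ((W : ℝ) / Nat.totient W) * (κ * N) :=
      mul_le_mul_of_nonneg_right h2 (by positivity)
    calc _ ≤ _ := h3
      _ = (#S : ℝ) * ((W : ℝ) / Nat.totient W * (κ * N)) := by ring
      _ ≤ _ := h1
      _ ≤ _ := hlow
      _ ≤ _ := hup2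
  have hfin : 2 * ε * N' = (W : ℝ) / Nat.totient M * (κ * N) / 4 := by
    rw [hε, hN']
    push_cast
    field_simp
    ring
  rw [hfin] at hlow3
  have hpos : 0 < (W : ℝ) / Nat.totient M * (κ * N) := by positivity
  linarith

end Pool.Agent.R486.PD
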